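import Pool.Agent.H.MP_bb4c62_an.QP.Basic

/-!
# Module QP/HLine: H-lines consist of adjacent operators of rank one

`ℓ` an H-line, `A`, `B` non-proportional members. Test operators: `S ^ k = ten x g` and
`S ^ k = ten x g + ten x' g'` (Gram determinant not `0`).

* `HLine_good`: if `A x`, `B x` are independent, then for every `b` there are non-proportional members
  `U1`, `U2` with `U1 x`, `U2 x` not multiples of `b`.
* `HLine_zero`: if `A x`, `B x` are independent and `A z`, `B z` are dependent, then `A z = B z = 0`.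
* `HLine_span`: if `A x`, `B x` and `A x'`, `B x'` are independent then they span the same plane.
* `hline_adj`: if `A x`, `B x` are independent for some `x` then for every `z` there is `t` with
  `A (z + t x) = B (z + t x) = 0`, so `A`, `B` are of rank one with the same kernel. Otherwise
  `adj_of_local`.
-/

namespace Pool.Agent.H.MP_bb4c62_an.QP

open Pool.Agent.H.MP_bb4c62_an.helper6.NL
open Pool.Agent.H.MP_bb4c62_an.helper6.Perturb
open Pool.Agent.H.MP_bb4c62_an.helper6.Gadgets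

variable {X : Type*} [NormedAddCommGroup X] [NormedSpace ℂ X]

theorem HLine_prp [CompleteSpace X] {k : ℕ} {T S : X →L[ℂ] X} {x : X} {g : X →L[ℂ] ℂ}
    (hS : S ^ k = ten x g) : Prp k T S ↔ g (T x) = 0 := by
  unfold Prp
  rw [hS, mul_ten]
  exact qn_ten_iff

theorem HLine_dep [CompleteSpace X] {k : ℕ} (hR : Rich X k) {A B C : X →L[ℂ] X}
    (h : Dep k A B C) (x : X) (g : X →L[ℂ] ℂ) (h1 : g (A x) = 0) (h2 : g (B x) = 0) :
    g (C x) = 0 := by
  obtain ⟨S, hS⟩ := hR.one x g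
  exact (HLine_prp hS).mp (h S ((HLine_prp hS).mpr h1) ((HLine_prp hS).mpr h2))

/-- one of two independent vectors is not a multiple of `a` -/
theorem HLine_other {A B : X →L[ℂ] X} {x : X} (hx : LinearIndependent ℂ ![A x, B x]) (a : X) :
    ∃ v : X, (¬ ∃ c : ℂ, v = c • a) ∧ (v = A x ∨ v = B x) := by
  by_cases h1 : ∃ c : ℂ, A x = c • a
  · refine ⟨B x, ?_, Or.inr rfl⟩
    rintro ⟨d, hd⟩
    obtain ⟨c, hc⟩ := h1
    have hc0 : c ≠ 0 := by
      rintro rfl
      rw [zero_smul] at hc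
      exact hx.ne_zero 0 hc
    have h3 := LinearIndependent.pair_iff.mp hx (-d) c
      (by rw [hd, hc, smul_smul, smul_smul, neg_mul, neg_smul, mul_comm]; abel)
    exact hc0 h3.2
  · exact ⟨A x, h1, Or.inl rfl⟩

section Fix

variable [CompleteSpace X] {k : ℕ} (hR : Rich X k) {ℓ : Set (X →L[ℂ] X)} (hℓ : HLine k ℓ)

include hℓ

theorem HLine_ne {U : X →L[ℂ] X} (hU : U ∈ ℓ) : U ≠ 0 := by
  obtain ⟨A, hA, B, hB, hAB⟩ := hℓ.two
  exact ((hℓ.gen A hA B hB hAB U).mp hU).1

theorem HLine_symm {A B : X →L[ℂ] X} (hA : A ∈ ℓ) (hAB : ¬ ∃ c : ℂ, B = c • A) :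
    ¬ ∃ c : ℂ, A = c • B := by
  rintro ⟨c, hc⟩
  have hc0 : c ≠ 0 := by
    rintro rfl
    rw [zero_smul] at hc
    exact HLine_ne hℓ hA hc
  exact hAB ⟨c⁻¹, by rw [hc, smul_smul, inv_mul_cancel₀ hc0, one_smul]⟩

include hR

theorem HLine_fun {A B C : X →L[ℂ] X} (hA : A ∈ ℓ) (hB : B ∈ ℓ) (hAB : ¬ ∃ c : ℂ, B = c • A)
    (hC : C ∈ ℓ) (x : X) (g : X →L[ℂ] ℂ) (h1 : g (A x) = 0) (h2 : g (B x) = 0) :
    g (C x) = 0 :=
  HLine_dep hR ((hℓ.gen A hA B hB hAB C).mp hC).2 x g h1 h2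

theorem HLine_one (x : X) (g : X →L[ℂ] ℂ) : ∃ U ∈ ℓ, g (U x) = 0 := by
  obtain ⟨S, hS⟩ := hR.one x g
  obtain ⟨U, hU, h⟩ := hℓ.meet S
  exact ⟨U, hU, (HLine_prp hS).mp h⟩

theorem HLine_two {x x' : X} {g g' : X →L[ℂ] ℂ} (hdet : g x * g' x' - g x' * g' x ≠ 0) :
    ∃ U ∈ ℓ, g (U x) + g' (U x') = 0 ∧ g (U x) * g' (U x') - g (U x') * g' (U x) = 0 := by
  obtain ⟨S, hS⟩ := hR.two x x' g g' hdet
  obtain ⟨U, hU, h⟩ := hℓ.meet S
  refine ⟨U, hU, ?_⟩
  unfold Prp at h
  rw [hS, mul_add, mul_ten, mul_ten] at h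
  exact qn_two h

/-- two members which agree with a functional at `x` are proportional, if the functional does not
vanish on the plane -/
theorem HLine_par {A B U V : X →L[ℂ] X} (hA : A ∈ ℓ) (hB : B ∈ ℓ)
    (hU : U ∈ ℓ) (hV : V ∈ ℓ) {x : X} {g : X →L[ℂ] ℂ}
    (h1 : g (U x) = 0) (h2 : g (V x) = 0) (h3 : g (A x) ≠ 0 ∨ g (B x) ≠ 0) :
    ∃ c : ℂ, c ≠ 0 ∧ U = c • V := by
  have h4 : ∃ c : ℂ, U = c • V := by
    by_contra hcon
    rcases h3 with h3 | h3
    · exact h3 (HLine_fun hR hℓ hV hU hcon hA x g h2 h1)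
    · exact h3 (HLine_fun hR hℓ hV hU hcon hB x g h2 h1)
  obtain ⟨c, hc⟩ := h4
  refine ⟨c, ?_, hc⟩
  rintro rfl
  rw [zero_smul] at hc
  exact HLine_ne hℓ hU hc

theorem HLine_app {A B U : X →L[ℂ] X} (hA : A ∈ ℓ) (hB : B ∈ ℓ)
    (hU : U ∈ ℓ) {x : X} (hx : LinearIndependent ℂ ![A x, B x]) : U x ≠ 0 := by
  intro h0
  by_cases hUA : ∃ c : ℂ, U = c • A
  · obtain ⟨c, hc⟩ := hUA
    have hc0 : c ≠ 0 := by
      rintro rfl
      rw [zero_smul] at hc
      exact HLine_ne hℓ hU hc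
    rw [hc] at h0
    have h1 : c • A x = 0 := h0
    exact hx.ne_zero 0 ((smul_eq_zero.mp h1).resolve_left hc0)
  · obtain ⟨g, hg⟩ := exists_dual hx ![0, 1]
    have hg0 : g (A x) = 0 := by simpa using hg 0
    have hg1 : g (B x) = 1 := by simpa using hg 1
    have h2 := HLine_fun hR hℓ hA hU hUA hB x g hg0 (by rw [h0, map_zero])
    rw [hg1] at h2
    exact one_ne_zero h2

theorem HLine_good {A B : X →L[ℂ] X} (hA : A ∈ ℓ) (hB : B ∈ ℓ) (hAB : ¬ ∃ c : ℂ, B = c • A)
    {x : X} (hx : LinearIndependent ℂ ![A x, B x]) (b : X) :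
    ∃ U ∈ ℓ, ∃ V ∈ ℓ, (¬ ∃ c : ℂ, V = c • U) ∧ (¬ ∃ c : ℂ, U x = c • b) ∧
      ¬ ∃ c : ℂ, V x = c • b := by
  have hBA := HLine_symm hℓ hA hAB
  obtain ⟨g, hg⟩ := exists_dual hx ![1, -1]
  have hg0 : g (A x) = 1 := by simpa using hg 0
  have hg1 : g (B x) = -1 := by simpa using hg 1
  obtain ⟨U, hU, hUg⟩ := HLine_one hR hℓ x g
  have hUx := HLine_app hR hℓ hA hB hU hx
  have hAx : A x ≠ 0 := hx.ne_zero 0
  have hBx : B x ≠ 0 := hx.ne_zero 1
  have hli : ∀ s t : ℂ, s • A x + t • B x = 0 → s = 0 ∧ t = 0 :=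
    LinearIndependent.pair_iff.mp hx
  have key : ∀ (C : X →L[ℂ] X), C ∈ ℓ → g (C x) ≠ 0 → ¬ ∃ c : ℂ, U = c • C := by
    rintro C hC hCg ⟨c, hc⟩
    rw [hc] at hUg
    have h1 : c * g (C x) = 0 := by
      have h2 : g ((c • C) x) = c * g (C x) := by
        show g (c • C x) = _
        rw [map_smul, smul_eq_mul]
      rw [← h2]; exact hUg
    rcases mul_eq_zero.mp h1 with h2 | h2
    · rw [h2, zero_smul] at hc
      exact HLine_ne hℓ hU hc
    · exact hCg h2
  have key2 : ∀ (C : X →L[ℂ] X), C x ≠ 0 → g (C x) ≠ 0 → (∃ c : ℂ, C x = c • b) →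
      ¬ ∃ c : ℂ, U x = c • b := by
    rintro C hC0 hCg ⟨a, ha⟩ ⟨d, hd⟩
    have ha0 : a ≠ 0 := by
      rintro rfl
      rw [zero_smul] at ha
      exact hC0 ha
    have h1 : g b ≠ 0 := by
      intro h1
      apply hCg
      rw [ha, map_smul, h1, smul_zero]
    rw [hd, map_smul, smul_eq_mul] at hUg
    rcases mul_eq_zero.mp hUg with h2 | h2
    · rw [h2, zero_smul] at hd
      exact hUx hd
    · exact h1 h2
  by_cases h1 : ∃ c : ℂ, A x = c • b
  · have h2 : ¬ ∃ c : ℂ, B x = c • b := by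
      rintro ⟨d, hd⟩
      obtain ⟨a, ha⟩ := h1
      have ha0 : a ≠ 0 := by
        rintro rfl
        rw [zero_smul] at ha
        exact hAx ha
      have h3 := hli (-d) a (by rw [hd, ha, smul_smul, smul_smul, neg_mul, neg_smul, mul_comm]; abel)
      exact ha0 h3.2
    exact ⟨B, hB, U, hU, key B hB (by rw [hg1]; norm_num), h2,
      key2 A hAx (by rw [hg0]; exact one_ne_zero) h1⟩
  · by_cases h2 : ∃ c : ℂ, B x = c • b
    · exact ⟨A, hA, U, hU, key A hA (by rw [hg0]; exact one_ne_zero), h1,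
        key2 B hBx (by rw [hg1]; norm_num) h2⟩
    · exact ⟨A, hA, B, hB, hAB, h1, h2⟩

/-- if `A x`, `B x` are independent and `A z`, `B z` are dependent then `A z = B z = 0` -/
theorem HLine_zero {A B : X →L[ℂ] X} (hA : A ∈ ℓ) (hB : B ∈ ℓ) (hAB : ¬ ∃ c : ℂ, B = c • A)
    {x z : X} (hx : LinearIndependent ℂ ![A x, B x]) (hz : ¬ LinearIndependent ℂ ![A z, B z]) :
    A z = 0 ∧ B z = 0 := by
  classical
  by_contra hcon
  have hli : ∀ s t : ℂ, s • A x + t • B x = 0 → s = 0 ∧ t = 0 :=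
    LinearIndependent.pair_iff.mp hx
  -- the common line
  obtain ⟨w, hw, hAw, hBw⟩ : ∃ w : X, w ≠ 0 ∧ (∃ a : ℂ, A z = a • w) ∧ ∃ a : ℂ, B z = a • w := by
    by_cases h0 : A z = 0
    · have hB0 : B z ≠ 0 := fun h1 => hcon ⟨h0, h1⟩
      exact ⟨B z, hB0, ⟨0, by rw [h0, zero_smul]⟩, ⟨1, by rw [one_smul]⟩⟩
    · rw [LinearIndependent.pair_iff' h0] at hz
      push Not at hz
      obtain ⟨a, ha⟩ := hz
      exact ⟨A z, h0, ⟨1, by rw [one_smul]⟩, ⟨a, ha.symm⟩⟩
  have hz0 : z ≠ 0 := by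
    rintro rfl
    exact hcon ⟨map_zero A, map_zero B⟩
  have hw1 : ∀ g : X →L[ℂ] ℂ, g w = 0 → g (A z) = 0 ∧ g (B z) = 0 := by
    intro g hg
    obtain ⟨a, ha⟩ := hAw
    obtain ⟨b, hb⟩ := hBw
    exact ⟨by rw [ha, map_smul, hg, smul_zero], by rw [hb, map_smul, hg, smul_zero]⟩
  have hxz : ¬ ∃ c : ℂ, x = c • z := by
    rintro ⟨c, hc⟩
    obtain ⟨a, ha⟩ := hAw
    obtain ⟨b, hb⟩ := hBw
    have h1 : A x = (c * a) • w := by rw [hc, map_smul, ha, smul_smul]
    have h2 : B x = (c * b) • w := by rw [hc, map_smul, hb, smul_smul]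
    have h3 := hli (-(c * b)) (c * a) (by
      rw [h1, h2, smul_smul, smul_smul, neg_mul, neg_smul, mul_comm (c * a)]; abel)
    rw [h3.2, zero_smul] at h1
    exact hx.ne_zero 0 h1
  have key : ∀ U ∈ ℓ, (¬ ∃ c : ℂ, U x = c • w) → U z = 0 := by
    intro V hV hVw
    obtain ⟨a, ha⟩ : ∃ a, a = V x := ⟨_, rfl⟩
    rw [← ha] at hVw
    -- `w` is not a multiple of `a`
    have ha0 : a ≠ 0 := fun h0 => hVw ⟨0, by rw [h0, zero_smul]⟩
    have hwa : ¬ ∃ c : ℂ, w = c • a := by
      rintro ⟨c, hc⟩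
      have hc0 : c ≠ 0 := by
        rintro rfl
        rw [zero_smul] at hc
        exact hw hc
      exact hVw ⟨c⁻¹, by rw [hc, smul_smul, inv_mul_cancel₀ hc0, one_smul]⟩
    obtain ⟨v, hva, hv⟩ := HLine_other hx a
    -- one of `x`, `z` is not a multiple of `w`
    obtain ⟨y, hyw, hy⟩ : ∃ y : X, (¬ ∃ c : ℂ, y = c • w) ∧ (y = x ∨ y = z) := by
      by_cases h1 : ∃ c : ℂ, z = c • w
      · refine ⟨x, ?_, Or.inl rfl⟩
        rintro ⟨d, hd⟩
        obtain ⟨c, hc⟩ := h1
        have hc0 : c ≠ 0 := by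
          rintro rfl
          rw [zero_smul] at hc
          exact hz0 hc
        exact hxz ⟨d * c⁻¹, by rw [hc, smul_smul, mul_assoc, inv_mul_cancel₀ hc0, mul_one, hd]⟩
      · exact ⟨z, h1, Or.inr rfl⟩
    obtain ⟨g1, hg1w, hg1⟩ := exists_gen w {a, y} (by
      intro b hb
      rcases Finset.mem_insert.mp hb with h1 | h1
      · rw [h1]; exact hVw
      · rw [Finset.mem_singleton.mp h1]; exact hyw)
    have hg1a : g1 a ≠ 0 := hg1 a (Finset.mem_insert_self _ _)
    have hg1y : g1 y ≠ 0 := hg1 y (Finset.mem_insert_of_mem (Finset.mem_singleton_self _))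
    obtain ⟨u, hu⟩ : ∃ u, u = g1 z • x - g1 x • z := ⟨_, rfl⟩
    have hua : ¬ ∃ c : ℂ, u = c • a := by
      rintro ⟨c, hc⟩
      have h1 : g1 u = 0 := by
        rw [hu, map_sub, map_smul, map_smul, smul_eq_mul, smul_eq_mul]; ring
      rw [hc, map_smul, smul_eq_mul] at h1
      have hc0 := (mul_eq_zero.mp h1).resolve_right hg1a
      rw [hc0, zero_smul, hu, sub_eq_zero] at hc
      by_cases h2 : g1 z = 0
      · rw [h2, zero_smul] at hc
        have h3 : g1 x = 0 := (smul_eq_zero.mp hc.symm).resolve_right hz0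
        rcases hy with h4 | h4
        · exact hg1y (by rw [h4]; exact h3)
        · exact hg1y (by rw [h4]; exact h2)
      · apply hxz
        refine ⟨(g1 z)⁻¹ * g1 x, ?_⟩
        rw [mul_smul, ← hc, smul_smul, inv_mul_cancel₀ h2, one_smul]
    obtain ⟨g0, hg0a, hg0⟩ := exists_gen a {w, v, u} (by
      intro b hb
      rcases Finset.mem_insert.mp hb with h1 | h1
      · rw [h1]; exact hwa
      rcases Finset.mem_insert.mp h1 with h1 | h1
      · rw [h1]; exact hva
      · rw [Finset.mem_singleton.mp h1]; exact hua)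
    have hg0w : g0 w ≠ 0 := hg0 w (by simp)
    have hg0v : g0 v ≠ 0 := hg0 v (by simp)
    have hg0u : g0 u ≠ 0 := hg0 u (by simp)
    obtain ⟨U, hU, h1, h2⟩ := HLine_two hR hℓ (x := x) (x' := z) (g := g0) (g' := g1) (by
      intro h1
      apply hg0u
      rw [hu, map_sub, map_smul, map_smul, smul_eq_mul, smul_eq_mul]
      linear_combination h1)
    have hUz : g1 (U z) = 0 :=
      HLine_fun hR hℓ hA hB hAB hU z g1 (hw1 g1 hg1w).1 (hw1 g1 hg1w).2
    rw [hUz, add_zero] at h1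
    obtain ⟨c, hc0, hc⟩ := HLine_par hR hℓ hA hB hU hV (x := x) (g := g0) h1
      (by rw [← ha]; exact hg0a) (by
        rcases hv with h3 | h3
        · left; rw [← h3]; exact hg0v
        · right; rw [← h3]; exact hg0v)
    rw [h1, zero_mul, zero_sub, neg_eq_zero] at h2
    have h3 : g1 (U x) ≠ 0 := by
      have h4 : U x = c • a := by rw [hc, ha]; rfl
      rw [h4, map_smul, smul_eq_mul]
      exact mul_ne_zero hc0 hg1a
    have h4 : g0 (U z) = 0 := (mul_eq_zero.mp h2).resolve_right h3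
    -- `U z` is a multiple of `w`
    have h5 : U z = 0 := by
      by_contra h5
      by_cases h6 : ∃ d : ℂ, U z = d • w
      · obtain ⟨d, hd⟩ := h6
        rw [hd, map_smul, smul_eq_mul] at h4
        have hd0 := (mul_eq_zero.mp h4).resolve_right hg0w
        rw [hd0, zero_smul] at hd
        exact h5 hd
      · obtain ⟨g, hgw, hgU⟩ := (exists_sep' hw h6).1
        have h7 := HLine_fun hR hℓ hA hB hAB hU z g (hw1 g hgw).1 (hw1 g hgw).2
        rw [hgU] at h7
        exact one_ne_zero h7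
    have h6 : c • V z = 0 := by
      rw [hc] at h5
      exact h5
    exact (smul_eq_zero.mp h6).resolve_left hc0
  obtain ⟨U, hU, V, hV, hUV, hUw, hVw⟩ := HLine_good hR hℓ hA hB hAB hx w
  have hUz := key U hU hUw
  have hVz := key V hV hVw
  have hz' : ∀ C ∈ ℓ, C z = 0 := by
    intro C hC
    by_contra h1
    obtain ⟨g, hg⟩ := SeparatingDual.exists_eq_one (R := ℂ) h1
    have h2 := HLine_fun hR hℓ hU hV hUV hC z g (by rw [hUz, map_zero]) (by rw [hVz, map_zero])
    rw [hg] at h2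
    exact one_ne_zero h2
  exact hcon ⟨hz' A hA, hz' B hB⟩

/-- functionals vanishing on the plane of `x` -/
theorem HLine_trans {A B : X →L[ℂ] X} (hA : A ∈ ℓ) (hB : B ∈ ℓ) (hAB : ¬ ∃ c : ℂ, B = c • A)
    {x x' : X} (hx : LinearIndependent ℂ ![A x, B x]) {g' : X →L[ℂ] ℂ} (h1 : g' (A x) = 0)
    (h2 : g' (B x) = 0) (hu : g' x' • x - g' x • x' ≠ 0) : g' (A x') = 0 ∧ g' (B x') = 0 := by
  classical
  obtain ⟨u, hu'⟩ : ∃ u, u = g' x' • x - g' x • x' := ⟨_, rfl⟩
  rw [← hu'] at hu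
  have key : ∀ V ∈ ℓ, (¬ ∃ c : ℂ, V x = c • u) → g' (V x') = 0 := by
    intro V hV hVu
    obtain ⟨a, ha⟩ : ∃ a, a = V x := ⟨_, rfl⟩
    rw [← ha] at hVu
    have hua : ¬ ∃ c : ℂ, u = c • a := by
      rintro ⟨c, hc⟩
      have hc0 : c ≠ 0 := by
        rintro rfl
        rw [zero_smul] at hc
        exact hu hc
      exact hVu ⟨c⁻¹, by rw [hc, smul_smul, inv_mul_cancel₀ hc0, one_smul]⟩
    obtain ⟨v, hva, hv⟩ := HLine_other hx a
    obtain ⟨g, hga, hg⟩ := exists_gen a {v, u} (by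
      intro b hb
      rcases Finset.mem_insert.mp hb with h1 | h1
      · rw [h1]; exact hva
      · rw [Finset.mem_singleton.mp h1]; exact hua)
    have hgv : g v ≠ 0 := hg v (by simp)
    have hgu : g u ≠ 0 := hg u (by simp)
    obtain ⟨U, hU, h3, h4⟩ := HLine_two hR hℓ (x := x) (x' := x') (g := g) (g' := g') (by
      intro h1
      apply hgu
      rw [hu', map_sub, map_smul, map_smul, smul_eq_mul, smul_eq_mul]
      linear_combination h1)
    have hUx : g' (U x) = 0 := HLine_fun hR hℓ hA hB hAB hU x g' h1 h2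
    rw [hUx, mul_zero, sub_zero] at h4
    have h5 : g (U x) = 0 := by
      rcases mul_eq_zero.mp h4 with h6 | h6
      · exact h6
      · rw [h6, add_zero] at h3; exact h3
    rw [h5, zero_add] at h3
    obtain ⟨c, hc0, hc⟩ := HLine_par hR hℓ hA hB hU hV (x := x) (g := g) h5
      (by rw [← ha]; exact hga) (by
        rcases hv with h6 | h6
        · left; rw [← h6]; exact hgv
        · right; rw [← h6]; exact hgv)
    have h6 : c * g' (V x') = 0 := by
      have h7 : g' (U x') = c * g' (V x') := by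
        rw [hc]
        show g' (c • V x') = _
        rw [map_smul, smul_eq_mul]
      rw [← h7]; exact h3
    exact (mul_eq_zero.mp h6).resolve_left hc0
  obtain ⟨U, hU, V, hV, hUV, hUw, hVw⟩ := HLine_good hR hℓ hA hB hAB hx u
  have hUz := key U hU hUw
  have hVz := key V hV hVw
  exact ⟨HLine_fun hR hℓ hU hV hUV hA x' g' hUz hVz, HLine_fun hR hℓ hU hV hUV hB x' g' hUz hVz⟩

omit hℓ hR [CompleteSpace X] in
theorem HLine_mem {a b z : X} (h : ∀ g : X →L[ℂ] ℂ, g a = 0 → g b = 0 → g z = 0) :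
    z ∈ Submodule.span ℂ {a, b} := by
  by_contra hz
  obtain ⟨g, hg, hgz⟩ := exists_sep_sub (Submodule.fg_span (Set.toFinite {a, b})) hz
  have h1 := h g (hg a (Submodule.subset_span (by simp))) (hg b (Submodule.subset_span (by simp)))
  rw [hgz] at h1
  exact one_ne_zero h1

theorem HLine_le {A B : X →L[ℂ] X} (hA : A ∈ ℓ) (hB : B ∈ ℓ) (hAB : ¬ ∃ c : ℂ, B = c • A)
    {x x' : X} (hx : LinearIndependent ℂ ![A x, B x]) (hxx : LinearIndependent ℂ ![x, x'])
    (h : ¬ (x ∈ Submodule.span ℂ {A x, B x} ∧ x' ∈ Submodule.span ℂ {A x, B x})) :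
    Submodule.span ℂ {A x', B x'} ≤ Submodule.span ℂ {A x, B x} := by
  have hli := LinearIndependent.pair_iff.mp hxx
  have hu : ∀ g : X →L[ℂ] ℂ, (g x ≠ 0 ∨ g x' ≠ 0) → g x' • x - g x • x' ≠ 0 := by
    intro g hg h0
    have h1 := hli (g x') (-(g x)) (by rw [neg_smul, ← sub_eq_add_neg]; exact h0)
    rcases hg with h2 | h2
    · exact h2 (neg_eq_zero.mp h1.2)
    · exact h2 h1.1
  obtain ⟨g0, hg0A, hg0B, hg0⟩ : ∃ g0 : X →L[ℂ] ℂ, g0 (A x) = 0 ∧ g0 (B x) = 0 ∧
      (g0 x ≠ 0 ∨ g0 x' ≠ 0) := by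
    by_contra hcon
    push Not at hcon
    exact h ⟨HLine_mem fun g h1 h2 => (hcon g h1 h2).1, HLine_mem fun g h1 h2 => (hcon g h1 h2).2⟩
  have key : ∀ g : X →L[ℂ] ℂ, g (A x) = 0 → g (B x) = 0 → g (A x') = 0 ∧ g (B x') = 0 := by
    intro g h1 h2
    by_cases h3 : g x ≠ 0 ∨ g x' ≠ 0
    · exact HLine_trans hR hℓ hA hB hAB hx h1 h2 (hu g h3)
    · push Not at h3
      have e0 := HLine_trans hR hℓ hA hB hAB hx hg0A hg0B (hu g0 hg0)
      have e1 := HLine_trans hR hℓ hA hB hAB hx (g' := g + g0)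
        (by show g (A x) + g0 (A x) = 0; rw [h1, hg0A, add_zero])
        (by show g (B x) + g0 (B x) = 0; rw [h2, hg0B, add_zero])
        (hu (g + g0) (by
          show g x + g0 x ≠ 0 ∨ g x' + g0 x' ≠ 0
          rw [h3.1, h3.2, zero_add, zero_add]; exact hg0))
      have e2 : g (A x') + g0 (A x') = 0 := e1.1
      have e3 : g (B x') + g0 (B x') = 0 := e1.2
      rw [e0.1, add_zero] at e2
      rw [e0.2, add_zero] at e3
      exact ⟨e2, e3⟩
  rw [Submodule.span_le]
  rintro y hy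
  rcases hy with rfl | rfl
  · exact HLine_mem fun g h1 h2 => (key g h1 h2).1
  · exact HLine_mem fun g h1 h2 => (key g h1 h2).2

omit hℓ hR [CompleteSpace X] in
theorem HLine_eq {a b a' b' : X} (h : LinearIndependent ℂ ![a, b])
    (hle : Submodule.span ℂ {a, b} ≤ Submodule.span ℂ {a', b'}) :
    Submodule.span ℂ {a, b} = Submodule.span ℂ {a', b'} := by
  classical
  have h1 : Module.finrank ℂ (Submodule.span ℂ (Set.range ![a, b])) = 2 := by
    rw [finrank_span_eq_card h, Fintype.card_fin]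
  have hr : Set.range ![a, b] = {a, b} := by
    simp only [Matrix.range_cons, Matrix.range_empty, Set.union_empty, Set.singleton_union]
  rw [hr] at h1
  have h2 : Module.finrank ℂ (Submodule.span ℂ ({a', b'} : Set X)) ≤ 2 := by
    have h3 := finrank_span_finset_le_card (R := ℂ) ({a', b'} : Finset X)
    have h4 : (({a', b'} : Finset X) : Set X) = {a', b'} := by simp
    rw [h4] at h3
    exact h3.trans Finset.card_le_two
  have : FiniteDimensional ℂ (Submodule.span ℂ ({a', b'} : Set X)) :=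
    FiniteDimensional.span_of_finite ℂ (Set.toFinite _)
  exact Submodule.eq_of_le_of_finrank_le hle (by rw [h1]; exact h2)

theorem HLine_span {A B : X →L[ℂ] X} (hA : A ∈ ℓ) (hB : B ∈ ℓ) (hAB : ¬ ∃ c : ℂ, B = c • A)
    {x x' : X} (hx : LinearIndependent ℂ ![A x, B x])
    (hx' : LinearIndependent ℂ ![A x', B x']) :
    Submodule.span ℂ {A x', B x'} = Submodule.span ℂ {A x, B x} := by
  have hx0 : x ≠ 0 := by
    rintro rfl
    exact hx.ne_zero 0 (map_zero A)
  by_cases hxx : LinearIndependent ℂ ![x, x']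
  · by_cases h1 : x ∈ Submodule.span ℂ {A x, B x} ∧ x' ∈ Submodule.span ℂ {A x, B x}
    · by_cases h2 : x' ∈ Submodule.span ℂ {A x', B x'} ∧ x ∈ Submodule.span ℂ {A x', B x'}
      · have e1 : Submodule.span ℂ {x, x'} = Submodule.span ℂ {A x, B x} := by
          refine HLine_eq hxx ?_
          rw [Submodule.span_le]
          rintro y (rfl | rfl)
          · exact h1.1
          · exact h1.2
        have e2 : Submodule.span ℂ {x, x'} = Submodule.span ℂ {A x', B x'} := by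
          refine HLine_eq hxx ?_
          rw [Submodule.span_le]
          rintro y (rfl | rfl)
          · exact h2.2
          · exact h2.1
        rw [← e1, ← e2]
      · have hxx' : LinearIndependent ℂ ![x', x] := by
          rw [LinearIndependent.pair_iff] at hxx ⊢
          intro s t hst
          have := hxx t s (by rw [add_comm]; exact hst)
          exact ⟨this.2, this.1⟩
        exact (HLine_eq hx (HLine_le hR hℓ hA hB hAB hx' hxx' h2)).symm
    · exact HLine_eq hx' (HLine_le hR hℓ hA hB hAB hx hxx h1)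
  · rw [LinearIndependent.pair_iff' hx0] at hxx
    push Not at hxx
    obtain ⟨c, rfl⟩ := hxx
    refine HLine_eq hx' ?_
    rw [Submodule.span_le]
    rintro y (rfl | rfl)
    · rw [map_smul]
      exact Submodule.smul_mem _ _ (Submodule.subset_span (by simp))
    · rw [map_smul]
      exact Submodule.smul_mem _ _ (Submodule.subset_span (by simp))

theorem HLine_ker {A B : X →L[ℂ] X} (hA : A ∈ ℓ) (hB : B ∈ ℓ) (hAB : ¬ ∃ c : ℂ, B = c • A)
    {x : X} (hx : LinearIndependent ℂ ![A x, B x]) (z : X) :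
    ∃ t : ℂ, A z = t • A x ∧ B z = t • B x := by
  by_cases hz : LinearIndependent ℂ ![A z, B z]
  · have hs := HLine_span hR hℓ hA hB hAB hx hz
    have h1 : A z ∈ Submodule.span ℂ {A x, B x} := by
      rw [← hs]; exact Submodule.subset_span (by simp)
    have h2 : B z ∈ Submodule.span ℂ {A x, B x} := by
      rw [← hs]; exact Submodule.subset_span (by simp)
    obtain ⟨a, b, hab⟩ := Submodule.mem_span_pair.mp h1
    obtain ⟨c, d, hcd⟩ := Submodule.mem_span_pair.mp h2
    -- a root of the determinant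
    obtain ⟨r, hr⟩ := IsAlgClosed.exists_pow_nat_eq ((a - d) ^ 2 + 4 * (b * c)) (n := 2)
      (by norm_num)
    obtain ⟨t, ht⟩ : ∃ t : ℂ, t = (a + d + r) / 2 := ⟨_, rfl⟩
    have hroot : (a - t) * (d - t) - b * c = 0 := by
      rw [ht]
      linear_combination hr / 4
    have hA' : A (z - t • x) = (a - t) • A x + b • B x := by
      rw [map_sub, map_smul, ← hab, sub_smul]; abel
    have hB' : B (z - t • x) = c • A x + (d - t) • B x := by
      rw [map_sub, map_smul, ← hcd, sub_smul]; abel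
    have hdep : ¬ LinearIndependent ℂ ![A (z - t • x), B (z - t • x)] := by
      intro hli
      have hp := LinearIndependent.pair_iff.mp hli
      have e1 := hp (d - t) (-b) (by
        rw [hA', hB']
        have : (d - t) • ((a - t) • A x + b • B x) + -b • (c • A x + (d - t) • B x) =
            ((a - t) * (d - t) - b * c) • A x := by module
        rw [this, hroot, zero_smul])
      have e2 := hp (-c) (a - t) (by
        rw [hA', hB']
        have : -c • ((a - t) • A x + b • B x) + (a - t) • (c • A x + (d - t) • B x) =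
            ((a - t) * (d - t) - b * c) • B x := by module
        rw [this, hroot, zero_smul])
      have h3 : A (z - t • x) = 0 := by
        rw [hA', e2.2, zero_smul, zero_add, neg_eq_zero.mp e1.2, zero_smul]
      exact hli.ne_zero 0 h3
    obtain ⟨h3, h4⟩ := HLine_zero hR hℓ hA hB hAB hx hdep
    refine ⟨t, ?_, ?_⟩
    · rw [map_sub, map_smul, sub_eq_zero] at h3; exact h3
    · rw [map_sub, map_smul, sub_eq_zero] at h4; exact h4
  · obtain ⟨h3, h4⟩ := HLine_zero hR hℓ hA hB hAB hx hz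
    exact ⟨0, by rw [h3, zero_smul], by rw [h4, zero_smul]⟩

end Fix

theorem hline_adj [CompleteSpace X] {k : ℕ} (hR : Rich X k) {ℓ : Set (X →L[ℂ] X)}
    (hℓ : HLine k ℓ) {A B : X →L[ℂ] X} (hA : A ∈ ℓ) (hB : B ∈ ℓ) (hAB : ¬ ∃ c : ℂ, B = c • A) :
    Adj A B := by
  by_cases h : ∃ x, LinearIndependent ℂ ![A x, B x]
  · obtain ⟨x, hx⟩ := h
    obtain ⟨η, hη⟩ := SeparatingDual.exists_eq_one (R := ℂ) (hx.ne_zero 0)
    have hη' : η (A x) = 1 := hη
    right
    refine ⟨A x, B x, η.comp A, ?_, ?_⟩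
    · ext z
      obtain ⟨t, h1, h2⟩ := HLine_ker hR hℓ hA hB hAB hx z
      show A z = η (A z) • A x
      rw [h1, map_smul, hη', smul_eq_mul, mul_one]
    · ext z
      obtain ⟨t, h1, h2⟩ := HLine_ker hR hℓ hA hB hAB hx z
      show B z = η (A z) • B x
      rw [h1, h2, map_smul, hη', smul_eq_mul, mul_one]
  · push Not at h
    exact Or.inl (adj_of_local (HLine_ne hℓ hA) hAB h)

end Pool.Agent.H.MP_bb4c62_an.QP
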