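import Pool.Agent.H.MP_bb4c62_an.QP.PData

/-!
# Module QP/Ext: the other operators, continuity

`ext_op`: for every `e` there is `c` with `T' (S e) = c • S (T e)`. Let `y = T' (S e)`; we may assume `e ≠ 0`.
(A) `e` is not a multiple of `T e`. Claim: `P (T e) e' = 0` implies `Q e' y = 0`. If `P e e' ≠ 0` by `h`; otherwise
choose `e1'` with `P (T e) e1' = 0`, `P e e1' = 1` (`sep` with `T e`, `T e`, `e`, and scaling), use `h` for `e1'` and
`e1' + e'`, and `Q (e1' + e') = Q e1' + Q e'` (compare values in all `S x`, `pair`). Then `y` is a multiple of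
`S (T e)`: otherwise there is `g` with `g (S (T e)) = 0`, `g y = 1` (if `S (T e) ≠ 0`: `exists_sep'`), `g = Q e'`.
(B) `e = c • T e`: if `y` is not a multiple of `S e` then there is `g = Q e'` with `g y = 0`, `g (S e) = 1`
(`exists_sep'`), so `P e e' ≠ 0`, so `P (T e) e' = 0` by `h`, `P e e' = c * 0`, a contradiction. So `y` is a multiple
of `S e = τ c • S (T e)`.
Then `mul_of_local` for `T` and the linear map `S⁻¹ T' S`. If `c = 0` then `T' = 0`, so `P (T e) e' = 0` for all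
`e`, `e'` with `P e e' ≠ 0`; as in (A) this gives `T = 0`, and then `c = 1` works.

`adm1`, `adm2`: see `forward3` in helper6/NForward: if `X` is not finite-dimensional, `exists_biorthogonal`,
`tau_cont (tau_continuous ..)` and `continuous_of_duals` (here all functionals on `Y` are of the form `Q d`).
-/

namespace Pool.Agent.H.MP_bb4c62_an.QP

open Pool.Agent.H.MP_bb4c62_an.helper6.NL
open Pool.Agent.H.MP_bb4c62_an.helper6.Perturb
open Pool.Agent.H.MP_bb4c62_an.helper6.Gadgets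

variable {Y : Type*} [NormedAddCommGroup Y] [NormedSpace ℂ Y]
variable {E E' : Type*} [AddCommGroup E] [Module ℂ E] [AddCommGroup E'] [Module ℂ E']
variable {P : E →ₗ[ℂ] E' →ₗ[ℂ] ℂ} {p : E → Y} {q : E' → (Y →L[ℂ] ℂ)}

theorem Ext_add {τ : ℂ ≃+* ℂ} {S : E ≃+ Y} {Q : E' → (Y →L[ℂ] ℂ)}
    (hS : PStd P p q τ S Q) (a b : E') (y : Y) : Q (a + b) y = Q a y + Q b y := by
  obtain ⟨x, rfl⟩ := S.surjective y
  rw [hS.pair, hS.pair, hS.pair, map_add, map_add]

theorem Ext_sep0 (D : PData P p q) {e : E} (he : ∀ e', P e e' = 0) : e = 0 := by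
  have h := D.sep 0 0 e (fun e' _ _ => he e')
  rw [Set.pair_eq_singleton, Submodule.mem_span_singleton] at h
  obtain ⟨c, hc⟩ := h
  rw [← hc, smul_zero]

theorem Ext_sep1 (D : PData P p q) {x e : E} (he : ¬ ∃ c : ℂ, e = c • x) :
    ∃ e', P x e' = 0 ∧ P e e' ≠ 0 := by
  by_contra hcon
  push Not at hcon
  have h := D.sep x x e (fun e' h1 _ => hcon e' h1)
  rw [Set.pair_eq_singleton, Submodule.mem_span_singleton] at h
  obtain ⟨c, hc⟩ := h
  exact he ⟨c, hc.symm⟩

theorem Ext_dual {a y : Y} (h : ¬ ∃ c : ℂ, y = c • a) :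
    ∃ g : Y →L[ℂ] ℂ, g a = 0 ∧ g y = 1 := by
  have hy : y ∉ Submodule.span ℂ {a} := by
    rw [Submodule.mem_span_singleton]
    rintro ⟨c, hc⟩
    exact h ⟨c, hc.symm⟩
  obtain ⟨g, h1, h2⟩ := exists_sep_sub (Submodule.fg_span_singleton a) hy
  exact ⟨g, h1 a (Submodule.mem_span_singleton_self a), h2⟩

theorem Ext_loc (D : PData P p q) {τ : ℂ ≃+* ℂ} {S : E ≃+ Y} {Q : E' → (Y →L[ℂ] ℂ)}
    (hS : PStd P p q τ S Q) (T : E →ₗ[ℂ] E) (T' : Y →L[ℂ] Y)
    (h : ∀ e e', P e e' ≠ 0 → (P (T e) e' = 0 ↔ Q e' (T' (S e)) = 0)) (e : E) :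
    ∃ d : ℂ, T' (S e) = d • S (T e) := by
  by_cases he : ∃ c : ℂ, e = c • T e
  · obtain ⟨c, hc⟩ := he
    by_cases he0 : e = 0
    · exact ⟨0, by rw [he0, map_zero, map_zero, zero_smul]⟩
    have hSe : S e ≠ 0 := by
      intro h0
      apply he0
      apply S.injective
      rw [h0, map_zero]
    have h1 : ∃ d : ℂ, T' (S e) = d • S e := by
      by_contra hcon
      have h2 : ¬ ∃ d : ℂ, S e = d • T' (S e) := by
        rintro ⟨d, hd⟩
        have hd0 : d ≠ 0 := by
          intro h0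
          rw [h0, zero_smul] at hd
          exact hSe hd
        apply hcon
        refine ⟨d⁻¹, ?_⟩
        conv_rhs => rw [hd]
        rw [smul_smul, inv_mul_cancel₀ hd0, one_smul]
      obtain ⟨g, hg1, hg2⟩ := Ext_dual h2
      obtain ⟨e', rfl⟩ := hS.surj g
      rw [hS.pair] at hg2
      have h3 : P e e' ≠ 0 := by
        intro h0
        rw [h0, map_zero] at hg2
        exact zero_ne_one hg2
      have h4 := (h e e' h3).2 hg1
      apply h3
      rw [hc, map_smul, LinearMap.smul_apply, h4, smul_zero]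
    obtain ⟨d, hd⟩ := h1
    refine ⟨d * τ c, ?_⟩
    rw [hd, mul_smul, ← hS.semi, ← hc]
  · obtain ⟨e1, h1, h2⟩ := Ext_sep1 D he
    have key : ∀ e', P (T e) e' = 0 → Q e' (T' (S e)) = 0 := by
      intro e' he'
      by_cases h3 : P e e' = 0
      · have h4 : P e (e1 + e') ≠ 0 := by
          rw [map_add, h3, add_zero]
          exact h2
        have h5 : P (T e) (e1 + e') = 0 := by
          rw [map_add, h1, he', add_zero]
        have h6 := (h e _ h4).1 h5
        rw [Ext_add hS, (h e _ h2).1 h1, zero_add] at h6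
        exact h6
      · exact (h e e' h3).1 he'
    by_contra hcon
    obtain ⟨g, hg1, hg2⟩ := Ext_dual hcon
    obtain ⟨e', rfl⟩ := hS.surj g
    rw [hS.pair] at hg1
    have h5 : P (T e) e' = 0 := τ.injective (by rw [hg1, map_zero])
    rw [key e' h5] at hg2
    exact zero_ne_one hg2

theorem ext_op (D : PData P p q) {τ : ℂ ≃+* ℂ} {S : E ≃+ Y} {Q : E' → (Y →L[ℂ] ℂ)}
    (hS : PStd P p q τ S Q) (T : E →ₗ[ℂ] E) (T' : Y →L[ℂ] Y)
    (h : ∀ e e', P e e' ≠ 0 → (P (T e) e' = 0 ↔ Q e' (T' (S e)) = 0)) :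
    ∃ c : ℂ, c ≠ 0 ∧ ∀ e, T' (S e) = c • S (T e) := by
  have hloc := Ext_loc D hS T T' h
  let B : E →ₗ[ℂ] E :=
    { toFun := fun e => S.symm (T' (S e))
      map_add' := fun a b => by rw [map_add, map_add, map_add]
      map_smul' := fun c e => by
        apply S.injective
        rw [RingHom.id_apply, S.apply_symm_apply, hS.semi c e, hS.semi c (S.symm (T' (S e))),
          S.apply_symm_apply, map_smul] }
  have hB : ∀ e, S (B e) = T' (S e) := fun e => S.apply_symm_apply _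
  obtain ⟨c, hc⟩ := mul_of_local T B (fun e => by
    obtain ⟨d, hd⟩ := hloc e
    refine ⟨τ.symm d, ?_⟩
    apply S.injective
    rw [hB, hd, hS.semi, τ.apply_symm_apply])
  have hc' : ∀ e, T' (S e) = τ c • S (T e) := by
    intro e
    rw [← hB, hc e, hS.semi]
  by_cases hc0 : c = 0
  · refine ⟨1, one_ne_zero, fun e => ?_⟩
    have hT0 : ∀ e, T' (S e) = 0 := by
      intro e
      rw [hc', hc0, map_zero, zero_smul]
    have hT : T e = 0 := by
      by_cases he : e = 0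
      · rw [he, map_zero]
      · obtain ⟨e1, he1⟩ : ∃ e1, P e e1 ≠ 0 := by
          by_contra hcon
          push Not at hcon
          exact he (Ext_sep0 D hcon)
        have h1 : ∀ e', P e e' ≠ 0 → P (T e) e' = 0 := fun e' he' =>
          (h e e' he').2 (by rw [hT0, map_zero])
        apply Ext_sep0 D
        intro e'
        by_cases h3 : P e e' = 0
        · have h4 : P e (e1 + e') ≠ 0 := by
            rw [map_add, h3, add_zero]
            exact he1
          have h5 := h1 _ h4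
          rw [map_add, h1 e1 he1, zero_add] at h5
          exact h5
        · exact h1 e' h3
    rw [hT0, hT, map_zero, smul_zero]
  · refine ⟨τ c, fun h0 => hc0 (τ.injective (by rw [h0, map_zero])), hc'⟩

variable {X : Type*} [NormedAddCommGroup X] [NormedSpace ℂ X]

/-- the pairing `(x, f) ↦ f x` -/
noncomputable def ev (X : Type*) [NormedAddCommGroup X] [NormedSpace ℂ X] :
    X →ₗ[ℂ] (X →L[ℂ] ℂ) →ₗ[ℂ] ℂ :=
  LinearMap.flip (ContinuousLinearMap.coeLM ℂ)

theorem ev_apply (x : X) (f : X →L[ℂ] ℂ) : ev X x f = f x := rfl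

theorem adm1 [CompleteSpace X] [CompleteSpace Y] {p : X → Y}
    {q : (X →L[ℂ] ℂ) → (Y →L[ℂ] ℂ)} {τ : ℂ ≃+* ℂ} {S : X ≃+ Y}
    {Q : (X →L[ℂ] ℂ) → (Y →L[ℂ] ℂ)} (hS : PStd (ev X) p q τ S Q) : Adm τ S := by
  refine ⟨hS.semi, fun hX => ?_⟩
  obtain ⟨xs, fs, hxf⟩ := exists_biorthogonal hX
  obtain ⟨hτc, hτ⟩ := tau_cont (tau_continuous (E := X) (D := X →L[ℂ] ℂ)
    (ContinuousLinearMap.id ℂ (X →L[ℂ] ℂ)) xs fs hxf τ S (fun d => ⟨Q d, fun u => hS.pair u d⟩))
  obtain ⟨hc1, hc2⟩ := continuous_of_duals S τ hτc hS.semi (fun g => by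
    obtain ⟨f, rfl⟩ := hS.surj g
    have h1 : (fun x => Q f (S x)) = fun x => τ (f x) := funext fun x => hS.pair x f
    rw [h1]
    exact hτc.comp f.continuous)
  exact ⟨hτ, hc1, hc2⟩

theorem adm2 [CompleteSpace X] [CompleteSpace Y] {p : (X →L[ℂ] ℂ) → Y}
    {q : X → (Y →L[ℂ] ℂ)} {τ : ℂ ≃+* ℂ} {S : (X →L[ℂ] ℂ) ≃+ Y}
    {Q : X → (Y →L[ℂ] ℂ)} (hS : PStd (ev X).flip p q τ S Q) : Adm τ S := by
  refine ⟨hS.semi, fun hX' => ?_⟩
  have hX : ¬ Module.Finite ℂ X := by
    intro hf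
    exact hX' inferInstance
  obtain ⟨xs, fs, hxf⟩ := exists_biorthogonal hX
  obtain ⟨hτc, hτ⟩ := tau_cont (tau_continuous (E := X →L[ℂ] ℂ) (D := X)
    (ContinuousLinearMap.id ℂ (X →L[ℂ] ℂ)).flip fs xs (fun m n => by
      have h1 := hxf n m
      show fs n (xs m) = _
      rw [h1]
      simp only [eq_comm]) τ S (fun d => ⟨Q d, fun u => hS.pair u d⟩))
  obtain ⟨hc1, hc2⟩ := continuous_of_duals S τ hτc hS.semi (fun g => by
    obtain ⟨x, rfl⟩ := hS.surj g
    have h1 : (fun f : X →L[ℂ] ℂ => Q x (S f)) = fun f => τ (f x) :=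
      funext fun f => hS.pair f x
    rw [h1]
    exact hτc.comp (ContinuousLinearMap.apply ℂ ℂ x).continuous)
  exact ⟨hτ, hc1, hc2⟩

end Pool.Agent.H.MP_bb4c62_an.QP
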