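import Pool.Agent.H.MP_bb4c62_an.QP.PData

/-!
# Module QP/Dim2: the semilinear map in dimension two

`E` has the basis `v 0`, `v 1`. `hT`: every linear map `T` of `E` has a partner `T'` on `Y` such that `T' (p e)` and
`p (T e)` are multiples of each other (`e ≠ 0`, `T e ≠ 0`).

Let `e0 = v 0`, `e1 = v 1`. `p` is injective on lines (`sep`, `inc`) and surjective on lines (`psurj`). `p e0`, `p e1` are
independent; they span `Y`: `p (e0 + e1) = α p e0 + β p e1` with `α`, `β ≠ 0` has to be shown first: every `p e` is in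
the span of `p e0`, `p e1` (otherwise a functional `g = d • q e'` vanishes on `p e0`, `p e1` and not on `p e`, but
`P e0 e' = P e1 e' = 0` gives `P e e' = 0`); `psurj` gives that they span `Y`. Let `y0 = α • p e0`, `y1 = β • p e1`. For
every `a` there is a unique `σ a` with `p (e0 + a • e1)` a nonzero multiple of `y0 + σ a • y1`; `σ` is a bijection,
`σ 0 = 0`, `σ 1 = 1`.
* Additive: `T e0 = e0 + a • e1`, `T e1 = e1`, `a ≠ 0`. `T' y1 = μ • y1`, `T' y0 = ν • (y0 + σ a • y1)`, `μ`, `ν ≠ 0`. If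
  `μ ≠ ν` then `y0 + s • y1`, `s = ν σ a / (ν - μ)`, is an eigenvector of `T'`; `s = σ b`, so `e0 + b • e1` is mapped to
  a multiple of itself by `T`, a contradiction. So `μ = ν`, and `T' (y0 + σ b • y1) = μ • (y0 + (σ a + σ b) • y1)` is a
  multiple of `p (e0 + (a + b) • e1)`.
* Multiplicative: `T e0 = e0`, `T e1 = a • e1`, `a ≠ 0`: `T' y0 = ν • y0`, `T' y1 = μ • y1`, `μ = ν σ a` from
  `e0 + e1`, and then `σ (a b) = σ a σ b` from `e0 + b • e1`.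
So `σ` is a field automorphism, `S (α • e0 + β • e1) = σ α • y0 + σ β • y1`.
-/

namespace Pool.Agent.H.MP_bb4c62_an.QP

open Pool.Agent.H.MP_bb4c62_an.helper6.NL
open Pool.Agent.H.MP_bb4c62_an.helper6.Perturb
open Pool.Agent.H.MP_bb4c62_an.helper6.Gadgets

variable {Y : Type*} [NormedAddCommGroup Y] [NormedSpace ℂ Y]
variable {E E' : Type*} [AddCommGroup E] [Module ℂ E] [AddCommGroup E'] [Module ℂ E']
variable {P : E →ₗ[ℂ] E' →ₗ[ℂ] ℂ} {p : E → Y} {q : E' → (Y →L[ℂ] ℂ)}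

/-- a nonzero functional on `Y` is described by an element of `E'` -/
private theorem Dim2_fun (D : PData P p q) {η : Y →L[ℂ] ℂ} (hη : η ≠ 0) :
    ∃ e', ∀ x, x ≠ 0 → (P x e' = 0 ↔ η (p x) = 0) := by
  obtain ⟨e', he', d, hd⟩ := D.qsurj η hη
  have hd0 : d ≠ 0 := by
    rintro rfl
    apply hη
    rw [hd]
    ext y
    exact zero_mul _
  refine ⟨e', fun x hx => ?_⟩
  rw [D.inc x e' hx he', hd]
  show q e' (p x) = 0 ↔ d * q e' (p x) = 0
  constructor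
  · intro h
    rw [h, mul_zero]
  · intro h
    exact (mul_eq_zero.mp h).resolve_left hd0

/-- `p` is injective on lines -/
private theorem Dim2_inj (D : PData P p q) {x x' : E} (hx : x ≠ 0) (hx' : x' ≠ 0) {d : ℂ}
    (h : p x' = d • p x) : ∃ c : ℂ, x' = c • x := by
  have h1 : x' ∈ Submodule.span ℂ {x, x} := by
    refine D.sep x x x' fun e' h2 _ => ?_
    by_cases he' : e' = 0
    · rw [he', map_zero]
    · rw [D.inc x' e' hx' he', h, map_smul, (D.inc x e' hx he').mp h2, smul_zero]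
  obtain ⟨a, b, hab⟩ := Submodule.mem_span_pair.mp h1
  exact ⟨a + b, by rw [← hab, add_smul]⟩

/-- `p` is well defined on lines -/
private theorem Dim2_proj (D : PData P p q) {x : E} (hx : x ≠ 0) {c : ℂ} (hc : c ≠ 0) :
    ∃ d : ℂ, d ≠ 0 ∧ p (c • x) = d • p x := by
  have hcx : c • x ≠ 0 := smul_ne_zero hc hx
  by_cases h : ∃ d : ℂ, p (c • x) = d • p x
  · obtain ⟨d, hd⟩ := h
    refine ⟨d, ?_, hd⟩
    rintro rfl
    exact D.p0 _ hcx (by rw [hd, zero_smul])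
  · exfalso
    obtain ⟨η, h0, h1⟩ := (exists_sep' (D.p0 x hx) h).1
    have hη : η ≠ 0 := by
      rintro rfl
      exact zero_ne_one h1
    obtain ⟨e', he'⟩ := Dim2_fun D hη
    have h2 := (he' x hx).mpr h0
    have h3 : P (c • x) e' = 0 := by
      rw [map_smul, LinearMap.smul_apply, h2, smul_zero]
    rw [(he' _ hcx).mp h3] at h1
    exact zero_ne_one h1

/-- `p (v 0)` and `p (v 1)` span `Y` -/
private theorem Dim2_span (D : PData P p q) (v : Module.Basis (Fin 2) ℂ E) (y : Y) :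
    ∃ a b : ℂ, y = a • p (v 0) + b • p (v 1) := by
  by_cases hy : y = 0
  · exact ⟨0, 0, by rw [hy, zero_smul, zero_smul, add_zero]⟩
  obtain ⟨e, he, d, hd⟩ := D.psurj y hy
  have h1 : p e ∈ Submodule.span ℂ {p (v 0), p (v 1)} := by
    by_contra hcon
    obtain ⟨k, hk, hk1⟩ := exists_sep_sub (Submodule.fg_span (Set.toFinite _)) hcon
    have hk0 : k ≠ 0 := by
      rintro rfl
      exact zero_ne_one hk1
    obtain ⟨e', he'⟩ := Dim2_fun D hk0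
    have h0 := (he' (v 0) (v.ne_zero 0)).mpr
      (hk _ (Submodule.subset_span (Set.mem_insert _ _)))
    have h1 := (he' (v 1) (v.ne_zero 1)).mpr
      (hk _ (Submodule.subset_span (Set.mem_insert_of_mem _ (Set.mem_singleton _))))
    have h2 : P e e' = 0 := by
      rw [← v.sum_repr e, Fin.sum_univ_two, map_add, map_smul, map_smul, LinearMap.add_apply,
        LinearMap.smul_apply, LinearMap.smul_apply, h0, h1, smul_zero, smul_zero, add_zero]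
    rw [(he' e he).mp h2] at hk1
    exact zero_ne_one hk1
  obtain ⟨a, b, hab⟩ := Submodule.mem_span_pair.mp h1
  exact ⟨d * a, d * b, by rw [hd, ← hab, smul_add, smul_smul, smul_smul]⟩

private theorem Dim2_li (v : Module.Basis (Fin 2) ℂ E) {a b : ℂ}
    (h : a • v 0 + b • v 1 = 0) : a = 0 ∧ b = 0 := by
  have h1 := Fintype.linearIndependent_iff.mp v.linearIndependent ![a, b] (by
    rw [Fin.sum_univ_two]
    exact h)
  exact ⟨h1 0, h1 1⟩

/-- `v 0 + a • v 1` is not a multiple of `v 1` -/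
private theorem Dim2_ne0 (v : Module.Basis (Fin 2) ℂ E) (a : ℂ) : v 0 + a • v 1 ≠ 0 := by
  intro h
  have h1 : (1 : ℂ) • v 0 + a • v 1 = 0 := by rw [one_smul, h]
  exact one_ne_zero (Dim2_li v h1).1

private theorem Dim2_ne1 (v : Module.Basis (Fin 2) ℂ E) (a c : ℂ) :
    v 0 + a • v 1 ≠ c • v 1 := by
  intro h
  have h1 : (1 : ℂ) • v 0 + (a - c) • v 1 = 0 := by
    rw [one_smul, sub_smul, ← add_sub_assoc, h, sub_self]
  exact one_ne_zero (Dim2_li v h1).1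

private theorem Dim2_pli (D : PData P p q) (v : Module.Basis (Fin 2) ℂ E) {a b : ℂ}
    (h : a • p (v 0) + b • p (v 1) = 0) : a = 0 ∧ b = 0 := by
  have hb : b = 0 := by
    by_contra hb
    have h1 : p (v 1) = (-(b⁻¹ * a)) • p (v 0) := by
      have h2 : b • p (v 1) = -(a • p (v 0)) := eq_neg_of_add_eq_zero_right h
      rw [neg_smul, mul_smul, ← smul_neg, ← h2, smul_smul, inv_mul_cancel₀ hb, one_smul]
    obtain ⟨c, hc⟩ := Dim2_inj D (v.ne_zero 0) (v.ne_zero 1) h1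
    have h3 := (Dim2_li v (a := c) (b := -1)
      (by rw [← hc, neg_smul, one_smul, add_neg_cancel])).2
    exact one_ne_zero (neg_eq_zero.mp h3)
  rw [hb, zero_smul, add_zero] at h
  exact ⟨(smul_eq_zero.mp h).resolve_right (D.p0 _ (v.ne_zero 0)), hb⟩

private structure Dim2_Data (p : E → Y) (v : Module.Basis (Fin 2) ℂ E) (y0 y1 : Y)
    (σ : ℂ → ℂ) : Prop where
  uq : ∀ a b a' b' : ℂ, a • y0 + b • y1 = a' • y0 + b' • y1 → a = a' ∧ b = b'
  sp : ∀ y, ∃ a b : ℂ, y = a • y0 + b • y1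
  ps : ∀ a : ℂ, ∃ γ : ℂ, γ ≠ 0 ∧ p (v 0 + a • v 1) = γ • (y0 + σ a • y1)
  p1 : ∃ γ : ℂ, γ ≠ 0 ∧ p (v 1) = γ • y1
  z : σ 0 = 0
  o : σ 1 = 1

private theorem Dim2_exists (D : PData P p q) (v : Module.Basis (Fin 2) ℂ E) :
    ∃ (y0 y1 : Y) (σ : ℂ → ℂ), Dim2_Data p v y0 y1 σ := by
  obtain ⟨α, β, hαβ⟩ := Dim2_span D v (p (v 0 + v 1))
  have hv : v 0 + v 1 ≠ 0 := by
    have h1 := Dim2_ne0 v 1
    rwa [one_smul] at h1
  have hα : α ≠ 0 := by
    rintro rfl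
    rw [zero_smul, zero_add] at hαβ
    obtain ⟨c, hc⟩ := Dim2_inj D (v.ne_zero 1) hv hαβ
    apply Dim2_ne1 v 1 c
    rw [one_smul, hc]
  have hβ : β ≠ 0 := by
    rintro rfl
    rw [zero_smul, add_zero] at hαβ
    obtain ⟨c, hc⟩ := Dim2_inj D (v.ne_zero 0) hv hαβ
    have h1 : (1 - c) • v 0 + (1 : ℂ) • v 1 = 0 := by
      rw [one_smul, sub_smul, one_smul, sub_add_eq_add_sub, hc, sub_self]
    exact one_ne_zero (Dim2_li v h1).2
  obtain ⟨y0, hy0⟩ : ∃ y0, y0 = α • p (v 0) := ⟨_, rfl⟩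
  obtain ⟨y1, hy1⟩ : ∃ y1, y1 = β • p (v 1) := ⟨_, rfl⟩
  have e0 : p (v 0) = α⁻¹ • y0 := by rw [hy0, smul_smul, inv_mul_cancel₀ hα, one_smul]
  have e1 : p (v 1) = β⁻¹ • y1 := by rw [hy1, smul_smul, inv_mul_cancel₀ hβ, one_smul]
  have uq : ∀ a b a' b' : ℂ, a • y0 + b • y1 = a' • y0 + b' • y1 → a = a' ∧ b = b' := by
    intro a b a' b' h
    have h1 : ((a - a') * α) • p (v 0) + ((b - b') * β) • p (v 1) = 0 := by
      rw [mul_smul, mul_smul, ← hy0, ← hy1, sub_smul, sub_smul]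
      have h2 : a • y0 - a' • y0 + (b • y1 - b' • y1) =
          (a • y0 + b • y1) - (a' • y0 + b' • y1) := by abel
      rw [h2, h, sub_self]
    obtain ⟨h2, h3⟩ := Dim2_pli D v h1
    exact ⟨sub_eq_zero.mp ((mul_eq_zero.mp h2).resolve_right hα),
      sub_eq_zero.mp ((mul_eq_zero.mp h3).resolve_right hβ)⟩
  have sp : ∀ y, ∃ a b : ℂ, y = a • y0 + b • y1 := by
    intro y
    obtain ⟨a, b, hab⟩ := Dim2_span D v y
    exact ⟨a * α⁻¹, b * β⁻¹, by rw [hab, e0, e1, smul_smul, smul_smul]⟩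
  have ps : ∀ a : ℂ, ∃ s γ : ℂ, γ ≠ 0 ∧ p (v 0 + a • v 1) = γ • (y0 + s • y1) := by
    intro a
    obtain ⟨γ, δ, hγ⟩ := sp (p (v 0 + a • v 1))
    have hγ0 : γ ≠ 0 := by
      rintro rfl
      rw [zero_smul, zero_add, hy1, smul_smul] at hγ
      obtain ⟨c, hc⟩ := Dim2_inj D (v.ne_zero 1) (Dim2_ne0 v a) hγ
      exact Dim2_ne1 v a c hc
    refine ⟨γ⁻¹ * δ, γ, hγ0, ?_⟩
    rw [hγ, smul_add, smul_smul, ← mul_assoc, mul_inv_cancel₀ hγ0, one_mul]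
  choose σ hσ using ps
  refine ⟨y0, y1, σ, uq, sp, hσ, ⟨β⁻¹, inv_ne_zero hβ, e1⟩, ?_, ?_⟩
  · obtain ⟨γ, hγ, h⟩ := hσ 0
    rw [zero_smul, add_zero, e0, smul_add, smul_smul] at h
    have h1 := (uq α⁻¹ 0 γ (γ * σ 0) (by rw [zero_smul, add_zero, h])).2
    exact (mul_eq_zero.mp h1.symm).resolve_left hγ
  · obtain ⟨γ, hγ, h⟩ := hσ 1
    rw [one_smul, hαβ, ← hy0, ← hy1, smul_add, smul_smul] at h
    obtain ⟨h1, h2⟩ := uq 1 1 γ (γ * σ 1) (by rw [one_smul, one_smul, h])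
    rw [← h1, one_mul] at h2
    exact h2.symm

/-- the value of `p` in coordinates -/
private theorem Dim2_form (D : PData P p q) (v : Module.Basis (Fin 2) ℂ E) {y0 y1 : Y}
    {σ : ℂ → ℂ} (C : Dim2_Data p v y0 y1 σ) {x : E} (hx : x ≠ 0) :
    (v.repr x 0 ≠ 0 ∧ ∃ γ : ℂ, γ ≠ 0 ∧
      p x = γ • (y0 + σ ((v.repr x 0)⁻¹ * v.repr x 1) • y1)) ∨
    (v.repr x 0 = 0 ∧ v.repr x 1 ≠ 0 ∧ ∃ γ : ℂ, γ ≠ 0 ∧ p x = γ • y1) := by
  have hx1 : v.repr x 0 • v 0 + v.repr x 1 • v 1 = x := by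
    have := v.sum_repr x
    rwa [Fin.sum_univ_two] at this
  by_cases h0 : v.repr x 0 = 0
  · right
    rw [h0, zero_smul, zero_add] at hx1
    have h1 : v.repr x 1 ≠ 0 := by
      intro h
      rw [h, zero_smul] at hx1
      exact hx hx1.symm
    obtain ⟨γ, hγ, hp⟩ := C.p1
    obtain ⟨d, hd, hp'⟩ := Dim2_proj D (v.ne_zero 1) h1
    refine ⟨h0, h1, d * γ, mul_ne_zero hd hγ, ?_⟩
    rw [hx1] at hp'
    rw [hp', hp, smul_smul]
  · left
    obtain ⟨γ, hγ, hp⟩ := C.ps ((v.repr x 0)⁻¹ * v.repr x 1)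
    obtain ⟨d, hd, hp'⟩ := Dim2_proj D (Dim2_ne0 v ((v.repr x 0)⁻¹ * v.repr x 1)) h0
    refine ⟨h0, d * γ, mul_ne_zero hd hγ, ?_⟩
    rw [smul_add, smul_smul, mul_inv_cancel_left₀ h0, hx1] at hp'
    rw [hp', hp, smul_smul]

private theorem Dim2_sinj (D : PData P p q) (v : Module.Basis (Fin 2) ℂ E) {y0 y1 : Y}
    {σ : ℂ → ℂ} (C : Dim2_Data p v y0 y1 σ) : Function.Injective σ := by
  intro a b hab
  obtain ⟨γ, hγ, h⟩ := C.ps a
  obtain ⟨δ, hδ, h'⟩ := C.ps b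
  have h1 : p (v 0 + b • v 1) = (δ * γ⁻¹) • p (v 0 + a • v 1) := by
    rw [h', h, hab, smul_smul, mul_assoc, inv_mul_cancel₀ hγ, mul_one]
  obtain ⟨c, hc⟩ := Dim2_inj D (Dim2_ne0 v a) (Dim2_ne0 v b) h1
  have h2 : (1 - c) • v 0 + (b - c * a) • v 1 = 0 := by
    rw [sub_smul, sub_smul, mul_smul, one_smul]
    have h3 : v 0 - c • v 0 + (b • v 1 - c • a • v 1) =
        (v 0 + b • v 1) - c • (v 0 + a • v 1) := by
      rw [smul_add]
      abel
    rw [h3, hc, sub_self]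
  obtain ⟨h3, h4⟩ := Dim2_li v h2
  have h5 : c = 1 := (sub_eq_zero.mp h3).symm
  rw [h5, one_mul] at h4
  exact (sub_eq_zero.mp h4).symm

private theorem Dim2_ssurj (D : PData P p q) (v : Module.Basis (Fin 2) ℂ E) {y0 y1 : Y}
    {σ : ℂ → ℂ} (C : Dim2_Data p v y0 y1 σ) : Function.Surjective σ := by
  intro s
  have hy : y0 + s • y1 ≠ 0 := by
    intro h
    have := (C.uq 1 s 0 0 (by rw [one_smul, h, zero_smul, zero_smul, add_zero])).1
    exact one_ne_zero this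
  obtain ⟨e, he, d, hd⟩ := D.psurj _ hy
  rcases Dim2_form D v C he with ⟨_, γ, hγ, hp⟩ | ⟨_, _, γ, hγ, hp⟩
  · refine ⟨(v.repr e 0)⁻¹ * v.repr e 1, ?_⟩
    rw [hp, smul_smul, smul_add, smul_smul] at hd
    obtain ⟨h1, h2⟩ := C.uq 1 s (d * γ) (d * γ * σ ((v.repr e 0)⁻¹ * v.repr e 1))
      (by rw [one_smul]; exact hd)
    rw [← h1, one_mul] at h2
    exact h2.symm
  · exfalso
    rw [hp, smul_smul] at hd
    have := (C.uq 1 s 0 (d * γ) (by rw [one_smul, zero_smul, zero_add]; exact hd)).1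
    exact one_ne_zero this

/-- the basic identity -/
private theorem Dim2_aff (D : PData P p q) (v : Module.Basis (Fin 2) ℂ E)
    (hT : ∀ T : E →ₗ[ℂ] E, ∃ T' : Y →L[ℂ] Y, ∀ e, e ≠ 0 → T e ≠ 0 →
      ∃ d : ℂ, d ≠ 0 ∧ T' (p e) = d • p (T e)) {y0 y1 : Y}
    {σ : ℂ → ℂ} (C : Dim2_Data p v y0 y1 σ) (a c : ℂ) (hc : c ≠ 0) :
    ∃ ν μ : ℂ, ν ≠ 0 ∧ ∀ b, ν * σ (a + c * b) = ν * σ a + μ * σ b := by
  obtain ⟨T, hT0, hT1⟩ : ∃ T : E →ₗ[ℂ] E, T (v 0) = v 0 + a • v 1 ∧ T (v 1) = c • v 1 := by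
    refine ⟨v.constr ℂ ![v 0 + a • v 1, c • v 1], ?_, ?_⟩
    · rw [Module.Basis.constr_basis]
      rfl
    · rw [Module.Basis.constr_basis]
      rfl
  obtain ⟨T', hT'⟩ := hT T
  obtain ⟨μ, hμ⟩ : ∃ μ : ℂ, T' y1 = μ • y1 := by
    obtain ⟨γ, hγ, hp⟩ := C.p1
    obtain ⟨d, hd, h1⟩ := hT' (v 1) (v.ne_zero 1) (by
      rw [hT1]
      exact smul_ne_zero hc (v.ne_zero 1))
    obtain ⟨d', hd', h2⟩ := Dim2_proj D (v.ne_zero 1) hc
    rw [hT1, h2, hp, map_smul, smul_smul, smul_smul] at h1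
    refine ⟨γ⁻¹ * (d * d' * γ), ?_⟩
    rw [mul_smul, ← h1, smul_smul, inv_mul_cancel₀ hγ, one_smul]
  have key : ∀ b, ∃ δ : ℂ, δ ≠ 0 ∧
      T' (y0 + σ b • y1) = δ • (y0 + σ (a + c * b) • y1) := by
    intro b
    have h0 : T (v 0 + b • v 1) = v 0 + (a + c * b) • v 1 := by
      rw [map_add, map_smul, hT0, hT1, add_smul, smul_smul, mul_comm b c, add_assoc]
    obtain ⟨γ, hγ, hp⟩ := C.ps b
    obtain ⟨γ', hγ', hp'⟩ := C.ps (a + c * b)
    obtain ⟨d, hd, h1⟩ := hT' (v 0 + b • v 1) (Dim2_ne0 v b) (by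
      rw [h0]
      exact Dim2_ne0 v _)
    rw [h0, hp, hp', map_smul, smul_smul] at h1
    refine ⟨γ⁻¹ * (d * γ'), mul_ne_zero (inv_ne_zero hγ) (mul_ne_zero hd hγ'), ?_⟩
    rw [mul_smul, ← h1, smul_smul, inv_mul_cancel₀ hγ, one_smul]
  obtain ⟨ν, hν, h0⟩ := key 0
  rw [C.z, zero_smul, add_zero, mul_zero, add_zero] at h0
  refine ⟨ν, μ, hν, fun b => ?_⟩
  obtain ⟨δ, hδ, h1⟩ := key b
  rw [map_add, map_smul, h0, hμ, smul_add, smul_add, smul_smul, smul_smul, smul_smul,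
    add_assoc, ← add_smul] at h1
  obtain ⟨h2, h3⟩ := C.uq _ _ _ _ h1
  rw [← h2] at h3
  rw [← h3, mul_comm μ]

private theorem Dim2_add (D : PData P p q) (v : Module.Basis (Fin 2) ℂ E)
    (hT : ∀ T : E →ₗ[ℂ] E, ∃ T' : Y →L[ℂ] Y, ∀ e, e ≠ 0 → T e ≠ 0 →
      ∃ d : ℂ, d ≠ 0 ∧ T' (p e) = d • p (T e)) {y0 y1 : Y}
    {σ : ℂ → ℂ} (C : Dim2_Data p v y0 y1 σ) (a b : ℂ) : σ (a + b) = σ a + σ b := by
  by_cases ha : a = 0
  · rw [ha, C.z, zero_add, zero_add]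
  obtain ⟨ν, μ, hν, h⟩ := Dim2_aff D v hT C a 1 one_ne_zero
  have hμ : ν = μ := by
    by_contra hne
    have hne' : ν - μ ≠ 0 := sub_ne_zero.mpr hne
    obtain ⟨b, hb⟩ := Dim2_ssurj D v C ((ν - μ)⁻¹ * (ν * σ a))
    have h1 := h b
    rw [one_mul] at h1
    have h2 : (ν - μ) * σ b = ν * σ a := by
      rw [hb, mul_inv_cancel_left₀ hne']
    have h3 : ν * σ (a + b) = ν * σ b := by
      rw [h1, ← h2]
      ring
    have h4 := Dim2_sinj D v C (mul_left_cancel₀ hν h3)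
    exact ha (add_eq_right.mp h4)
  have h1 := h b
  rw [one_mul, ← hμ, ← mul_add] at h1
  exact mul_left_cancel₀ hν h1

private theorem Dim2_mul (D : PData P p q) (v : Module.Basis (Fin 2) ℂ E)
    (hT : ∀ T : E →ₗ[ℂ] E, ∃ T' : Y →L[ℂ] Y, ∀ e, e ≠ 0 → T e ≠ 0 →
      ∃ d : ℂ, d ≠ 0 ∧ T' (p e) = d • p (T e)) {y0 y1 : Y}
    {σ : ℂ → ℂ} (C : Dim2_Data p v y0 y1 σ) (a b : ℂ) : σ (a * b) = σ a * σ b := by
  by_cases ha : a = 0
  · rw [ha, zero_mul, C.z, zero_mul]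
  obtain ⟨ν, μ, hν, h⟩ := Dim2_aff D v hT C 0 a ha
  have h1 := h 1
  have h2 := h b
  rw [C.z, mul_zero, zero_add, zero_add, mul_one, C.o, mul_one] at h1
  rw [C.z, mul_zero, zero_add, zero_add, ← h1, mul_assoc] at h2
  exact mul_left_cancel₀ hν h2

theorem PData.two (D : PData P p q) (v : Module.Basis (Fin 2) ℂ E)
    (hT : ∀ T : E →ₗ[ℂ] E, ∃ T' : Y →L[ℂ] Y, ∀ e, e ≠ 0 → T e ≠ 0 →
      ∃ d : ℂ, d ≠ 0 ∧ T' (p e) = d • p (T e)) :
    ∃ (τ : ℂ ≃+* ℂ) (S : E ≃+ Y), (∀ (c : ℂ) x, S (c • x) = τ c • S x) ∧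
      ∀ x, x ≠ 0 → ∃ d : ℂ, d ≠ 0 ∧ S x = d • p x := by
  obtain ⟨y0, y1, σ, C⟩ := Dim2_exists D v
  obtain ⟨f, hf⟩ : ∃ f : ℂ →+* ℂ, ∀ a, f a = σ a :=
    ⟨{ toFun := σ
       map_one' := C.o
       map_mul' := Dim2_mul D v hT C
       map_zero' := C.z
       map_add' := Dim2_add D v hT C }, fun _ => rfl⟩
  obtain ⟨τ, hτ⟩ : ∃ τ : ℂ ≃+* ℂ, ∀ a, τ a = σ a := by
    refine ⟨RingEquiv.ofBijective f ⟨?_, ?_⟩, fun a => hf a⟩
    · intro a b hab
      rw [hf, hf] at hab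
      exact Dim2_sinj D v C hab
    · intro s
      obtain ⟨a, ha⟩ := Dim2_ssurj D v C s
      exact ⟨a, by rw [hf, ha]⟩
  obtain ⟨S, hS⟩ : ∃ S : E →+ Y, ∀ x, S x = τ (v.repr x 0) • y0 + τ (v.repr x 1) • y1 := by
    refine ⟨AddMonoidHom.mk' (fun x => τ (v.repr x 0) • y0 + τ (v.repr x 1) • y1) ?_,
      fun _ => rfl⟩
    intro x x'
    show τ (v.repr (x + x') 0) • y0 + τ (v.repr (x + x') 1) • y1 =
      τ (v.repr x 0) • y0 + τ (v.repr x 1) • y1 + (τ (v.repr x' 0) • y0 + τ (v.repr x' 1) • y1)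
    rw [map_add, Finsupp.add_apply, Finsupp.add_apply, map_add τ, map_add τ, add_smul, add_smul]
    abel
  have hbij : Function.Bijective S := by
    constructor
    · rw [injective_iff_map_eq_zero]
      intro x hx
      rw [hS] at hx
      obtain ⟨h0, h1⟩ := C.uq _ _ 0 0 (by rw [hx, zero_smul, zero_smul, add_zero])
      rw [map_eq_zero_iff τ τ.injective] at h0 h1
      rw [← v.sum_repr x, Fin.sum_univ_two, h0, h1, zero_smul, zero_smul, add_zero]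
    · intro y
      obtain ⟨a, b, hab⟩ := C.sp y
      refine ⟨τ.symm a • v 0 + τ.symm b • v 1, ?_⟩
      have h0 : v.repr (τ.symm a • v 0 + τ.symm b • v 1) 0 = τ.symm a := by
        simp [Module.Basis.repr_self]
      have h1 : v.repr (τ.symm a • v 0 + τ.symm b • v 1) 1 = τ.symm b := by
        simp [Module.Basis.repr_self]
      rw [hS, h0, h1, τ.apply_symm_apply, τ.apply_symm_apply, hab]
  refine ⟨τ, AddEquiv.ofBijective S hbij, ?_, ?_⟩
  · intro c x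
    show S (c • x) = τ c • S x
    rw [hS, hS, map_smul, Finsupp.smul_apply, Finsupp.smul_apply, smul_eq_mul, smul_eq_mul,
      map_mul, map_mul, mul_smul, mul_smul, smul_add]
  · intro x hx
    show ∃ d : ℂ, d ≠ 0 ∧ S x = d • p x
    rw [hS]
    rcases Dim2_form D v C hx with ⟨h0, γ, hγ, hp⟩ | ⟨h0, h1, γ, hγ, hp⟩
    · refine ⟨τ (v.repr x 0) * γ⁻¹, mul_ne_zero ?_ (inv_ne_zero hγ), ?_⟩
      · exact (map_ne_zero_iff τ τ.injective).mpr h0
      · rw [hp, smul_smul, mul_assoc, inv_mul_cancel₀ hγ, mul_one, smul_add, smul_smul, ← hτ,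
          ← map_mul, mul_inv_cancel_left₀ h0]
    · refine ⟨τ (v.repr x 1) * γ⁻¹, mul_ne_zero ?_ (inv_ne_zero hγ), ?_⟩
      · exact (map_ne_zero_iff τ τ.injective).mpr h1
      · rw [hp, smul_smul, mul_assoc, inv_mul_cancel₀ hγ, mul_one, h0, map_zero, zero_smul,
          zero_add]

end Pool.Agent.H.MP_bb4c62_an.QP
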