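import Pool.Agent.H.MP_bb4c62_an.QP.Basic

/-!
# Module QP/Rich: powers

* `rich_one`: clear (`pow_one`); `self`: `ten x f * ten x f = f x • ten x f`; `ten`: `T * ten x f = ten (T x) f`
  (`mul_ten`), `qn_ten_iff`.
* `rich_two`, `one`: if `g x ≠ 0` take `c • ten x g` with `c ^ 2 * g x = 1`. If `g x = 0`, `x ≠ 0`, `g ≠ 0`: there is
  `z` with `g z = 0` which is not a multiple of `x` (dimension `≥ 3`), and `h` with `h x = 0`, `h z = 1`
  (`exists_sep'`); take `ten x h + ten z g`.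
* `two`: `m = [[g x, g x'], [g' x, g' x']]`, `D = det m ≠ 0`, `e ^ 2 = D`; one of `tr m + 2 e`, `tr m - 2 e`
  is not `0` (else `tr m = 0`, `e = 0`), choose the sign of `e` so that `q ^ 2 = tr m + 2 e ≠ 0`. The matrix
  `p = (adj m + e) / (q e)`, `adj m = [[g' x', -g x'], [-g' x, g x]]`, satisfies `p m p = 1`, and
  `S = p 0 0 • ten x g + p 0 1 • ten x g' + p 1 0 • ten x' g + p 1 1 • ten x' g'` has `S ^ 2` equal to
  `ten x g + ten x' g'`.
* `self`, `ten`: `(ten x f) ^ 2 = f x • ten x f`, `qn_smul_iff`.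
-/

namespace Pool.Agent.H.MP_bb4c62_an.QP

open Pool.Agent.H.MP_bb4c62_an.helper6.NL
open Pool.Agent.H.MP_bb4c62_an.helper6.Perturb
open Pool.Agent.H.MP_bb4c62_an.helper6.Gadgets

variable {X : Type*} [NormedAddCommGroup X] [NormedSpace ℂ X]

theorem Rich_smul_iff {T : X →L[ℂ] X} {c : ℂ} (hc : c ≠ 0) : QN (c • T) ↔ QN T :=
  qn_smul_iff hc

theorem Rich_sq (x : X) (f : X →L[ℂ] ℂ) : ten x f ^ 2 = f x • ten x f := by
  rw [pow_two, mul_ten, ten_apply, ten_smul_left]

/-- there is a vector in the kernel of `g` which is not a multiple of `x` -/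
theorem Rich_exists_ker {v : Fin 3 → X} (hv : LinearIndependent ℂ v) (x : X)
    {g : X →L[ℂ] ℂ} (hg : g ≠ 0) : ∃ z, g z = 0 ∧ ¬ ∃ c : ℂ, z = c • x := by
  classical
  by_contra hcon
  push Not at hcon
  obtain ⟨p, hp⟩ := exists_ap hg
  have hs : Submodule.span ℂ (({x, p} : Finset X) : Set X) = ⊤ := by
    rw [eq_top_iff]
    intro y _
    obtain ⟨c, hc⟩ := hcon (y - g y • p) (by
      rw [map_sub, map_smul, hp, smul_eq_mul, mul_one, sub_self])
    have h1 : y = c • x + g y • p := by rw [← hc, sub_add_cancel]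
    rw [h1]
    refine Submodule.add_mem _ (Submodule.smul_mem _ _ (Submodule.subset_span ?_))
      (Submodule.smul_mem _ _ (Submodule.subset_span ?_))
    · simp
    · simp
  have h2 := linearIndependent_le_span_finset v hv {x, p} hs
  rw [Cardinal.mk_fin] at h2
  have h3 : 3 ≤ ({x, p} : Finset X).card := by exact_mod_cast h2
  have h4 : ({x, p} : Finset X).card ≤ 2 := Finset.card_le_two
  omega

theorem Rich_one_two {v : Fin 3 → X} (hv : LinearIndependent ℂ v) (x : X) (g : X →L[ℂ] ℂ) :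
    ∃ S : X →L[ℂ] X, S ^ 2 = ten x g := by
  by_cases hgx : g x = 0
  · by_cases hx : x = 0
    · refine ⟨0, ?_⟩
      rw [ten_eq_zero_iff.mpr (Or.inl hx)]
      exact zero_pow two_ne_zero
    by_cases hg : g = 0
    · refine ⟨0, ?_⟩
      rw [ten_eq_zero_iff.mpr (Or.inr hg)]
      exact zero_pow two_ne_zero
    obtain ⟨z, hz, hzx⟩ := Rich_exists_ker hv x hg
    obtain ⟨h, hhx, hhz⟩ := (exists_sep' hx hzx).1
    refine ⟨ten x h + ten z g, ?_⟩
    ext y
    rw [pow_two]
    show (h (h y • x + g y • z)) • x + (g (h y • x + g y • z)) • z = g y • x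
    rw [map_add, map_smul, map_smul, map_add, map_smul, map_smul, hhx, hhz, hgx, hz]
    simp
  · obtain ⟨c, hc⟩ := IsAlgClosed.exists_pow_nat_eq ((g x)⁻¹) (n := 2) (by norm_num)
    refine ⟨c • ten x g, ?_⟩
    rw [smul_pow, Rich_sq, hc, smul_smul, inv_mul_cancel₀ hgx, one_smul]

theorem Rich_exists_root {a b c d : ℂ} (h : a * d - b * c ≠ 0) :
    ∃ e k : ℂ, e ^ 2 = a * d - b * c ∧ k ^ 2 * (e ^ 2 * (a + d + 2 * e)) = 1 := by
  obtain ⟨e, he, h1⟩ : ∃ e : ℂ, e ^ 2 = a * d - b * c ∧ a + d + 2 * e ≠ 0 := by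
    obtain ⟨e, he⟩ := IsAlgClosed.exists_pow_nat_eq (a * d - b * c) (n := 2) (by norm_num)
    by_cases h1 : a + d + 2 * e = 0
    · refine ⟨-e, by rw [neg_sq, he], ?_⟩
      intro h2
      have h3 : e = 0 := by linear_combination (h1 - h2) / 4
      apply h
      rw [← he, h3]
      ring
    · exact ⟨e, he, h1⟩
  have h2 : e ^ 2 * (a + d + 2 * e) ≠ 0 := mul_ne_zero (by rw [he]; exact h) h1
  obtain ⟨k, hk⟩ := IsAlgClosed.exists_pow_nat_eq ((e ^ 2 * (a + d + 2 * e))⁻¹) (n := 2)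
    (by norm_num)
  exact ⟨e, k, he, by rw [hk, inv_mul_cancel₀ h2]⟩

theorem Rich_two_two (x x' : X) (g g' : X →L[ℂ] ℂ) (h : g x * g' x' - g x' * g' x ≠ 0) :
    ∃ S : X →L[ℂ] X, S ^ 2 = ten x g + ten x' g' := by
  obtain ⟨e, k, he, hK⟩ := Rich_exists_root h
  refine ⟨ten (k • ((g' x' + e) • x + (-g' x) • x')) g +
    ten (k • ((-g x') • x + (g x + e) • x')) g', ?_⟩
  ext y
  have hS : ∀ w : X, (ten (k • ((g' x' + e) • x + (-g' x) • x')) g +
      ten (k • ((-g x') • x + (g x + e) • x')) g') w =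
      (k * ((g' x' + e) * g w - g x' * g' w)) • x +
        (k * (-g' x * g w + (g x + e) * g' w)) • x' := by
    intro w
    show g w • (k • ((g' x' + e) • x + (-g' x) • x')) +
      g' w • (k • ((-g x') • x + (g x + e) • x')) = _
    module
  rw [pow_two]
  show (ten (k • ((g' x' + e) • x + (-g' x) • x')) g +
      ten (k • ((-g x') • x + (g x + e) • x')) g')
        ((ten (k • ((g' x' + e) • x + (-g' x) • x')) g +
      ten (k • ((-g x') • x + (g x + e) • x')) g') y) = g y • x + g' y • x'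
  rw [hS y, hS]
  simp only [map_add, map_smul, smul_eq_mul]
  congr 1
  · congr 1
    linear_combination (g y) * hK + (k ^ 2 * g' y * g x' - k ^ 2 * g y * (g' x' + 2 * e)) * he
  · congr 1
    linear_combination (g' y) * hK + (k ^ 2 * g y * g' x - k ^ 2 * g' y * (g x + 2 * e)) * he

theorem rich_one [CompleteSpace X] : Rich X 1 := by
  refine ⟨?_, ?_, ?_, ?_⟩
  · intro x g
    exact ⟨ten x g, pow_one _⟩
  · intro x x' g g' _
    exact ⟨ten x g + ten x' g', pow_one _⟩
  · intro x f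
    rw [Prp, pow_one, mul_ten, ten_apply, qn_ten_iff, map_smul, smul_eq_mul, mul_self_eq_zero]
  · intro T x f _
    rw [Prp, pow_one, mul_ten, qn_ten_iff]

theorem rich_two [CompleteSpace X] (h3 : ∃ v : Fin 3 → X, LinearIndependent ℂ v) :
    Rich X 2 := by
  obtain ⟨v, hv⟩ := h3
  refine ⟨Rich_one_two hv, Rich_two_two, ?_, ?_⟩
  · intro x f
    by_cases h : f x = 0
    · refine iff_of_true ?_ h
      rw [Prp, Rich_sq, h, zero_smul, mul_zero]
      exact qn_zero
    · rw [Prp, Rich_sq, mul_smul_comm, Rich_smul_iff h, mul_ten, ten_apply, qn_ten_iff, map_smul,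
        smul_eq_mul, mul_self_eq_zero]
  · intro T x f hf
    rw [Prp, Rich_sq, mul_smul_comm, Rich_smul_iff hf, mul_ten, qn_ten_iff]

end Pool.Agent.H.MP_bb4c62_an.QP
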