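import Pool.Agent.H.MP_bb4c62_an.QP.Types
import Pool.Agent.H.MP_bb4c62_an.QP.Ext
import Pool.Agent.H.MP_bb4c62_an.QP.Dim2
import Pool.Agent.H.MP_bb4c62_an.QP.Small
import Pool.Agent.H.MP_bb4c62_an.QP.Rich

/-!
# Module QP/Main: the description
-/

namespace Pool.Agent.H.MP_bb4c62_an.QP

open Pool.Agent.H.MP_bb4c62_an.helper6.NL
open Pool.Agent.H.MP_bb4c62_an.helper6.Perturb
open Pool.Agent.H.MP_bb4c62_an.helper6.Gadgets

variable {X : Type*} [NormedAddCommGroup X] [NormedSpace ℂ X]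
variable {Y : Type*} [NormedAddCommGroup Y] [NormedSpace ℂ Y]

/-- `φ T = c T • S T S⁻¹` or `φ T = c T • S T* S⁻¹` -/
def Form (φ : (X →L[ℂ] X) → (Y →L[ℂ] Y)) : Prop :=
  ∃ c : (X →L[ℂ] X) → ℂ, (∀ T, c T ≠ 0) ∧
    ((∃ (τ : ℂ ≃+* ℂ) (S : X ≃+ Y), Adm τ S ∧ ∀ T x, φ T (S x) = c T • S (T x)) ∨
      (∃ (τ : ℂ ≃+* ℂ) (S : (X →L[ℂ] ℂ) ≃+ Y), Adm τ S ∧
        ∀ (T : X →L[ℂ] X) (f : X →L[ℂ] ℂ), φ T (S f) = c T • S (f.comp T)))

theorem Main_prp [CompleteSpace X] {k : ℕ} {T S : X →L[ℂ] X} {a b : ℂ} (ha : a ≠ 0)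
    (hb : b ≠ 0) : Prp k (a • T) (b • S) ↔ Prp k T S := by
  unfold Prp
  rw [smul_pow, smul_mul_smul_comm]
  exact qn_smul_iff (mul_ne_zero ha (pow_ne_zero k hb))

theorem Main_ten_inj {y y' : Y} {g g' : Y →L[ℂ] ℂ} {d : ℂ} (hg : g ≠ 0)
    (h : ten y g = d • ten y' g') : ∃ c : ℂ, y = c • y' := by
  obtain ⟨u, hu⟩ := exists_ap hg
  have h1 : ten y g u = (d • ten y' g') u := by rw [h]
  have h2 : g u • y = d • g' u • y' := h1
  rw [hu, one_smul, smul_smul] at h2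
  exact ⟨_, h2⟩

theorem Main_ten_inj' {y y' : Y} {g g' : Y →L[ℂ] ℂ} {d : ℂ} (hy : y ≠ 0)
    (h : ten y g = d • ten y' g') : ∃ c : ℂ, g = c • g' := by
  obtain ⟨η, hη⟩ := SeparatingDual.exists_eq_one (R := ℂ) hy
  refine ⟨d * η y', ?_⟩
  ext u
  have h1 : η (ten y g u) = η ((d • ten y' g') u) := by rw [h]
  have h2 : η (g u • y) = η (d • g' u • y') := h1
  rw [map_smul, hη, map_smul, map_smul, smul_eq_mul, mul_one, smul_eq_mul, smul_eq_mul] at h2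
  show g u = (d * η y') * g' u
  rw [h2]; ring

/-- the projective data attached to `φ`, for the two types at once -/
theorem Main_data [CompleteSpace X] [CompleteSpace Y] {k : ℕ} (hX : Rich X k)
    (hY : Rich Y k) {φ : (X →L[ℂ] X) → (Y →L[ℂ] Y)} (h : Pres k φ)
    {E E' : Type*} [AddCommGroup E] [Module ℂ E] [AddCommGroup E'] [Module ℂ E']
    (P : E →ₗ[ℂ] E' →ₗ[ℂ] ℂ) (R : E → E' → (X →L[ℂ] X))
    (hself : ∀ e e', Prp k (R e e') (R e e') ↔ P e e' = 0)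
    (hrank : ∀ (x : X) (f : X →L[ℂ] ℂ), x ≠ 0 → f ≠ 0 → ∃ e e', e ≠ 0 ∧ e' ≠ 0 ∧ ten x f = R e e')
    (e0 e1 : E) (e0' e1' : E') (h0 : e0 ≠ 0) (h1 : e1 ≠ 0) (h0' : e0' ≠ 0) (h1' : e1' ≠ 0)
    (hR : ¬ ∃ c : ℂ, R e1 e0' = c • R e0 e0') (hR' : ¬ ∃ c : ℂ, R e0 e1' = c • R e0 e0')
    {p : E → Y} {q : E' → (Y →L[ℂ] ℂ)} (hp : ∀ e, e ≠ 0 → p e ≠ 0) (hq : ∀ e, e ≠ 0 → q e ≠ 0)
    (hpq : ∀ e e', e ≠ 0 → e' ≠ 0 → ∃ d : ℂ, d ≠ 0 ∧ φ (R e e') = d • ten (p e) (q e'))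
    (sep : ∀ x x' z : E, (∀ e', P x e' = 0 → P x' e' = 0 → P z e' = 0) →
      z ∈ Submodule.span ℂ {x, x'}) : PData P p q := by
  have hpp : ¬ ∃ c : ℂ, p e1 = c • p e0 := by
    rintro ⟨c, hc⟩
    apply hR
    rw [← h.par_iff hX hY]
    obtain ⟨d, hd, hd'⟩ := hpq e1 e0' h1 h0'
    obtain ⟨b, hb, hb'⟩ := hpq e0 e0' h0 h0'
    refine ⟨d * c * b⁻¹, ?_⟩
    rw [hd', hb', hc, ten_smul_left, smul_smul, smul_smul, mul_assoc _ b⁻¹,
      inv_mul_cancel₀ hb, mul_one]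
  have hqq : ¬ ∃ c : ℂ, q e1' = c • q e0' := by
    rintro ⟨c, hc⟩
    apply hR'
    rw [← h.par_iff hX hY]
    obtain ⟨d, hd, hd'⟩ := hpq e0 e1' h0 h1'
    obtain ⟨b, hb, hb'⟩ := hpq e0 e0' h0 h0'
    refine ⟨d * c * b⁻¹, ?_⟩
    rw [hd', hb', hc, ten_smul_right, smul_smul, smul_smul, mul_assoc _ b⁻¹,
      inv_mul_cancel₀ hb, mul_one]
  -- operators of rank one are images of operators of rank one
  have key : ∀ (y : Y) (g : Y →L[ℂ] ℂ) (B' : Y →L[ℂ] Y), y ≠ 0 → g ≠ 0 → B' ≠ 0 →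
      (¬ ∃ c : ℂ, B' = c • ten y g) → Adj (ten y g) B' →
      ∃ e e', e ≠ 0 ∧ e' ≠ 0 ∧ ∃ d : ℂ, d ≠ 0 ∧ ten y g = d • ten (p e) (q e') := by
    intro y g B' hy hg hB' hpar hadj
    obtain ⟨A, hA⟩ := h.surj (ten y g)
    obtain ⟨B, rfl⟩ := h.surj B'
    have hA0 : A ≠ 0 := by
      intro h2
      have h3 := (h.zero_iff hX hY A).mpr h2
      rw [hA, ten_eq_zero_iff] at h3
      exact h3.elim hy hg
    have hB0 : B ≠ 0 := fun h2 => hB' ((h.zero_iff hX hY B).mpr h2)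
    rw [← hA] at hpar hadj
    have hadj' := (h.adj hX hY hA0 hB0
      (fun h2 => hpar ((h.par_iff hX hY A B).mpr h2))).mp hadj
    obtain ⟨x, f, hxf⟩ : ∃ (x : X) (f : X →L[ℂ] ℂ), A = ten x f := by
      rcases hadj' with ⟨w, f, g, h2, -⟩ | ⟨w, z, f, h2, -⟩
      · exact ⟨w, f, h2⟩
      · exact ⟨w, f, h2⟩
    have hx : x ≠ 0 ∧ f ≠ 0 := by
      rw [hxf, Ne, ten_eq_zero_iff, not_or] at hA0
      exact hA0
    obtain ⟨e, e', he, he', h2⟩ := hrank x f hx.1 hx.2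
    obtain ⟨d, hd, hd'⟩ := hpq e e' he he'
    exact ⟨e, e', he, he', d, hd, by rw [← hA, hxf, h2, hd']⟩
  refine ⟨hp, hq, ?_, ?_, ?_, sep⟩
  · intro e e' he he'
    obtain ⟨d, hd, hd'⟩ := hpq e e' he he'
    rw [← hself e e', ← h.iff, hd', Main_prp hd hd, hY.self]
  · intro y hy
    obtain ⟨e, e', he, he', d, hd, h2⟩ := key y (q e0') (ten y (q e1')) hy (hq _ h0')
      (by rw [Ne, ten_eq_zero_iff]; exact fun h2 => h2.elim hy (hq _ h1')) (by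
        rintro ⟨c, hc⟩
        exact hqq (Main_ten_inj' hy hc))
      (Or.inl ⟨y, q e0', q e1', rfl, rfl⟩)
    obtain ⟨c, hc⟩ := Main_ten_inj (hq _ h0') h2
    exact ⟨e, he, c, hc⟩
  · intro g hg
    obtain ⟨e, e', he, he', d, hd, h2⟩ := key (p e0) g (ten (p e1) g) (hp _ h0) hg
      (by rw [Ne, ten_eq_zero_iff]; exact fun h2 => h2.elim (hp _ h1) hg) (by
        rintro ⟨c, hc⟩
        exact hpp (Main_ten_inj hg hc))
      (Or.inr ⟨p e0, p e1, g, rfl, rfl⟩)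
    obtain ⟨c, hc⟩ := Main_ten_inj' (hp _ h0) h2
    exact ⟨e', he', c, hc⟩

/-- two linear maps with the same incidences -/
theorem Main_op {E E' : Type*} [AddCommGroup E] [Module ℂ E] [AddCommGroup E'] [Module ℂ E']
    {P : E →ₗ[ℂ] E' →ₗ[ℂ] ℂ} {p : E → Y} {q : E' → (Y →L[ℂ] ℂ)} (D : PData P p q)
    (T : E →ₗ[ℂ] E) (T' : Y →L[ℂ] Y)
    (h : ∀ e e', e ≠ 0 → e' ≠ 0 → (P (T e) e' = 0 ↔ q e' (T' (p e)) = 0))
    (e : E) (he : e ≠ 0) (hT : T e ≠ 0) : ∃ d : ℂ, d ≠ 0 ∧ T' (p e) = d • p (T e) := by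
  have h1 : ∃ d : ℂ, T' (p e) = d • p (T e) := by
    by_contra hcon
    obtain ⟨g, hg, hg'⟩ := (exists_sep' (D.p0 _ hT) hcon).1
    have hg0 : g ≠ 0 := by
      rintro rfl
      exact zero_ne_one hg'
    obtain ⟨e', he', d, rfl⟩ := D.qsurj g hg0
    have hd : d ≠ 0 := by
      rintro rfl
      exact hg0 (dual_zero_smul _)
    have h2 : d * q e' (p (T e)) = 0 := hg
    have h3 := (D.inc _ _ hT he').mpr ((mul_eq_zero.mp h2).resolve_left hd)
    have h4 := (h e e' he he').mp h3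
    have h5 : d * q e' (T' (p e)) = 1 := hg'
    rw [h4, mul_zero] at h5
    exact zero_ne_one h5
  obtain ⟨d, hd⟩ := h1
  refine ⟨d, ?_, hd⟩
  rintro rfl
  rw [zero_smul] at hd
  have h2 : T e ∈ Submodule.span ℂ {(0 : E), 0} := by
    refine D.sep 0 0 (T e) fun e' _ _ => ?_
    by_cases he' : e' = 0
    · rw [he', map_zero]
    · exact (h e e' he he').mpr (by rw [hd, map_zero])
  simp at h2
  exact hT h2

theorem Main_ext [CompleteSpace X] [CompleteSpace Y] {k : ℕ} (hY : Rich Y k) {φ : (X →L[ℂ] X) → (Y →L[ℂ] Y)} (h : Pres k φ)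
    {E E' : Type*} [AddCommGroup E] [Module ℂ E] [AddCommGroup E'] [Module ℂ E']
    {P : E →ₗ[ℂ] E' →ₗ[ℂ] ℂ} (R : E → E' → (X →L[ℂ] X))
    {p : E → Y} {q : E' → (Y →L[ℂ] ℂ)} (D : PData P p q) {τ : ℂ ≃+* ℂ} {S : E ≃+ Y}
    {Q : E' → (Y →L[ℂ] ℂ)} (hS : PStd P p q τ S Q)
    (hpq : ∀ e e', e ≠ 0 → e' ≠ 0 → ∃ d : ℂ, d ≠ 0 ∧ φ (R e e') = d • ten (p e) (q e'))
    (T : X →L[ℂ] X) (TE : E →ₗ[ℂ] E)
    (hT : ∀ e e', P e e' ≠ 0 → (Prp k T (R e e') ↔ P (TE e) e' = 0)) :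
    ∃ c : ℂ, c ≠ 0 ∧ ∀ e, φ T (S e) = c • S (TE e) := by
  refine ext_op D hS TE (φ T) ?_
  intro e e' hP
  have he : e ≠ 0 := by
    rintro rfl
    exact hP (by rw [map_zero]; rfl)
  have he' : e' ≠ 0 := by
    rintro rfl
    exact hP (by rw [map_zero])
  obtain ⟨d, hd, hd'⟩ := hpq e e' he he'
  obtain ⟨a, ha, ha'⟩ := hS.Sp e he
  obtain ⟨b, hb, hb'⟩ := hS.Qm e' he'
  have hq : q e' (p e) ≠ 0 := fun h1 => hP ((D.inc e e' he he').mpr h1)
  rw [← hT e e' hP, ← h.iff, hd']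
  have h1 : Prp k (φ T) (d • ten (p e) (q e')) ↔ Prp k (φ T) (ten (p e) (q e')) := by
    have := Main_prp (k := k) (T := φ T) (S := ten (p e) (q e')) one_ne_zero hd
    rw [one_smul] at this
    exact this
  rw [h1, hY.ten _ _ _ hq, ha', hb']
  constructor
  · intro h2
    show b * q e' (φ T (a • p e)) = 0
    rw [map_smul, map_smul, h2, smul_zero, mul_zero]
  · intro h2
    have h3 : b * q e' (φ T (a • p e)) = 0 := h2
    rw [map_smul, map_smul, smul_eq_mul] at h3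
    exact (mul_eq_zero.mp ((mul_eq_zero.mp h3).resolve_left hb)).resolve_left ha

theorem Main_ten1 {v : Fin 2 → X} {f : Fin 2 → X →L[ℂ] ℂ}
    (hf : ∀ i j, f i (v j) = if i = j then 1 else 0) :
    ¬ ∃ c : ℂ, ten (v 1) (f 0) = c • ten (v 0) (f 0) := by
  rintro ⟨c, hc⟩
  have h1 : f 1 (ten (v 1) (f 0) (v 0)) = f 1 ((c • ten (v 0) (f 0)) (v 0)) := by rw [hc]
  have h2 : f 1 (f 0 (v 0) • v 1) = f 1 (c • f 0 (v 0) • v 0) := h1
  rw [map_smul, map_smul, map_smul, hf, hf, hf] at h2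
  simp at h2

theorem Main_ten2 {v : Fin 2 → X} {f : Fin 2 → X →L[ℂ] ℂ}
    (hf : ∀ i j, f i (v j) = if i = j then 1 else 0) :
    ¬ ∃ c : ℂ, ten (v 0) (f 1) = c • ten (v 0) (f 0) := by
  rintro ⟨c, hc⟩
  have h1 : f 0 (ten (v 0) (f 1) (v 1)) = f 0 ((c • ten (v 0) (f 0)) (v 1)) := by rw [hc]
  have h2 : f 0 (f 1 (v 1) • v 0) = f 0 (c • f 0 (v 1) • v 0) := h1
  rw [map_smul, map_smul, map_smul, hf, hf, hf] at h2
  simp at h2

/-- the data of the first type -/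
theorem Main_data1 [CompleteSpace X] [CompleteSpace Y] {k : ℕ} (hX : Rich X k)
    (hY : Rich Y k) {φ : (X →L[ℂ] X) → (Y →L[ℂ] Y)} (h : Pres k φ) {v : Fin 2 → X}
    {f : Fin 2 → X →L[ℂ] ℂ} (hf : ∀ i j, f i (v j) = if i = j then 1 else 0)
    {p : X → Y} {q : (X →L[ℂ] ℂ) → (Y →L[ℂ] ℂ)} (hp : ∀ x, x ≠ 0 → p x ≠ 0)
    (hq : ∀ f, f ≠ 0 → q f ≠ 0) (hpq : ∀ x f, x ≠ 0 → f ≠ 0 →
      ∃ d : ℂ, d ≠ 0 ∧ φ (ten x f) = d • ten (p x) (q f)) : PData (ev X) p q := by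
  have hv : ∀ i, v i ≠ 0 := by
    intro i h0
    have := hf i i
    rw [h0, map_zero, if_pos rfl] at this
    exact zero_ne_one this
  have hf0 : ∀ i, f i ≠ 0 := by
    intro i h0
    have := hf i i
    rw [h0, if_pos rfl] at this
    exact zero_ne_one this
  exact Main_data hX hY h (ev X) (fun x f => ten x f) (fun x f => hX.self x f)
    (fun x f hx hf => ⟨x, f, hx, hf, rfl⟩) (v 0) (v 1) (f 0) (f 1) (hv 0) (hv 1) (hf0 0) (hf0 1)
    (Main_ten1 hf) (Main_ten2 hf) hp hq hpq (fun x x' z hz => HLine_mem fun g h1 h2 => hz g h1 h2)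

/-- the data of the second type -/
theorem Main_data2 [CompleteSpace X] [CompleteSpace Y] {k : ℕ} (hX : Rich X k)
    (hY : Rich Y k) {φ : (X →L[ℂ] X) → (Y →L[ℂ] Y)} (h : Pres k φ) {v : Fin 2 → X}
    {f : Fin 2 → X →L[ℂ] ℂ} (hf : ∀ i j, f i (v j) = if i = j then 1 else 0)
    {p : (X →L[ℂ] ℂ) → Y} {q : X → (Y →L[ℂ] ℂ)} (hp : ∀ f, f ≠ 0 → p f ≠ 0)
    (hq : ∀ x, x ≠ 0 → q x ≠ 0) (hpq : ∀ x f, x ≠ 0 → f ≠ 0 →
      ∃ d : ℂ, d ≠ 0 ∧ φ (ten x f) = d • ten (p f) (q x)) : PData (ev X).flip p q := by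
  have hv : ∀ i, v i ≠ 0 := by
    intro i h0
    have := hf i i
    rw [h0, map_zero, if_pos rfl] at this
    exact zero_ne_one this
  have hf0 : ∀ i, f i ≠ 0 := by
    intro i h0
    have := hf i i
    rw [h0, if_pos rfl] at this
    exact zero_ne_one this
  exact Main_data hX hY h (ev X).flip (fun f x => ten x f) (fun f x => hX.self x f)
    (fun x f hx hf => ⟨f, x, hf, hx, rfl⟩) (f 0) (f 1) (v 0) (v 1) (hf0 0) (hf0 1) (hv 0) (hv 1)
    (Main_ten2 hf) (Main_ten1 hf) hp hq (fun f x hf hx => hpq x f hx hf) (fun f f' g hz => by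
      obtain ⟨a, b, rfl⟩ := mem_span_dual (f := f) (f' := f') (h := g) fun x h1 h2 => hz x h1 h2
      exact Submodule.add_mem _ (Submodule.smul_mem _ _ (Submodule.subset_span (by simp)))
        (Submodule.smul_mem _ _ (Submodule.subset_span (by simp))))

theorem Main_form1 [CompleteSpace X] [CompleteSpace Y] {k : ℕ} (hX : Rich X k)
    (hY : Rich Y k) {φ : (X →L[ℂ] X) → (Y →L[ℂ] Y)} (h : Pres k φ)
    {p : X → Y} {q : (X →L[ℂ] ℂ) → (Y →L[ℂ] ℂ)} (hpq : ∀ x f, x ≠ 0 → f ≠ 0 →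
      ∃ d : ℂ, d ≠ 0 ∧ φ (ten x f) = d • ten (p x) (q f)) (D : PData (ev X) p q)
    {τ : ℂ ≃+* ℂ} {S : X ≃+ Y} {Q : (X →L[ℂ] ℂ) → (Y →L[ℂ] ℂ)}
    (hS : PStd (ev X) p q τ S Q) : Form φ := by
  have key : ∀ T : X →L[ℂ] X, ∃ c : ℂ, c ≠ 0 ∧ ∀ x, φ T (S x) = c • S (T x) := fun T =>
    Main_ext hY h (fun x f => ten x f) D hS hpq T (T : X →ₗ[ℂ] X)
      (fun x f hP => hX.ten T x f hP)
  choose c hc0 hc using key
  exact ⟨c, hc0, Or.inl ⟨τ, S, adm1 hS, hc⟩⟩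

theorem Main_form2 [CompleteSpace X] [CompleteSpace Y] {k : ℕ} (hX : Rich X k)
    (hY : Rich Y k) {φ : (X →L[ℂ] X) → (Y →L[ℂ] Y)} (h : Pres k φ)
    {p : (X →L[ℂ] ℂ) → Y} {q : X → (Y →L[ℂ] ℂ)} (hpq : ∀ x f, x ≠ 0 → f ≠ 0 →
      ∃ d : ℂ, d ≠ 0 ∧ φ (ten x f) = d • ten (p f) (q x)) (D : PData (ev X).flip p q)
    {τ : ℂ ≃+* ℂ} {S : (X →L[ℂ] ℂ) ≃+ Y} {Q : X → (Y →L[ℂ] ℂ)}
    (hS : PStd (ev X).flip p q τ S Q) : Form φ := by
  have key : ∀ T : X →L[ℂ] X, ∃ c : ℂ, c ≠ 0 ∧ ∀ f : X →L[ℂ] ℂ,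
      φ T (S f) = c • S (f.comp T) := fun T =>
    Main_ext hY h (fun f x => ten x f) D hS (fun f x hf hx => hpq x f hx hf) T
      (adj T : (X →L[ℂ] ℂ) →ₗ[ℂ] (X →L[ℂ] ℂ)) (fun f x hP => hX.ten T x f hP)
  choose c hc0 hc using key
  exact ⟨c, hc0, Or.inr ⟨τ, S, adm2 hS, hc⟩⟩

theorem Main_li2 {n : ℕ} (hn : 2 ≤ n) {v : Fin n → X} (hv : LinearIndependent ℂ v) :
    ∃ v : Fin 2 → X, LinearIndependent ℂ v :=
  ⟨v ∘ Fin.castLE hn, hv.comp _ (Fin.castLE_injective hn)⟩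

theorem Main_dual {n : ℕ} {v : Fin n → X} (hv : LinearIndependent ℂ v) :
    ∃ f : Fin n → X →L[ℂ] ℂ, LinearIndependent ℂ f := by
  obtain ⟨f, hf⟩ := exists_dual_family hv
  refine ⟨f, ?_⟩
  rw [Fintype.linearIndependent_iff]
  intro t ht
  by_contra hcon
  push Not at hcon
  obtain ⟨i, hi⟩ := hcon
  exact exists_comb_dual hf (t := t) (fun h => hi (congrFun h i)) ht

theorem form_big [CompleteSpace X] [CompleteSpace Y] {k : ℕ} (hX : Rich X k)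
    (hY : Rich Y k) {φ : (X →L[ℂ] X) → (Y →L[ℂ] Y)} (h : Pres k φ)
    (h3 : ∃ v : Fin 3 → X, LinearIndependent ℂ v) : Form φ := by
  obtain ⟨v3, hv3⟩ := h3
  obtain ⟨v, hv⟩ := Main_li2 (by norm_num) hv3
  obtain ⟨f, hf⟩ := exists_dual_family hv
  rcases types hX hY h ⟨v, hv⟩ with ⟨p, q, hp, hq, hpq⟩ | ⟨p, q, hp, hq, hpq⟩
  · have D := Main_data1 hX hY h hf hp hq hpq
    obtain ⟨τ, S, Q, hS⟩ := D.std ⟨v3, hv3⟩
    exact Main_form1 hX hY h hpq D hS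
  · have D := Main_data2 hX hY h hf hp hq hpq
    obtain ⟨τ, S, Q, hS⟩ := D.std (Main_dual hv3)
    exact Main_form2 hX hY h hpq D hS

theorem Main_rank [CompleteSpace X] {T : X →L[ℂ] X} {x : X} {f : X →L[ℂ] ℂ} :
    Prp 1 T (ten x f) ↔ f (T x) = 0 := HLine_prp (pow_one _)

theorem form_mid [CompleteSpace X] [CompleteSpace Y] {φ : (X →L[ℂ] X) → (Y →L[ℂ] Y)}
    (h : Pres 1 φ) (h2 : ∃ v : Fin 2 → X, LinearIndependent ℂ v)
    (h3 : ¬ ∃ v : Fin 3 → X, LinearIndependent ℂ v) : Form φ := by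
  obtain ⟨v, hv⟩ := h2
  obtain ⟨f, hf⟩ := exists_dual_family hv
  have hX : Rich X 1 := rich_one
  have hY : Rich Y 1 := rich_one
  have hfin : Module.Finite ℂ X := by
    by_contra hX
    have h1 : ¬ (⊤ : Submodule ℂ X).FG := fun h => hX ⟨h⟩
    obtain ⟨v, hv, -⟩ := exists_li_of_not_fg h1 3
    exact h3 ⟨v, hv⟩
  have hrank : Module.finrank ℂ X = 2 := by
    have h4 := hv.fintype_card_le_finrank
    rw [Fintype.card_fin] at h4
    by_contra hne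
    apply h3
    have h5 : 3 ≤ Module.finrank ℂ X := by omega
    exact ⟨(Module.finBasis ℂ X) ∘ Fin.castLE h5,
      (Module.finBasis ℂ X).linearIndependent.comp _ (Fin.castLE_injective h5)⟩
  have hcard : Fintype.card (Fin 2) = Module.finrank ℂ X := by rw [hrank, Fintype.card_fin]
  have hrank' : Module.finrank ℂ (X →L[ℂ] ℂ) = 2 := by
    rw [← LinearEquiv.finrank_eq (LinearMap.toContinuousLinearMap (𝕜 := ℂ) (E := X) (F' := ℂ)),
      Module.finrank_linearMap, hrank, Module.finrank_self]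
  have hcard' : Fintype.card (Fin 2) = Module.finrank ℂ (X →L[ℂ] ℂ) := by
    rw [hrank', Fintype.card_fin]
  have hli' : LinearIndependent ℂ f := by
    rw [Fintype.linearIndependent_iff]
    intro t ht
    by_contra hcon
    push Not at hcon
    obtain ⟨i, hi⟩ := hcon
    exact exists_comb_dual hf (t := t) (fun h => hi (congrFun h i)) ht
  have hsp : ∀ x : X, x = f 0 x • v 0 + f 1 x • v 1 := by
    intro x
    obtain ⟨b, hb⟩ : ∃ b : Module.Basis (Fin 2) ℂ X, ⇑b = v :=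
      ⟨basisOfLinearIndependentOfCardEqFinrank hv hcard,
        coe_basisOfLinearIndependentOfCardEqFinrank hv hcard⟩
    have h4 := b.sum_repr x
    rw [Fin.sum_univ_two, hb] at h4
    obtain ⟨a, c, hac⟩ : ∃ a c : ℂ, a • v 0 + c • v 1 = x := ⟨_, _, h4⟩
    have h5 : f 0 x = a := by
      rw [← hac, map_add, map_smul, map_smul, hf, hf]; simp
    have h6 : f 1 x = c := by
      rw [← hac, map_add, map_smul, map_smul, hf, hf]; simp
    rw [h5, h6, hac]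
  rcases types hX hY h ⟨v, hv⟩ with ⟨p, q, hp, hq, hpq⟩ | ⟨p, q, hp, hq, hpq⟩
  · have D := Main_data1 hX hY h hf hp hq hpq
    obtain ⟨τ, S, h4, h5⟩ := D.two (basisOfLinearIndependentOfCardEqFinrank hv hcard) (by
      intro T
      refine ⟨φ (LinearMap.toContinuousLinearMap T), ?_⟩
      refine Main_op D T _ ?_
      intro x g hx hg
      obtain ⟨d, hd, hd'⟩ := hpq x g hx hg
      have h6 := h.iff (LinearMap.toContinuousLinearMap T) (ten x g)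
      rw [Main_rank, hd', ← ten_smul_right, Main_rank] at h6
      show g (T x) = 0 ↔ _
      have h7 : g ((LinearMap.toContinuousLinearMap T) x) = 0 ↔ g (T x) = 0 := Iff.rfl
      rw [← h7, ← h6]
      show d * q g _ = 0 ↔ _
      rw [mul_eq_zero, or_iff_right hd])
    obtain ⟨Q, hS⟩ := D.ofS τ S h4 h5
    exact Main_form1 hX hY h hpq D hS
  · have D := Main_data2 hX hY h hf hp hq hpq
    obtain ⟨τ, S, h4, h5⟩ := D.two (basisOfLinearIndependentOfCardEqFinrank hli' hcard') (by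
      intro T
      refine ⟨φ (ten (v 0) (T (f 0)) + ten (v 1) (T (f 1))), ?_⟩
      refine Main_op D T _ ?_
      intro g x hg hx
      obtain ⟨d, hd, hd'⟩ := hpq x g hx hg
      have h6 := h.iff (ten (v 0) (T (f 0)) + ten (v 1) (T (f 1))) (ten x g)
      rw [Main_rank, hd', ← ten_smul_right, Main_rank] at h6
      show (T g) x = 0 ↔ _
      have h7 : g ((ten (v 0) (T (f 0)) + ten (v 1) (T (f 1))) x) = (T g) x := by
        have h8 : g = g (v 0) • f 0 + g (v 1) • f 1 := by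
          ext y
          show g y = g (v 0) * f 0 y + g (v 1) * f 1 y
          conv_lhs => rw [hsp y]
          rw [map_add, map_smul, map_smul, smul_eq_mul, smul_eq_mul]; ring
        have h9 : T g = g (v 0) • T (f 0) + g (v 1) • T (f 1) := by
          conv_lhs => rw [h8]
          rw [map_add, map_smul, map_smul]
        rw [h9]
        show g (T (f 0) x • v 0 + T (f 1) x • v 1) = g (v 0) * T (f 0) x + g (v 1) * T (f 1) x
        rw [map_add, map_smul, map_smul, smul_eq_mul, smul_eq_mul]; ring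
      rw [← h7, ← h6]
      show d * q x _ = 0 ↔ _
      rw [mul_eq_zero, or_iff_right hd])
    obtain ⟨Q, hS⟩ := D.ofS τ S h4 h5
    exact Main_form2 hX hY h hpq D hS

theorem form_one [CompleteSpace X] [CompleteSpace Y] {φ : (X →L[ℂ] X) → (Y →L[ℂ] Y)}
    (h : Pres 1 φ) : Form φ := by
  by_cases h3 : ∃ v : Fin 3 → X, LinearIndependent ℂ v
  · exact form_big rich_one rich_one h h3
  by_cases h2 : ∃ v : Fin 2 → X, LinearIndependent ℂ v
  · exact form_mid h h2 h3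
  · obtain ⟨c, τ, S, hc, hS, h4⟩ := small rich_one rich_one h h2
    exact ⟨c, hc, Or.inl ⟨τ, S, hS, h4⟩⟩

theorem form_two [CompleteSpace X] [CompleteSpace Y] {φ : (X →L[ℂ] X) → (Y →L[ℂ] Y)}
    (h3 : ∃ v : Fin 3 → X, LinearIndependent ℂ v)
    (h3' : ∃ v : Fin 3 → Y, LinearIndependent ℂ v) (h : Pres 2 φ) : Form φ :=
  form_big (rich_two h3) (rich_two h3') h h3

theorem Main_comm [CompleteSpace X] (T S : X →L[ℂ] X) : QN (T * S) ↔ QN (S * T) := by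
  have key : ∀ A B : X →L[ℂ] X, QN (A * B) → QN (B * A) := by
    intro A B hq
    refine (qn_iff _).mpr fun z => ?_
    by_cases hz : z = 0
    · rw [hz, zero_smul, sub_zero]; exact isUnit_one
    rw [isUnit_one_sub_smul_iff _ hz]
    have h1 := (qn_iff _).mp hq z
    rw [isUnit_one_sub_smul_iff _ hz] at h1
    intro h2
    apply h1
    have h3 : z⁻¹ ∈ spectrum ℂ (B * A) \ {0} := ⟨h2, inv_ne_zero hz⟩
    rw [spectrum.nonzero_mul_comm] at h3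
    exact h3.1
  exact ⟨key T S, key S T⟩

theorem pres_of_form [CompleteSpace X] [CompleteSpace Y] {φ : (X →L[ℂ] X) → (Y →L[ℂ] Y)}
    (k : ℕ) (h : Form φ) (T S : X →L[ℂ] X) :
    Prp k (φ T) (φ S) ↔ Prp k T S := by
  obtain ⟨c, hc, ⟨τ, S0, hS, h1⟩ | ⟨τ, S0, hS, h1⟩⟩ := h
  · have h2 : ∀ (k : ℕ) x, ((φ S) ^ k) (S0 x) = (c S) ^ k • S0 ((S ^ k) x) := by
      intro k
      induction k with
      | zero =>
        intro x
        rw [pow_zero, pow_zero, pow_zero, one_smul]; rfl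
      | succ k ih =>
        intro x
        rw [pow_succ, pow_succ S]
        show ((φ S) ^ k) (φ S (S0 x)) = _ • S0 ((S ^ k) (S x))
        rw [h1, map_smul, ih, smul_smul, pow_succ, mul_comm]
    refine qn_of_adm hS (mul_ne_zero (pow_ne_zero k (hc S)) (hc T)) ?_
    intro x
    show φ T (((φ S) ^ k) (S0 x)) = _ • S0 (T ((S ^ k) x))
    rw [h2, map_smul, h1, smul_smul]
  · have h2 : ∀ (k : ℕ) (f : X →L[ℂ] ℂ), ((φ S) ^ k) (S0 f) =
        (c S) ^ k • S0 (f.comp (S ^ k)) := by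
      intro k
      induction k with
      | zero =>
        intro f
        rw [pow_zero, pow_zero, pow_zero, one_smul]; rfl
      | succ k ih =>
        intro f
        rw [pow_succ, pow_succ' S]
        show ((φ S) ^ k) (φ S (S0 f)) = _ • S0 ((f.comp S).comp (S ^ k))
        rw [h1, map_smul, ih, smul_smul, pow_succ, mul_comm]
    unfold Prp
    refine Iff.trans ?_ ((qn_adj_iff (T := S ^ k * T)).trans (Main_comm (S ^ k) T))
    refine qn_of_adm hS (mul_ne_zero (pow_ne_zero k (hc S)) (hc T)) ?_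
    intro f
    show φ T (((φ S) ^ k) (S0 f)) = _ • S0 ((f.comp (S ^ k)).comp T)
    rw [h2, map_smul, h1, smul_smul]

/-- the triple product -/
theorem Main_triple [CompleteSpace X] (T S : X →L[ℂ] X) : QN (S * T * S) ↔ Prp 2 T S := by
  unfold Prp
  rw [pow_two, ← mul_assoc, mul_assoc S T S]
  exact Main_comm S (T * S)

end Pool.Agent.H.MP_bb4c62_an.QP
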