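import Pool.Agent.H.MP_bb4c62_an.helper6.NFinal

/-!
# Module QP/Basic: quasinilpotent products, definitions and tools

`Prp k T S`: `T * S ^ k` is quasinilpotent (`k = 1`: the product, `k = 2`: the triple product, because
`r (S T S) = r (T S ^ 2)`). `Dep k A B C`: every `S` with `Prp k A S`, `Prp k B S` has `Prp k C S`.
An H-line is a set of operators in which every two non-proportional members generate the whole
set (`gen`), and such that for every `S` there is a member `U` with `Prp k U S` (`meet`).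
-/

namespace Pool.Agent.H.MP_bb4c62_an.QP

open Pool.Agent.H.MP_bb4c62_an.helper6.NL
open Pool.Agent.H.MP_bb4c62_an.helper6.Perturb
open Pool.Agent.H.MP_bb4c62_an.helper6.Gadgets

variable {X : Type*} [NormedAddCommGroup X] [NormedSpace ℂ X]
variable {Y : Type*} [NormedAddCommGroup Y] [NormedSpace ℂ Y]

/-- `T * S ^ k` is quasinilpotent -/
def Prp (k : ℕ) (T S : X →L[ℂ] X) : Prop := QN (T * S ^ k)

/-- `C` depends on `A` and `B` -/
def Dep (k : ℕ) (A B C : X →L[ℂ] X) : Prop := ∀ S, Prp k A S → Prp k B S → Prp k C S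

/-- `A` and `B` are of rank at most one, with common range or with common kernel -/
def Adj (A B : X →L[ℂ] X) : Prop :=
  (∃ (w : X) (f g : X →L[ℂ] ℂ), A = ten w f ∧ B = ten w g) ∨
    (∃ (w z : X) (f : X →L[ℂ] ℂ), A = ten w f ∧ B = ten z f)

/-- sets generated by any two non-proportional members, and meeting all `{T | Prp k T S}` -/
structure HLine (k : ℕ) (ℓ : Set (X →L[ℂ] X)) : Prop where
  two : ∃ A ∈ ℓ, ∃ B ∈ ℓ, ¬ ∃ c : ℂ, B = c • A
  gen : ∀ A ∈ ℓ, ∀ B ∈ ℓ, (¬ ∃ c : ℂ, B = c • A) → ∀ C, C ∈ ℓ ↔ C ≠ 0 ∧ Dep k A B C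
  meet : ∀ S, ∃ U ∈ ℓ, Prp k U S

/-- the operators of rank one, and enough operators of rank two, are `k`-th powers -/
structure Rich (X : Type*) [NormedAddCommGroup X] [NormedSpace ℂ X] (k : ℕ) : Prop where
  one : ∀ (x : X) (g : X →L[ℂ] ℂ), ∃ S : X →L[ℂ] X, S ^ k = ten x g
  two : ∀ (x x' : X) (g g' : X →L[ℂ] ℂ), g x * g' x' - g x' * g' x ≠ 0 →
    ∃ S : X →L[ℂ] X, S ^ k = ten x g + ten x' g'
  self : ∀ (x : X) (f : X →L[ℂ] ℂ), Prp k (ten x f) (ten x f) ↔ f x = 0
  ten : ∀ (T : X →L[ℂ] X) (x : X) (f : X →L[ℂ] ℂ), f x ≠ 0 →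
    (Prp k T (ten x f) ↔ f (T x) = 0)

/-- surjective maps which preserve the relation `Prp k` in both directions -/
structure Pres (k : ℕ) (φ : (X →L[ℂ] X) → (Y →L[ℂ] Y)) : Prop where
  surj : Function.Surjective φ
  iff : ∀ T S, Prp k (φ T) (φ S) ↔ Prp k T S

/-- a rank one operator is quasinilpotent iff its trace is `0` -/
theorem qn_ten_iff [CompleteSpace X] {x : X} {f : X →L[ℂ] ℂ} : QN (ten x f) ↔ f x = 0 := by
  have key : ∀ z : ℂ, IsUnit (1 - z • ten x f) ↔ z * f x ≠ 1 := by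
    intro z
    rw [← ten_smul_left, isUnit_one_sub_ten_iff, map_smul, smul_eq_mul]
  constructor
  · intro h
    by_contra h0
    exact (key (f x)⁻¹).mp ((qn_iff _).mp h _) (inv_mul_cancel₀ h0)
  · intro h
    refine (qn_iff _).mpr fun z => (key z).mpr ?_
    rw [h, mul_zero]
    exact zero_ne_one

/-- quasinilpotent operators of rank at most two have trace and determinant `0`.

Proof. Let `t = g u + g' v`, `d = g u * g' v - g v * g' u`. By `quad_const` it is enough that
`1 + s * (-t) + s ^ 2 * d ≠ 0` for all `s`. Otherwise there is `(a, b) ≠ 0` with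
`a = s * g y`, `b = s * g' y` for `y = a • u + b • v` (`Matrix.exists_mulVec_eq_zero_iff`), and
`(1 - s • T) y = 0`, so `y = 0` (`qn_iff`), `a = b = 0`. -/
theorem qn_two [CompleteSpace X] {u v : X} {g g' : X →L[ℂ] ℂ} (h : QN (ten u g + ten v g')) :
    g u + g' v = 0 ∧ g u * g' v - g v * g' u = 0 := by
  have key : ∀ s : ℂ, 1 + s * (-(g u + g' v)) + s ^ 2 * (g u * g' v - g v * g' u) ≠ 0 := by
    intro s hs
    have hdet : (!![1 - s * g u, -(s * g v); -(s * g' u), 1 - s * g' v] :
        Matrix (Fin 2) (Fin 2) ℂ).det = 0 := by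
      rw [Matrix.det_fin_two_of]
      linear_combination hs
    obtain ⟨w, hw, hw0⟩ := Matrix.exists_mulVec_eq_zero_iff.mpr hdet
    have e0 := congrFun hw0 0
    have e1 := congrFun hw0 1
    simp only [Matrix.mulVec, dotProduct, Fin.sum_univ_two, Matrix.of_apply, Matrix.cons_val',
      Matrix.cons_val_zero, Matrix.cons_val_one, Matrix.cons_val_fin_one, Pi.zero_apply] at e0 e1
    obtain ⟨y, hy⟩ : ∃ y, y = w 0 • u + w 1 • v := ⟨_, rfl⟩
    have ea : w 0 = s * g y := by
      rw [hy, map_add, map_smul, map_smul, smul_eq_mul, smul_eq_mul]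
      linear_combination e0
    have eb : w 1 = s * g' y := by
      rw [hy, map_add, map_smul, map_smul, smul_eq_mul, smul_eq_mul]
      linear_combination e1
    obtain ⟨U, hU⟩ := (qn_iff _).mp h s
    have h1 : (U : X →L[ℂ] X) y = 0 := by
      rw [hU]
      show y - s • (g y • u + g' y • v) = 0
      rw [smul_add, smul_smul, smul_smul, ← ea, ← eb, ← hy, sub_self]
    have h2 : y = 0 := by
      have h3 : ((↑U⁻¹ * (↑U : X →L[ℂ] X)) : X →L[ℂ] X) y = y := by
        rw [Units.inv_mul]; rfl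
      rw [← h3]
      show (↑U⁻¹ : X →L[ℂ] X) ((↑U : X →L[ℂ] X) y) = 0
      rw [h1, map_zero]
    apply hw
    funext i
    rw [h2, map_zero, mul_zero] at ea eb
    fin_cases i
    · exact ea
    · exact eb
  obtain ⟨h1, h2⟩ := quad_const key
  exact ⟨neg_eq_zero.mp h1, h2⟩

/-- a functional which vanishes in `a` and does not vanish in finitely many vectors, none of
which is a multiple of `a` -/
theorem exists_gen (a : X) (s : Finset X) (hs : ∀ b ∈ s, ¬ ∃ c : ℂ, b = c • a) :
    ∃ g : X →L[ℂ] ℂ, g a = 0 ∧ ∀ b ∈ s, g b ≠ 0 := by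
  classical
  induction s using Finset.induction_on with
  | empty => exact ⟨0, rfl, fun b hb => absurd hb (Finset.notMem_empty b)⟩
  | insert b s hb ih =>
    obtain ⟨p, hp, hps⟩ := ih fun b hb => hs b (Finset.mem_insert_of_mem hb)
    have hba := hs b (Finset.mem_insert_self b s)
    obtain ⟨q, hq, hqb⟩ : ∃ q : X →L[ℂ] ℂ, q a = 0 ∧ q b = 1 := by
      by_cases ha : a = 0
      · have hb0 : b ≠ 0 := by
          rintro rfl
          exact hba ⟨0, by rw [zero_smul]⟩
        obtain ⟨q, hq⟩ := SeparatingDual.exists_eq_one (R := ℂ) hb0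
        exact ⟨q, by rw [ha, map_zero], hq⟩
      · exact (exists_sep' ha hba).1
    obtain ⟨t, ht⟩ := Infinite.exists_notMem_finset ((insert b s).image fun b => -(p b) / q b)
    refine ⟨p + t • q, ?_, ?_⟩
    · show p a + t * q a = 0
      rw [hp, hq, mul_zero, add_zero]
    · intro b' hb' h0
      have h1 : p b' + t * q b' = 0 := h0
      by_cases hq0 : q b' = 0
      · rw [hq0, mul_zero, add_zero] at h1
        rcases Finset.mem_insert.mp hb' with h2 | h2
        · rw [h2, hqb] at hq0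
          exact one_ne_zero hq0
        · exact hps b' h2 h1
      · apply ht
        refine Finset.mem_image.mpr ⟨b', hb', ?_⟩
        field_simp
        linear_combination -h1

/-- `B x` in the line of `A x` for all `x` implies that `B` is a multiple of `A`. -/
theorem mul_of_local {E F : Type*} [AddCommGroup E] [Module ℂ E] [AddCommGroup F] [Module ℂ F]
    (A B : E →ₗ[ℂ] F) (h : ∀ x, ∃ c : ℂ, B x = c • A x) : ∃ c : ℂ, ∀ x, B x = c • A x := by
  by_cases h0 : ∀ x, A x = 0
  · refine ⟨0, fun x => ?_⟩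
    obtain ⟨c, hc⟩ := h x
    rw [hc, h0 x, smul_zero, smul_zero]
  push Not at h0
  obtain ⟨x0, hx0⟩ := h0
  obtain ⟨c, hc⟩ := h x0
  refine ⟨c, fun z => ?_⟩
  by_cases hz : ∃ k : ℂ, A z = k • A x0
  · obtain ⟨k, hk⟩ := hz
    obtain ⟨e, he⟩ := h (z - k • x0)
    rw [map_sub, map_sub, map_smul, map_smul, hk, sub_self, smul_zero, sub_eq_zero, hc] at he
    rw [he, hk, smul_comm]
  · obtain ⟨d, hd⟩ := h z
    obtain ⟨e, he⟩ := h (z + x0)
    rw [map_add, map_add, hd, hc, smul_add] at he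
    have h1 : (d - e) • A z = (e - c) • A x0 := by
      rw [sub_smul, sub_smul]
      have h2 : d • A z = e • A z + e • A x0 - c • A x0 := by rw [← he]; abel
      rw [h2]; abel
    have hde : d - e = 0 := by
      by_contra hde
      apply hz
      refine ⟨(d - e)⁻¹ * (e - c), ?_⟩
      rw [mul_smul, ← h1, smul_smul, inv_mul_cancel₀ hde, one_smul]
    rw [hde, zero_smul] at h1
    have hec : e - c = 0 := (smul_eq_zero.mp h1.symm).resolve_right hx0
    rw [hd, sub_eq_zero.mp hde, sub_eq_zero.mp hec]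

theorem Basic_ten_of_local {A : X →L[ℂ] X} {w : X} (hw : w ≠ 0)
    (h : ∀ x, ∃ c : ℂ, A x = c • w) : ∃ f : X →L[ℂ] ℂ, A = ten w f := by
  obtain ⟨η, hη⟩ := SeparatingDual.exists_eq_one (R := ℂ) hw
  refine ⟨η.comp A, ?_⟩
  ext x
  obtain ⟨c, hc⟩ := h x
  show A x = η (A x) • w
  rw [hc, map_smul, hη, smul_eq_mul, mul_one]

/-- locally dependent operators: `A` and `B` non-proportional, `A x` and `B x` dependent for all
`x` implies that both are of rank one with common range -/
theorem adj_of_local {A B : X →L[ℂ] X} (hA : A ≠ 0) (hAB : ¬ ∃ c : ℂ, B = c • A)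
    (h : ∀ x, ¬ LinearIndependent ℂ ![A x, B x]) :
    ∃ (w : X) (f g : X →L[ℂ] ℂ), A = ten w f ∧ B = ten w g := by
  have h' : ∀ x, A x ≠ 0 → ∃ c : ℂ, B x = c • A x := by
    intro x hx
    have h1 := h x
    rw [LinearIndependent.pair_iff' hx] at h1
    push Not at h1
    obtain ⟨c, hc⟩ := h1
    exact ⟨c, hc.symm⟩
  by_cases h1 : ∀ x, A x = 0 → B x = 0
  · exfalso
    apply hAB
    obtain ⟨c, hc⟩ := mul_of_local (A : X →ₗ[ℂ] X) (B : X →ₗ[ℂ] X) fun x => by
      by_cases hx : A x = 0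
      · exact ⟨0, by
          rw [zero_smul]
          exact h1 x hx⟩
      · exact h' x hx
    exact ⟨c, by ext x; exact hc x⟩
  · push Not at h1
    obtain ⟨x1, hx1, hw⟩ := h1
    obtain ⟨x0, hx0⟩ : ∃ x0, A x0 ≠ 0 := by
      by_contra hcon
      push Not at hcon
      exact hA (by ext x; exact hcon x)
    have hAw : ∀ z, ∃ c : ℂ, A z = c • B x1 := by
      intro z
      by_cases hz : A z = 0
      · exact ⟨0, by rw [hz, zero_smul]⟩
      obtain ⟨c, hc⟩ := h' z hz
      have h2 : A (z + x1) = A z := by rw [map_add, hx1, add_zero]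
      obtain ⟨d, hd⟩ := h' (z + x1) (by rw [h2]; exact hz)
      rw [h2, map_add, hc] at hd
      have h3 : B x1 = (d - c) • A z := by
        rw [sub_smul, ← hd]; abel
      have hdc : d - c ≠ 0 := by
        intro h0
        rw [h0, zero_smul] at h3
        exact hw h3
      exact ⟨(d - c)⁻¹, by rw [h3, smul_smul, inv_mul_cancel₀ hdc, one_smul]⟩
    have hBw0 : ∀ z, A z ≠ 0 → ∃ c : ℂ, B z = c • B x1 := by
      intro z hz
      obtain ⟨c, hc⟩ := h' z hz
      obtain ⟨d, hd⟩ := hAw z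
      exact ⟨c * d, by rw [hc, hd, smul_smul]⟩
    have hBw : ∀ z, ∃ c : ℂ, B z = c • B x1 := by
      intro z
      by_cases hz : A z = 0
      · obtain ⟨c, hc⟩ := hBw0 x0 hx0
        obtain ⟨d, hd⟩ := hBw0 (z + x0) (by rw [map_add, hz, zero_add]; exact hx0)
        refine ⟨d - c, ?_⟩
        rw [sub_smul, ← hd, ← hc, map_add]; abel
      · exact hBw0 z hz
    obtain ⟨f, hf⟩ := Basic_ten_of_local hw hAw
    obtain ⟨g, hg⟩ := Basic_ten_of_local hw hBw
    exact ⟨B x1, f, g, hf, hg⟩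

end Pool.Agent.H.MP_bb4c62_an.QP
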