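import Pool.Agent.H.MP_bb4c62_an.QP.Basic

/-!
# Module QP/Lines: lines of operators of rank one are H-lines

By `hR.one` every `ten y l` is some `S ^ k`, so `Dep k A B C` implies: `l (A y) = 0`, `l (B y) = 0` imply
`l (C y) = 0` (`mul_ten`, `qn_ten_iff`); and `Prp k (ten w h) S` is `h ((S ^ k) w) = 0` (`ten_mul`, `qn_ten_iff`).

`hline_row`: `two`: `ten w f`, `ten w g`. `gen`: `A = ten w h1`, `B = ten w h2`; `h1`, `h2` are not proportional, so
their span is the span of `f`, `g`. If `C ≠ 0`, `Dep k A B C`: if `l w = 0` then `l (C y) = 0` for all `y`, so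
`C y` is a multiple of `w` (`exists_sep'`), `C = ten w h`, and `h1 y = h2 y = 0` imply `C y = 0`, so `h` is in the
span (`mem_span_dual` in helper6/NInst). `meet`: `h = (g ((S ^ k) w)) • f - (f ((S ^ k) w)) • g`, or `f` if both
numbers are `0`. `hline_col`: the same with vectors and functionals exchanged.
-/

namespace Pool.Agent.H.MP_bb4c62_an.QP

open Pool.Agent.H.MP_bb4c62_an.helper6.NL
open Pool.Agent.H.MP_bb4c62_an.helper6.Perturb
open Pool.Agent.H.MP_bb4c62_an.helper6.Gadgets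

variable {X : Type*} [NormedAddCommGroup X] [NormedSpace ℂ X]

private theorem Lines_span {V : Type*} [AddCommGroup V] [Module ℂ V] {f g h1 h2 h : V}
    (m1 : h1 ∈ Submodule.span ℂ {f, g}) (m2 : h2 ∈ Submodule.span ℂ {f, g})
    (m : h ∈ Submodule.span ℂ {f, g}) (hn : h1 ≠ 0) (hp : ¬ ∃ c : ℂ, h2 = c • h1) :
    ∃ a b : ℂ, h = a • h1 + b • h2 := by
  obtain ⟨a1, b1, rfl⟩ := Submodule.mem_span_pair.1 m1
  obtain ⟨a2, b2, rfl⟩ := Submodule.mem_span_pair.1 m2
  obtain ⟨a, b, rfl⟩ := Submodule.mem_span_pair.1 m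
  have hD : a1 * b2 - a2 * b1 ≠ 0 := by
    intro hD
    apply hp
    by_cases h0 : a1 = 0
    · have hb : b1 ≠ 0 := by
        rintro rfl
        apply hn
        rw [h0, zero_smul, zero_smul, add_zero]
      have ha2 : a2 = 0 := by
        rw [h0, zero_mul, zero_sub, neg_eq_zero] at hD
        rcases mul_eq_zero.1 hD with h3 | h3
        · exact h3
        · exact absurd h3 hb
      refine ⟨b2 / b1, ?_⟩
      rw [h0, ha2, zero_smul, zero_add, zero_add, smul_smul, div_mul_cancel₀ _ hb]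
    · refine ⟨a2 / a1, ?_⟩
      have h3 : b2 = a2 / a1 * b1 := by
        field_simp
        linear_combination hD
      rw [smul_add, smul_smul, smul_smul, div_mul_cancel₀ _ h0, ← h3]
  obtain ⟨c1, hc1⟩ : ∃ c, c = (a * b2 - b * a2) / (a1 * b2 - a2 * b1) := ⟨_, rfl⟩
  obtain ⟨c2, hc2⟩ : ∃ c, c = (b * a1 - a * b1) / (a1 * b2 - a2 * b1) := ⟨_, rfl⟩
  have e1 : c1 * a1 + c2 * a2 = a := by
    rw [hc1, hc2, div_mul_eq_mul_div, div_mul_eq_mul_div, ← add_div, div_eq_iff hD]
    ring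
  have e2 : c1 * b1 + c2 * b2 = b := by
    rw [hc1, hc2, div_mul_eq_mul_div, div_mul_eq_mul_div, ← add_div, div_eq_iff hD]
    ring
  refine ⟨c1, c2, ?_⟩
  rw [← e1, ← e2]
  module

private theorem Lines_comb {V : Type*} [AddCommGroup V] [Module ℂ V] {f g : V} (hf : f ≠ 0)
    (hfg : ¬ ∃ c : ℂ, g = c • f) (α β : ℂ) :
    ∃ a b : ℂ, a • f + b • g ≠ 0 ∧ a * α + b * β = 0 := by
  by_cases h : α = 0 ∧ β = 0
  · refine ⟨1, 0, ?_, ?_⟩
    · rw [one_smul, zero_smul, add_zero]
      exact hf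
    · rw [h.1, h.2, mul_zero, mul_zero, add_zero]
  · refine ⟨β, -α, ?_, by ring⟩
    intro h0
    have h1 : β • f = α • g := by
      rw [neg_smul, ← sub_eq_add_neg, sub_eq_zero] at h0
      exact h0
    by_cases hα : α = 0
    · rw [hα, zero_smul] at h1
      rcases smul_eq_zero.1 h1 with h2 | h2
      · exact h ⟨hα, h2⟩
      · exact hf h2
    · apply hfg
      refine ⟨α⁻¹ * β, ?_⟩
      rw [mul_smul, h1, smul_smul, inv_mul_cancel₀ hα, one_smul]

private theorem Lines_prp [CompleteSpace X] {k : ℕ} {w : X} {h : X →L[ℂ] ℂ} {S : X →L[ℂ] X} :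
    Prp k (ten w h) S ↔ h ((S ^ k) w) = 0 := by
  unfold Prp
  rw [ten_mul, qn_ten_iff]
  rfl

private theorem Lines_dep [CompleteSpace X] {k : ℕ} (hR : Rich X k) {A B C : X →L[ℂ] X}
    (h : Dep k A B C) (y : X) (l : X →L[ℂ] ℂ) (hA : l (A y) = 0) (hB : l (B y) = 0) :
    l (C y) = 0 := by
  obtain ⟨S, hS⟩ := hR.one y l
  have key : ∀ T : X →L[ℂ] X, Prp k T S ↔ l (T y) = 0 := by
    intro T
    unfold Prp
    rw [hS, mul_ten, qn_ten_iff]
  exact (key C).1 (h S ((key A).2 hA) ((key B).2 hB))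

private theorem Lines_one {w : X} (hw : w ≠ 0) : ∃ η : X →L[ℂ] ℂ, η w = 1 := by
  have hli : LinearIndependent ℂ ![w] := by
    rw [linearIndependent_unique_iff]
    exact hw
  obtain ⟨f, hf⟩ := exists_dual hli ![1]
  exact ⟨f, by simpa using hf 0⟩

theorem hline_row [CompleteSpace X] {k : ℕ} (hR : Rich X k) {w : X} (hw : w ≠ 0)
    {f g : X →L[ℂ] ℂ} (hf : f ≠ 0) (hfg : ¬ ∃ c : ℂ, g = c • f) :
    HLine k {T : X →L[ℂ] X | ∃ h : X →L[ℂ] ℂ, h ≠ 0 ∧ h ∈ Submodule.span ℂ {f, g} ∧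
      T = ten w h} := by
  have hg : g ≠ 0 := by
    rintro rfl
    exact hfg ⟨0, (dual_zero_smul f).symm⟩
  have hprop : ∀ {h1 h2 : X →L[ℂ] ℂ} {c : ℂ}, ten w h2 = c • ten w h1 ↔ h2 = c • h1 := by
    intro h1 h2 c
    constructor
    · intro h
      obtain ⟨η, hη⟩ := Lines_one hw
      ext y
      have h3 := congrArg (fun T : X →L[ℂ] X => η (T y)) h
      simp only [_root_.smul_apply, ten_apply, map_smul, hη, smul_eq_mul, mul_one] at h3
      rw [_root_.smul_apply, smul_eq_mul]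
      exact h3
    · rintro rfl
      rw [ten_smul_right]
  refine ⟨?_, ?_, ?_⟩
  · refine ⟨ten w f, ⟨f, hf, Submodule.subset_span (by simp), rfl⟩, ten w g,
      ⟨g, hg, Submodule.subset_span (by simp), rfl⟩, ?_⟩
    rintro ⟨c, hc⟩
    exact hfg ⟨c, hprop.1 hc⟩
  · rintro A ⟨h1, n1, m1, rfl⟩ B ⟨h2, n2, m2, rfl⟩ hAB C
    have hp : ¬ ∃ c : ℂ, h2 = c • h1 := fun ⟨c, hc⟩ => hAB ⟨c, hprop.2 hc⟩
    constructor
    · rintro ⟨h, n, m, rfl⟩
      refine ⟨fun h0 => ?_, ?_⟩
      · rcases ten_eq_zero_iff.1 h0 with h3 | h3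
        · exact hw h3
        · exact n h3
      · obtain ⟨a, b, rfl⟩ := Lines_span m1 m2 m n1 hp
        intro S hA hB
        rw [Lines_prp] at hA hB ⊢
        rw [_root_.add_apply, _root_.smul_apply,
          _root_.smul_apply, hA, hB, smul_zero, smul_zero, add_zero]
    · rintro ⟨hC, hD⟩
      obtain ⟨η, hη⟩ := Lines_one hw
      have h3 : ∀ y, ∃ c : ℂ, C y = c • w := by
        intro y
        by_contra hcon
        obtain ⟨⟨l, hl1, hl2⟩, -⟩ := exists_sep' hw hcon
        have h4 := Lines_dep hR hD y l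
          (by rw [ten_apply, map_smul, hl1, smul_zero]) (by rw [ten_apply, map_smul, hl1, smul_zero])
        rw [hl2] at h4
        exact one_ne_zero h4
      have h4 : C = ten w (η.comp C) := by
        ext y
        obtain ⟨c, hc⟩ := h3 y
        rw [ten_apply, ContinuousLinearMap.comp_apply, hc, map_smul, hη, smul_eq_mul, mul_one]
      have h5 : ∀ y, h1 y = 0 → h2 y = 0 → (η.comp C) y = 0 := by
        intro y e1 e2
        exact Lines_dep hR hD y η (by rw [ten_apply, e1, zero_smul, map_zero])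
          (by rw [ten_apply, e2, zero_smul, map_zero])
      obtain ⟨a, b, hab⟩ := mem_span_dual h5
      refine ⟨η.comp C, fun h0 => ?_, ?_, h4⟩
      · apply hC
        rw [h4, h0]
        exact ten_eq_zero_iff.2 (Or.inr rfl)
      · rw [hab]
        exact Submodule.add_mem _ (Submodule.smul_mem _ _ m1) (Submodule.smul_mem _ _ m2)
  · intro S
    obtain ⟨a, b, hne, h0⟩ := Lines_comb hf hfg (f ((S ^ k) w)) (g ((S ^ k) w))
    refine ⟨ten w (a • f + b • g), ⟨a • f + b • g, hne, Submodule.mem_span_pair.2 ⟨a, b, rfl⟩, rfl⟩,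
      ?_⟩
    rw [Lines_prp, _root_.add_apply, _root_.smul_apply,
      _root_.smul_apply, smul_eq_mul, smul_eq_mul]
    exact h0

theorem hline_col [CompleteSpace X] {k : ℕ} (hR : Rich X k) {x y : X} (hx : x ≠ 0)
    (hxy : ¬ ∃ c : ℂ, y = c • x) {f : X →L[ℂ] ℂ} (hf : f ≠ 0) :
    HLine k {T : X →L[ℂ] X | ∃ z : X, z ≠ 0 ∧ z ∈ Submodule.span ℂ {x, y} ∧
      T = ten z f} := by
  have hy : y ≠ 0 := by
    rintro rfl
    exact hxy ⟨0, by rw [zero_smul]⟩
  obtain ⟨v0, hv0⟩ : ∃ v, f v = 1 := by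
    obtain ⟨v, hv⟩ : ∃ v, f v ≠ 0 := by
      by_contra hcon
      push Not at hcon
      exact hf (ContinuousLinearMap.ext hcon)
    exact ⟨(f v)⁻¹ • v, by rw [map_smul, smul_eq_mul, inv_mul_cancel₀ hv]⟩
  have hprop : ∀ {z1 z2 : X} {c : ℂ}, ten z2 f = c • ten z1 f ↔ z2 = c • z1 := by
    intro z1 z2 c
    constructor
    · intro h
      have h3 := congrArg (fun T : X →L[ℂ] X => T v0) h
      simp only [_root_.smul_apply, ten_apply, hv0, one_smul] at h3
      exact h3
    · rintro rfl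
      rw [ten_smul_left]
  refine ⟨?_, ?_, ?_⟩
  · refine ⟨ten x f, ⟨x, hx, Submodule.subset_span (by simp), rfl⟩, ten y f,
      ⟨y, hy, Submodule.subset_span (by simp), rfl⟩, ?_⟩
    rintro ⟨c, hc⟩
    exact hxy ⟨c, hprop.1 hc⟩
  · rintro A ⟨z1, n1, m1, rfl⟩ B ⟨z2, n2, m2, rfl⟩ hAB C
    have hp : ¬ ∃ c : ℂ, z2 = c • z1 := fun ⟨c, hc⟩ => hAB ⟨c, hprop.2 hc⟩
    constructor
    · rintro ⟨z, n, m, rfl⟩
      refine ⟨fun h0 => ?_, ?_⟩
      · rcases ten_eq_zero_iff.1 h0 with h3 | h3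
        · exact n h3
        · exact hf h3
      · obtain ⟨a, b, rfl⟩ := Lines_span m1 m2 m n1 hp
        intro S hA hB
        rw [Lines_prp] at hA hB ⊢
        rw [map_add, map_smul, map_smul, map_add, map_smul, map_smul, hA, hB, smul_zero,
          smul_zero, add_zero]
    · rintro ⟨hC, hD⟩
      have h3 : ∀ v, f v = 0 → C v = 0 := by
        intro v hv
        by_contra hcon
        obtain ⟨l, hl⟩ := Lines_one hcon
        have h4 := Lines_dep hR hD v l (by rw [ten_apply, hv, zero_smul, map_zero])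
          (by rw [ten_apply, hv, zero_smul, map_zero])
        rw [hl] at h4
        exact one_ne_zero h4
      have h4 : C = ten (C v0) f := by
        ext v
        have h5 : C (v - f v • v0) = 0 := h3 _ (by
          rw [map_sub, map_smul, hv0, smul_eq_mul, mul_one, sub_self])
        rw [map_sub, map_smul, sub_eq_zero] at h5
        rw [ten_apply, h5]
      have h5 : C v0 ∈ Submodule.span ℂ {z1, z2} := by
        by_contra hcon
        obtain ⟨l, hl1, hl2⟩ := exists_sep_sub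
          (Submodule.fg_span (Set.toFinite {z1, z2})) hcon
        have e1 : l z1 = 0 := hl1 _ (Submodule.subset_span (by simp))
        have e2 : l z2 = 0 := hl1 _ (Submodule.subset_span (by simp))
        have h6 := Lines_dep hR hD v0 l (by rw [ten_apply, map_smul, e1, smul_zero])
          (by rw [ten_apply, map_smul, e2, smul_zero])
        rw [hl2] at h6
        exact one_ne_zero h6
      refine ⟨C v0, fun h0 => ?_, ?_, h4⟩
      · apply hC
        rw [h4, h0]
        exact ten_eq_zero_iff.2 (Or.inl rfl)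
      · obtain ⟨a, b, hab⟩ := Submodule.mem_span_pair.1 h5
        rw [← hab]
        exact Submodule.add_mem _ (Submodule.smul_mem _ _ m1) (Submodule.smul_mem _ _ m2)
  · intro S
    obtain ⟨a, b, hne, h0⟩ := Lines_comb hx hxy (f ((S ^ k) x)) (f ((S ^ k) y))
    refine ⟨ten (a • x + b • y) f, ⟨a • x + b • y, hne, Submodule.mem_span_pair.2 ⟨a, b, rfl⟩, rfl⟩,
      ?_⟩
    rw [Lines_prp, map_add, map_smul, map_smul, map_add, map_smul, map_smul, smul_eq_mul,
      smul_eq_mul]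
    exact h0

end Pool.Agent.H.MP_bb4c62_an.QP
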