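import Pool.Agent.H.MP_bb4c62_an.QP.Basic

/-!
# Module QP/PData: from projective data to semilinear maps

`std`: `ftpg` (helper28/NFtag) for `p`. `hinj`: if `p x' = d • p x` then `P x e' = 0` implies `P x' e' = 0`
(`inc`), so `x'` is in the span of `x` (`sep`). `hproj`: `p (c • x)` is a multiple of `p x`: otherwise there is a
functional `g` with `g (p x) = 0`, `g (p (c • x)) = 1` (`exists_sep'`), `g = d • q e'` (`qsurj`), contradiction
to `inc`. `hcol`: `z` is in the span of `x`, `x'` iff `P x e' = 0`, `P x' e' = 0` imply `P z e' = 0` (`sep`), the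
same for `p z` and functionals (`exists_sep_sub` in helper6/NLine1), `inc` and `qsurj`. `f0 = P · e0` for an
`e0` with `P x e0 ≠ 0` for some `x` (`sep` with `0`, `0`, `x`), `g0 = q e0`.

`Q e' = (τ (P x0 e')) • (q e' (S x0))⁻¹ • q e'` for an `x0` with `P x0 e' ≠ 0` (for `P · e' = 0`: then `q e' (p e) = 0`
for all `e`, so `q e' = 0` (`psurj`) and `e' = 0` by `q0`; `Q 0 = 0`). `Q e' (S x) = τ (P x e')`: write
`x = c • x0 + x1` with `P x1 e' = 0`; `S x1` is a multiple of `p x1` or `0`, so `q e' (S x1) = 0`.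
Last statement: `g = d • q e'`, `q e'` is a multiple of `Q e'`, and `a • Q e' = Q (τ⁻¹ a • e')` (compare the values in
all `S x`).
-/

namespace Pool.Agent.H.MP_bb4c62_an.QP

open Pool.Agent.H.MP_bb4c62_an.helper6.NL
open Pool.Agent.H.MP_bb4c62_an.helper6.Perturb
open Pool.Agent.H.MP_bb4c62_an.helper6.Gadgets

variable {Y : Type*} [NormedAddCommGroup Y] [NormedSpace ℂ Y]
variable {E E' : Type*} [AddCommGroup E] [Module ℂ E] [AddCommGroup E'] [Module ℂ E']

structure PData (P : E →ₗ[ℂ] E' →ₗ[ℂ] ℂ) (p : E → Y) (q : E' → (Y →L[ℂ] ℂ)) : Prop where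
  p0 : ∀ e, e ≠ 0 → p e ≠ 0
  q0 : ∀ e, e ≠ 0 → q e ≠ 0
  inc : ∀ e e', e ≠ 0 → e' ≠ 0 → (P e e' = 0 ↔ q e' (p e) = 0)
  psurj : ∀ y : Y, y ≠ 0 → ∃ e, e ≠ 0 ∧ ∃ d : ℂ, y = d • p e
  qsurj : ∀ g : Y →L[ℂ] ℂ, g ≠ 0 → ∃ e', e' ≠ 0 ∧ ∃ d : ℂ, g = d • q e'
  sep : ∀ x x' z : E, (∀ e', P x e' = 0 → P x' e' = 0 → P z e' = 0) →
    z ∈ Submodule.span ℂ {x, x'}

/-- the semilinear maps attached to the data -/
structure PStd (P : E →ₗ[ℂ] E' →ₗ[ℂ] ℂ) (p : E → Y) (q : E' → (Y →L[ℂ] ℂ)) (τ : ℂ ≃+* ℂ)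
    (S : E ≃+ Y) (Q : E' → (Y →L[ℂ] ℂ)) : Prop where
  semi : ∀ (c : ℂ) x, S (c • x) = τ c • S x
  Sp : ∀ x, x ≠ 0 → ∃ d : ℂ, d ≠ 0 ∧ S x = d • p x
  Qm : ∀ e', e' ≠ 0 → ∃ d : ℂ, d ≠ 0 ∧ Q e' = d • q e'
  pair : ∀ x e', Q e' (S x) = τ (P x e')
  surj : ∀ g : Y →L[ℂ] ℂ, ∃ e', g = Q e'

variable {P : E →ₗ[ℂ] E' →ₗ[ℂ] ℂ} {p : E → Y} {q : E' → (Y →L[ℂ] ℂ)}

theorem PData_nd (D : PData P p q) {e' : E'} (he' : e' ≠ 0) : ∃ x, P x e' = 1 := by
  by_contra hcon
  push Not at hcon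
  have h0 : ∀ x, P x e' = 0 := by
    intro x
    by_contra hx
    apply hcon ((P x e')⁻¹ • x)
    rw [map_smul, LinearMap.smul_apply, smul_eq_mul, inv_mul_cancel₀ hx]
  apply D.q0 e' he'
  ext y
  by_cases hy : y = 0
  · rw [hy, map_zero, map_zero]
  · obtain ⟨e, he, d, hd⟩ := D.psurj y hy
    rw [hd, map_smul, (D.inc e e' he he').1 (h0 e), smul_zero]
    rfl

/-- `Q` from `S` -/
theorem PData.ofS (D : PData P p q) (τ : ℂ ≃+* ℂ) (S : E ≃+ Y)
    (semi : ∀ (c : ℂ) x, S (c • x) = τ c • S x)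
    (Sp : ∀ x, x ≠ 0 → ∃ d : ℂ, d ≠ 0 ∧ S x = d • p x) :
    ∃ Q : E' → (Y →L[ℂ] ℂ), PStd P p q τ S Q := by
  classical
  have hg : ∀ f : E', f ≠ 0 → ∃ k : ℂ, k ≠ 0 ∧ ∀ x, q f (S x) = k * τ (P x f) := by
    intro f hf
    obtain ⟨z, hz⟩ := PData_nd D hf
    have hz0 : z ≠ 0 := by
      rintro rfl
      rw [map_zero, LinearMap.zero_apply] at hz
      exact zero_ne_one hz
    refine ⟨q f (S z), ?_, ?_⟩
    · obtain ⟨d, hd, hd'⟩ := Sp z hz0
      rw [hd', map_smul, smul_eq_mul]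
      apply mul_ne_zero hd
      intro h
      have h1 := (D.inc z f hz0 hf).2 h
      rw [hz] at h1
      exact one_ne_zero h1
    · intro x
      have hker : q f (S (x - P x f • z)) = 0 := by
        by_cases hx : x - P x f • z = 0
        · rw [hx, map_zero, map_zero]
        · obtain ⟨d, hd, hd'⟩ := Sp _ hx
          have h0 : P (x - P x f • z) f = 0 := by
            rw [map_sub, map_smul, LinearMap.sub_apply, LinearMap.smul_apply, hz, smul_eq_mul,
              mul_one, sub_self]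
          rw [hd', map_smul, (D.inc _ f hx hf).1 h0, smul_zero]
      have hxd : x = (x - P x f • z) + P x f • z := by abel
      conv_lhs => rw [hxd]
      rw [map_add, map_add, hker, zero_add, semi, map_smul, smul_eq_mul, mul_comm]
  choose! k hk0 hk using hg
  obtain ⟨Q, hQ⟩ : ∃ Q : E' → (Y →L[ℂ] ℂ), Q = fun f => if f = 0 then 0 else (k f)⁻¹ • q f :=
    ⟨_, rfl⟩
  have hQ0 : Q 0 = 0 := by
    rw [hQ]
    exact if_pos rfl
  have hQ1 : ∀ f, f ≠ 0 → Q f = (k f)⁻¹ • q f := by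
    intro f hf
    rw [hQ]
    exact if_neg hf
  have hQS : ∀ x f, Q f (S x) = τ (P x f) := by
    intro x f
    by_cases hf : f = 0
    · rw [hf, hQ0, map_zero, map_zero]
      rfl
    · rw [hQ1 f hf]
      show (k f)⁻¹ * q f (S x) = _
      rw [hk f hf, ← mul_assoc, inv_mul_cancel₀ (hk0 f hf), one_mul]
  refine ⟨Q, semi, Sp, ?_, hQS, ?_⟩
  · intro f hf
    exact ⟨(k f)⁻¹, inv_ne_zero (hk0 f hf), hQ1 f hf⟩
  · intro g
    by_cases hg0 : g = 0
    · exact ⟨0, by rw [hg0, hQ0]⟩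
    · obtain ⟨f, hf, d, hd⟩ := D.qsurj g hg0
      refine ⟨τ.symm (d * k f) • f, ?_⟩
      ext y
      obtain ⟨x, rfl⟩ := S.surjective y
      rw [hQS, map_smul, smul_eq_mul, map_mul, RingEquiv.apply_symm_apply, hd]
      show d * q f (S x) = _
      rw [hk f hf]
      ring

theorem PData.std (D : PData P p q) (h3 : ∃ v : Fin 3 → E, LinearIndependent ℂ v) :
    ∃ (τ : ℂ ≃+* ℂ) (S : E ≃+ Y) (Q : E' → (Y →L[ℂ] ℂ)), PStd P p q τ S Q := by
  have hproj : ∀ x (c : ℂ), x ≠ 0 → c ≠ 0 → ∃ d : ℂ, p (c • x) = d • p x := by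
    intro x c hx hc
    by_contra hcon
    obtain ⟨⟨η, hη1, hη2⟩, -⟩ := exists_sep' (D.p0 x hx) hcon
    have hη : η ≠ 0 := by
      rintro rfl
      exact zero_ne_one hη2
    obtain ⟨f, hf, d, hd⟩ := D.qsurj η hη
    have hd0 : d ≠ 0 := by
      rintro rfl
      rw [dual_zero_smul] at hd
      exact hη hd
    have e1 : q f (p x) = 0 := by
      rw [hd] at hη1
      have h1 : d * q f (p x) = 0 := hη1
      exact (mul_eq_zero.mp h1).resolve_left hd0
    have e2 : P (c • x) f = 0 := by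
      rw [map_smul, LinearMap.smul_apply, (D.inc x f hx hf).2 e1, smul_zero]
    have e3 := (D.inc (c • x) f (smul_ne_zero hc hx) hf).1 e2
    rw [hd] at hη2
    have h2 : d * q f (p (c • x)) = 1 := hη2
    rw [e3, mul_zero] at h2
    exact zero_ne_one h2
  have hinj : ∀ x x', x ≠ 0 → x' ≠ 0 → (∃ d : ℂ, p x' = d • p x) → ∃ c : ℂ, x' = c • x := by
    rintro x x' hx hx' ⟨d, hd⟩
    have hmem := D.sep x x x' (by
      intro f h _
      by_cases hf : f = 0
      · rw [hf, map_zero]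
      · rw [D.inc x' f hx' hf, hd, map_smul, (D.inc x f hx hf).1 h, smul_zero])
    rw [Submodule.mem_span_pair] at hmem
    obtain ⟨a, b, hab⟩ := hmem
    exact ⟨a + b, by rw [← hab, add_smul]⟩
  have hcol : ∀ x x' z, x ≠ 0 → x' ≠ 0 → z ≠ 0 →
      (z ∈ Submodule.span ℂ {x, x'} ↔ p z ∈ Submodule.span ℂ {p x, p x'}) := by
    intro x x' z hx hx' hz
    constructor
    · intro hmem
      by_contra hcon
      obtain ⟨g, hg1, hg3⟩ := exists_sep_sub (M := Submodule.span ℂ {p x, p x'})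
        (Submodule.fg_span (Set.toFinite _)) hcon
      have hg : g ≠ 0 := by
        rintro rfl
        exact zero_ne_one hg3
      obtain ⟨f, hf, d, hgd⟩ := D.qsurj g hg
      have hd : d ≠ 0 := by
        rintro rfl
        rw [dual_zero_smul] at hgd
        exact hg hgd
      have hm : ∀ y ∈ Submodule.span ℂ {p x, p x'}, q f y = 0 := by
        intro y hy
        have h1 := hg1 y hy
        rw [hgd] at h1
        have h2 : d * q f y = 0 := h1
        exact (mul_eq_zero.mp h2).resolve_left hd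
      have e1 : P x f = 0 :=
        (D.inc x f hx hf).2 (hm _ (Submodule.subset_span (Set.mem_insert _ _)))
      have e2 : P x' f = 0 :=
        (D.inc x' f hx' hf).2
          (hm _ (Submodule.subset_span (Set.mem_insert_of_mem _ (Set.mem_singleton _))))
      have e3 : P z f = 0 := by
        rw [Submodule.mem_span_pair] at hmem
        obtain ⟨a, b, hab⟩ := hmem
        rw [← hab, map_add, map_smul, map_smul, LinearMap.add_apply, LinearMap.smul_apply,
          LinearMap.smul_apply, e1, e2, smul_zero, smul_zero, add_zero]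
      rw [hgd] at hg3
      have h4 : d * q f (p z) = 1 := hg3
      rw [(D.inc z f hz hf).1 e3, mul_zero] at h4
      exact zero_ne_one h4
    · intro hmem
      apply D.sep
      intro f h h'
      by_cases hf : f = 0
      · rw [hf, map_zero]
      rw [D.inc z f hz hf]
      rw [D.inc x f hx hf] at h
      rw [D.inc x' f hx' hf] at h'
      rw [Submodule.mem_span_pair] at hmem
      obtain ⟨a, b, hab⟩ := hmem
      rw [← hab, map_add, map_smul, map_smul, h, h', smul_zero, smul_zero, add_zero]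
  obtain ⟨e0, x0, hx0⟩ : ∃ (e0 : E') (x0 : E), P x0 e0 ≠ 0 := by
    obtain ⟨v, hv⟩ := h3
    by_contra hcon
    push Not at hcon
    have hmem := D.sep 0 0 (v 0) (fun f _ _ => hcon f (v 0))
    rw [Submodule.mem_span_pair] at hmem
    obtain ⟨a, b, hab⟩ := hmem
    rw [smul_zero, smul_zero, add_zero] at hab
    exact hv.ne_zero 0 hab.symm
  have he0 : e0 ≠ 0 := by
    rintro rfl
    exact hx0 (map_zero _)
  obtain ⟨τ, S, hS, hSp⟩ := ftpg h3 p D.p0 hproj hinj D.psurj hcol (P.flip e0)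
    (q e0 : Y →ₗ[ℂ] ℂ) (by
      intro h
      have h1 : P.flip e0 x0 = 0 := by
        rw [h]
        rfl
      exact hx0 h1) (fun x hx => (D.inc x e0 hx he0).symm)
  obtain ⟨Q, hQ⟩ := D.ofS τ S hS hSp
  exact ⟨τ, S, Q, hQ⟩

end Pool.Agent.H.MP_bb4c62_an.QP
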