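import Pool.Agent.H.MP_bb4c62_an.QP.HLine
import Pool.Agent.H.MP_bb4c62_an.QP.Lines

/-!
# Module QP/Trans: the maps transfer H-lines and adjacency
-/

namespace Pool.Agent.H.MP_bb4c62_an.QP

open Pool.Agent.H.MP_bb4c62_an.helper6.NL
open Pool.Agent.H.MP_bb4c62_an.helper6.Perturb
open Pool.Agent.H.MP_bb4c62_an.helper6.Gadgets

variable {X : Type*} [NormedAddCommGroup X] [NormedSpace ℂ X]
variable {Y : Type*} [NormedAddCommGroup Y] [NormedSpace ℂ Y]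

theorem Trans_zero [CompleteSpace X] {k : ℕ} (hR : Rich X k) (T : X →L[ℂ] X) :
    (∀ S, Prp k T S) ↔ T = 0 := by
  constructor
  · intro h
    ext x
    by_contra hx
    obtain ⟨g, hg⟩ := SeparatingDual.exists_eq_one (R := ℂ) hx
    obtain ⟨S, hS⟩ := hR.one x g
    rw [(HLine_prp hS).mp (h S)] at hg
    exact zero_ne_one hg
  · rintro rfl S
    unfold Prp
    rw [zero_mul]
    exact qn_zero

theorem Trans_smul [CompleteSpace X] {k : ℕ} {T S : X →L[ℂ] X} (h : Prp k T S) (c : ℂ) :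
    Prp k (c • T) S := by
  unfold Prp at h ⊢
  rw [smul_mul_assoc]
  exact qn_smul h c

theorem Trans_smul_iff [CompleteSpace X] {k : ℕ} {T S : X →L[ℂ] X} {c : ℂ} (hc : c ≠ 0) :
    Prp k (c • T) S ↔ Prp k T S := by
  refine ⟨fun h => ?_, fun h => Trans_smul h c⟩
  have h1 := Trans_smul h c⁻¹
  rw [smul_smul, inv_mul_cancel₀ hc, one_smul] at h1
  exact h1

theorem Trans_par [CompleteSpace X] {k : ℕ} (hR : Rich X k) (T S : X →L[ℂ] X) :
    (∀ R, Prp k T R → Prp k S R) ↔ ∃ c : ℂ, S = c • T := by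
  constructor
  · intro h
    have h1 : ∀ (x : X) (g : X →L[ℂ] ℂ), g (T x) = 0 → g (S x) = 0 := by
      intro x g hg
      obtain ⟨R, hS⟩ := hR.one x g
      exact (HLine_prp hS).mp (h R ((HLine_prp hS).mpr hg))
    obtain ⟨c, hc⟩ := mul_of_local (T : X →ₗ[ℂ] X) (S : X →ₗ[ℂ] X) fun x => by
      show ∃ c : ℂ, S x = c • T x
      by_cases h0 : T x = 0
      · refine ⟨0, ?_⟩
        rw [zero_smul]
        by_contra hx
        obtain ⟨g, hg⟩ := SeparatingDual.exists_eq_one (R := ℂ) hx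
        rw [h1 x g (by rw [h0, map_zero])] at hg
        exact zero_ne_one hg
      · by_contra hcon
        obtain ⟨g, hg, hg'⟩ := (exists_sep' h0 hcon).1
        rw [h1 x g hg] at hg'
        exact zero_ne_one hg'
    exact ⟨c, by ext x; exact hc x⟩
  · rintro ⟨c, rfl⟩ R hR'
    exact Trans_smul hR' c

theorem Pres.zero_iff [CompleteSpace X] [CompleteSpace Y] {k : ℕ} (hX : Rich X k)
    (hY : Rich Y k) {φ : (X →L[ℂ] X) → (Y →L[ℂ] Y)} (h : Pres k φ) (T : X →L[ℂ] X) :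
    φ T = 0 ↔ T = 0 := by
  rw [← Trans_zero hY, ← Trans_zero hX]
  constructor
  · intro h1 S
    exact (h.iff T S).mp (h1 (φ S))
  · intro h1 S
    obtain ⟨S, rfl⟩ := h.surj S
    exact (h.iff T S).mpr (h1 S)

theorem Pres.par_iff [CompleteSpace X] [CompleteSpace Y] {k : ℕ} (hX : Rich X k)
    (hY : Rich Y k) {φ : (X →L[ℂ] X) → (Y →L[ℂ] Y)} (h : Pres k φ) (T S : X →L[ℂ] X) :
    (∃ c : ℂ, φ S = c • φ T) ↔ ∃ c : ℂ, S = c • T := by
  rw [← Trans_par hY, ← Trans_par hX]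
  constructor
  · intro h1 R hR
    exact (h.iff S R).mp (h1 (φ R) ((h.iff T R).mpr hR))
  · intro h1 R
    obtain ⟨R, rfl⟩ := h.surj R
    intro hR
    exact (h.iff S R).mpr (h1 R ((h.iff T R).mp hR))

theorem Pres.dep_iff {k : ℕ} {φ : (X →L[ℂ] X) → (Y →L[ℂ] Y)} (h : Pres k φ)
    (A B C : X →L[ℂ] X) : Dep k (φ A) (φ B) (φ C) ↔ Dep k A B C := by
  constructor
  · intro h1 R h2 h3
    exact (h.iff C R).mp (h1 (φ R) ((h.iff A R).mpr h2) ((h.iff B R).mpr h3))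
  · intro h1 R
    obtain ⟨R, rfl⟩ := h.surj R
    intro h2 h3
    exact (h.iff C R).mpr (h1 R ((h.iff A R).mp h2) ((h.iff B R).mp h3))

theorem Pres.hline_pre [CompleteSpace X] [CompleteSpace Y] {k : ℕ} (hX : Rich X k)
    (hY : Rich Y k) {φ : (X →L[ℂ] X) → (Y →L[ℂ] Y)} (h : Pres k φ) {ℓ : Set (Y →L[ℂ] Y)}
    (hℓ : HLine k ℓ) : HLine k (φ ⁻¹' ℓ) where
  two := by
    obtain ⟨A, hA, B, hB, hAB⟩ := hℓ.two
    obtain ⟨A, rfl⟩ := h.surj A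
    obtain ⟨B, rfl⟩ := h.surj B
    exact ⟨A, hA, B, hB, fun h1 => hAB ((h.par_iff hX hY A B).mpr h1)⟩
  gen := by
    intro A hA B hB hAB C
    have h1 := hℓ.gen (φ A) hA (φ B) hB (fun h1 => hAB ((h.par_iff hX hY A B).mp h1)) (φ C)
    rw [h.dep_iff, Ne, h.zero_iff hX hY] at h1
    exact h1
  meet := by
    intro S
    obtain ⟨U, hU, hUS⟩ := hℓ.meet (φ S)
    obtain ⟨U, rfl⟩ := h.surj U
    exact ⟨U, hU, (h.iff U S).mp hUS⟩

theorem Pres.hline_im [CompleteSpace X] [CompleteSpace Y] {k : ℕ} (hX : Rich X k)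
    (hY : Rich Y k) {φ : (X →L[ℂ] X) → (Y →L[ℂ] Y)} (h : Pres k φ) {ℓ : Set (X →L[ℂ] X)}
    (hℓ : HLine k ℓ) :
    HLine k {T' : Y →L[ℂ] Y | T' ≠ 0 ∧ ∃ V ∈ ℓ, ∃ c : ℂ, T' = c • φ V} where
  two := by
    obtain ⟨A, hA, B, hB, hAB⟩ := hℓ.two
    refine ⟨φ A, ⟨?_, A, hA, 1, by rw [one_smul]⟩, φ B, ⟨?_, B, hB, 1, by rw [one_smul]⟩,
      fun h1 => hAB ((h.par_iff hX hY A B).mp h1)⟩
    · rw [Ne, h.zero_iff hX hY]
      exact HLine_ne hℓ hA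
    · rw [Ne, h.zero_iff hX hY]
      exact HLine_ne hℓ hB
  gen := by
    rintro A' ⟨hA0, A, hA, a, rfl⟩ B' ⟨hB0, B, hB, b, rfl⟩ hAB C'
    have ha : a ≠ 0 := by
      rintro rfl
      exact hA0 (zero_smul _ _)
    have hb : b ≠ 0 := by
      rintro rfl
      exact hB0 (zero_smul _ _)
    have hAB' : ¬ ∃ c : ℂ, B = c • A := by
      intro h1
      obtain ⟨c, hc⟩ := (h.par_iff hX hY A B).mpr h1
      apply hAB
      refine ⟨b * c * a⁻¹, ?_⟩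
      rw [hc, smul_smul, smul_smul, mul_assoc _ a⁻¹, inv_mul_cancel₀ ha, mul_one]
    obtain ⟨C, rfl⟩ := h.surj C'
    have hdep : Dep k (a • φ A) (b • φ B) (φ C) ↔ Dep k A B C := by
      rw [← h.dep_iff A B C]
      constructor
      · intro h1 R h2 h3
        exact h1 R (Trans_smul h2 a) (Trans_smul h3 b)
      · intro h1 R h2 h3
        exact h1 R ((Trans_smul_iff ha).mp h2) ((Trans_smul_iff hb).mp h3)
    rw [hdep]
    constructor
    · rintro ⟨hC0, V, hV, c, hc⟩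
      refine ⟨hC0, ?_⟩
      obtain ⟨d, hd⟩ := (h.par_iff hX hY V C).mp ⟨c, hc⟩
      have h1 := ((hℓ.gen A hA B hB hAB' V).mp hV).2
      intro R h2 h3
      rw [hd]
      exact Trans_smul (h1 R h2 h3) d
    · rintro ⟨hC0, h1⟩
      refine ⟨hC0, C, ?_, 1, by rw [one_smul]⟩
      refine (hℓ.gen A hA B hB hAB' C).mpr ⟨?_, h1⟩
      intro h2
      exact hC0 ((h.zero_iff hX hY C).mpr h2)
  meet := by
    intro S
    obtain ⟨S, rfl⟩ := h.surj S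
    obtain ⟨U, hU, hUS⟩ := hℓ.meet S
    refine ⟨φ U, ⟨?_, U, hU, 1, by rw [one_smul]⟩, (h.iff U S).mpr hUS⟩
    rw [Ne, h.zero_iff hX hY]
    exact HLine_ne hℓ hU

theorem Trans_line [CompleteSpace X] {k : ℕ} (hX : Rich X k) {A B : X →L[ℂ] X}
    (hA : A ≠ 0) (hB : B ≠ 0) (hAB : ¬ ∃ c : ℂ, B = c • A) (h : Adj A B) :
    ∃ ℓ, HLine k ℓ ∧ A ∈ ℓ ∧ B ∈ ℓ := by
  rcases h with ⟨w, f, g, rfl, rfl⟩ | ⟨w, z, f, rfl, rfl⟩
  · rw [Ne, ten_eq_zero_iff, not_or] at hA hB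
    refine ⟨_, hline_row hX hA.1 hA.2 (g := g) ?_, ⟨f, hA.2, Submodule.subset_span (by simp), rfl⟩,
      ⟨g, hB.2, Submodule.subset_span (by simp), rfl⟩⟩
    rintro ⟨c, rfl⟩
    exact hAB ⟨c, ten_smul_right c w f⟩
  · rw [Ne, ten_eq_zero_iff, not_or] at hA hB
    refine ⟨_, hline_col hX hA.1 (y := z) ?_ hA.2, ⟨w, hA.1, Submodule.subset_span (by simp), rfl⟩,
      ⟨z, hB.1, Submodule.subset_span (by simp), rfl⟩⟩
    rintro ⟨c, rfl⟩
    exact hAB ⟨c, ten_smul_left c w f⟩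

theorem Pres.adj [CompleteSpace X] [CompleteSpace Y] {k : ℕ} (hX : Rich X k)
    (hY : Rich Y k) {φ : (X →L[ℂ] X) → (Y →L[ℂ] Y)} (h : Pres k φ) {A B : X →L[ℂ] X}
    (hA : A ≠ 0) (hB : B ≠ 0) (hAB : ¬ ∃ c : ℂ, B = c • A) : Adj (φ A) (φ B) ↔ Adj A B := by
  have hAB' : ¬ ∃ c : ℂ, φ B = c • φ A := fun h1 => hAB ((h.par_iff hX hY A B).mp h1)
  have hA' : φ A ≠ 0 := fun h1 => hA ((h.zero_iff hX hY A).mp h1)
  have hB' : φ B ≠ 0 := fun h1 => hB ((h.zero_iff hX hY B).mp h1)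
  constructor
  · intro h1
    obtain ⟨ℓ, hℓ, h2, h3⟩ := Trans_line hY hA' hB' hAB' h1
    exact hline_adj hX (h.hline_pre hX hY hℓ) h2 h3 hAB
  · intro h1
    obtain ⟨ℓ, hℓ, h2, h3⟩ := Trans_line hX hA hB hAB h1
    exact hline_adj hY (h.hline_im hX hY hℓ) ⟨hA', A, h2, 1, by rw [one_smul]⟩
      ⟨hB', B, h3, 1, by rw [one_smul]⟩ hAB'

end Pool.Agent.H.MP_bb4c62_an.QP
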