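import Pool.Agent.H.MP_bb4c62_an.QP.Trans

/-!
# Module QP/Types: the two types

Let `F x f = φ (ten x f)` for `x ≠ 0`, `f ≠ 0`. Known (module Trans): `F x f ≠ 0` (`Pres.zero_iff`); for
`x`, `f`, `f'` (`f`, `f'` not proportional) `F x f`, `F x f'` are not proportional (`Pres.par_iff`) and `Adj` (`Pres.adj`),
the same for `F x f`, `F x' f`; if both `x`, `x'` and `f`, `f'` are not proportional then `F x f`, `F x' f'` are not `Adj`.

For fixed `x` all `F x f` have a common range, or all have a common kernel, and not both (take non-proportional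
`f`, `f'`; a further `f''` is adjacent to both; for `f''` proportional to `f` use `Pres.par_iff`; compare
`rank_one_family` in helper2/NDich, `Adj A B` gives that `A - B` is a `ten`). The same for fixed `f`.
If for one `x` the `F x f` have common range `y` and for some `f` the `F x' f` have common range (the range is then `y`),
then `F x' f`, `F x f'` are adjacent for non-proportional `x`, `x'` and `f`, `f'`, a contradiction. So: either all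
rows have common range and all columns common kernel (first case: `p x` the range, `q f` the kernel), or all rows
have common kernel and all columns common range (second case).
-/

namespace Pool.Agent.H.MP_bb4c62_an.QP

open Pool.Agent.H.MP_bb4c62_an.helper6.NL
open Pool.Agent.H.MP_bb4c62_an.helper6.Perturb
open Pool.Agent.H.MP_bb4c62_an.helper6.Gadgets

variable {X : Type*} [NormedAddCommGroup X] [NormedSpace ℂ X]
variable {Y : Type*} [NormedAddCommGroup Y] [NormedSpace ℂ Y]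

private theorem types_sub {A B : Y →L[ℂ] Y} (h : Adj A B) :
    ∃ (y : Y) (g : Y →L[ℂ] ℂ), A - B = ten y g := by
  rcases h with ⟨w, f, g, hA, hB⟩ | ⟨w, z, f, hA, hB⟩
  · refine ⟨w, f - g, ?_⟩
    rw [hA, hB]
    ext v
    show f v • w - g v • w = (f v - g v) • w
    rw [sub_smul]
  · refine ⟨w - z, f, ?_⟩
    rw [hA, hB]
    ext v
    show f v • w - f v • z = f v • (w - z)
    rw [smul_sub]

/-- one row: common range or common kernel -/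
private theorem types_row {E : Type*} [AddCommGroup E] [Module ℂ E] [Nontrivial Y]
    (F : E → (Y →L[ℂ] Y))
    (hadj : ∀ f f', f ≠ 0 → f' ≠ 0 → (¬ ∃ c : ℂ, f' = c • f) → Adj (F f) (F f'))
    (hpar : ∀ f (c : ℂ), ∃ d : ℂ, F (c • f) = d • F f)
    (hex : ∀ f : E, f ≠ 0 → ∃ f', f' ≠ 0 ∧ ¬ ∃ c : ℂ, f' = c • f) :
    (∃ y : Y, y ≠ 0 ∧ ∀ f, f ≠ 0 → ∃ g : Y →L[ℂ] ℂ, F f = ten y g) ∨
    (∃ g : Y →L[ℂ] ℂ, g ≠ 0 ∧ ∀ f, f ≠ 0 → ∃ y : Y, F f = ten y g) := by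
  have hten : ∀ f, f ≠ 0 → ∃ (y : Y) (g : Y →L[ℂ] ℂ), F f = ten y g := by
    intro f hf
    obtain ⟨f', hf', hff'⟩ := hex f hf
    rcases hadj f f' hf hf' hff' with ⟨w, a, b, hA, hB⟩ | ⟨w, z, a, hA, hB⟩
    · exact ⟨w, a, hA⟩
    · exact ⟨w, a, hA⟩
  have key := rank_one_family (I := {f : E // f ≠ 0}) (fun f => F f.1)
    (fun f => hten f.1 f.2) (by
      rintro ⟨f, hf⟩ ⟨f', hf'⟩
      show ∃ (y : Y) (g : Y →L[ℂ] ℂ), F f - F f' = ten y g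
      by_cases hc : ∃ c : ℂ, f' = c • f
      · obtain ⟨c, hc⟩ := hc
        obtain ⟨d, hd⟩ := hpar f c
        obtain ⟨y, g, hg⟩ := hten f hf
        refine ⟨(1 - d) • y, g, ?_⟩
        rw [hc, hd, ten_smul_left, ← hg, sub_smul, one_smul]
      · exact types_sub (hadj f f' hf hf' hc))
  rcases key with ⟨y, hy, h⟩ | ⟨g, hg, h⟩
  · exact Or.inl ⟨y, hy, fun f hf => h ⟨f, hf⟩⟩
  · exact Or.inr ⟨g, hg, fun f hf => h ⟨f, hf⟩⟩

/-- two presentations of one operator of rank one -/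
private theorem types_two {y y' : Y} {g g' : Y →L[ℂ] ℂ} (h : ten y g = ten y' g')
    (h0 : ten y g ≠ 0) : (∃ c : ℂ, c ≠ 0 ∧ y' = c • y) ∧ (∃ c : ℂ, c ≠ 0 ∧ g' = c • g) := by
  have hy : y ≠ 0 := by
    rintro rfl
    exact h0 (ten_eq_zero_iff.mpr (Or.inl rfl))
  have hg : g ≠ 0 := by
    rintro rfl
    exact h0 (ten_eq_zero_iff.mpr (Or.inr rfl))
  have h0' : ten y' g' ≠ 0 := by rw [← h]; exact h0
  have hy' : y' ≠ 0 := by
    rintro rfl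
    exact h0' (ten_eq_zero_iff.mpr (Or.inl rfl))
  have hg' : g' ≠ 0 := by
    rintro rfl
    exact h0' (ten_eq_zero_iff.mpr (Or.inr rfl))
  have hv : ∀ v, g v • y = g' v • y' := by
    intro v
    have h1 : ten y g v = ten y' g' v := by rw [h]
    exact h1
  obtain ⟨v, hv'⟩ : ∃ v, g' v ≠ 0 := by
    by_contra hcon
    push Not at hcon
    exact hg' (by ext v; exact hcon v)
  have h1 : y' = ((g' v)⁻¹ * g v) • y := by
    rw [mul_smul, hv v, smul_smul, inv_mul_cancel₀ hv', one_smul]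
  set a : ℂ := (g' v)⁻¹ * g v with ha
  have ha0 : a ≠ 0 := by
    intro h2
    rw [h2, zero_smul] at h1
    exact hy' h1
  refine ⟨⟨a, ha0, h1⟩, a⁻¹, inv_ne_zero ha0, ?_⟩
  ext w
  have h2 := hv w
  rw [h1, smul_smul] at h2
  have h3 : g w = g' w * a := smul_left_injective ℂ hy h2
  show g' w = a⁻¹ * g w
  rw [h3, mul_comm (g' w) a, ← mul_assoc, inv_mul_cancel₀ ha0, one_mul]

/-- the abstract form of the statement -/
private theorem types_abs {E E' : Type*} [AddCommGroup E] [Module ℂ E] [AddCommGroup E']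
    [Module ℂ E'] [Nontrivial Y] (F : E → E' → (Y →L[ℂ] Y))
    (hne : ∀ x f, x ≠ 0 → f ≠ 0 → F x f ≠ 0)
    (hadj : ∀ x f f', x ≠ 0 → f ≠ 0 → f' ≠ 0 → (¬ ∃ c : ℂ, f' = c • f) → Adj (F x f) (F x f'))
    (hadj' : ∀ x x' f, x ≠ 0 → x' ≠ 0 → f ≠ 0 → (¬ ∃ c : ℂ, x' = c • x) → Adj (F x f) (F x' f))
    (hnadj : ∀ x x' f f', x ≠ 0 → x' ≠ 0 → f ≠ 0 → f' ≠ 0 → (¬ ∃ c : ℂ, x' = c • x) →
      (¬ ∃ c : ℂ, f' = c • f) → ¬ Adj (F x f') (F x' f))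
    (hpar : ∀ x f (c : ℂ), ∃ d : ℂ, F x (c • f) = d • F x f)
    (hpar' : ∀ x f (c : ℂ), ∃ d : ℂ, F (c • x) f = d • F x f)
    (hex : ∀ x : E, x ≠ 0 → ∃ x', x' ≠ 0 ∧ ¬ ∃ c : ℂ, x' = c • x)
    (hex' : ∀ f : E', f ≠ 0 → ∃ f', f' ≠ 0 ∧ ¬ ∃ c : ℂ, f' = c • f) :
    (∃ (p : E → Y) (q : E' → (Y →L[ℂ] ℂ)), (∀ x, x ≠ 0 → p x ≠ 0) ∧
      (∀ f, f ≠ 0 → q f ≠ 0) ∧ ∀ x f, x ≠ 0 → f ≠ 0 →
        ∃ d : ℂ, d ≠ 0 ∧ F x f = d • ten (p x) (q f)) ∨
    (∃ (p : E' → Y) (q : E → (Y →L[ℂ] ℂ)), (∀ f, f ≠ 0 → p f ≠ 0) ∧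
      (∀ x, x ≠ 0 → q x ≠ 0) ∧ ∀ x f, x ≠ 0 → f ≠ 0 →
        ∃ d : ℂ, d ≠ 0 ∧ F x f = d • ten (p f) (q x)) := by
  have hrow : ∀ x, x ≠ 0 → ((∃ y : Y, y ≠ 0 ∧ ∀ f, f ≠ 0 → ∃ g : Y →L[ℂ] ℂ, F x f = ten y g) ∨
      (∃ g : Y →L[ℂ] ℂ, g ≠ 0 ∧ ∀ f, f ≠ 0 → ∃ y : Y, F x f = ten y g)) := fun x hx =>
    types_row (fun f => F x f) (fun f f' hf hf' hc => hadj x f f' hx hf hf' hc)
      (fun f c => hpar x f c) hex'
  have hcol : ∀ f, f ≠ 0 → ((∃ y : Y, y ≠ 0 ∧ ∀ x, x ≠ 0 → ∃ g : Y →L[ℂ] ℂ, F x f = ten y g) ∨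
      (∃ g : Y →L[ℂ] ℂ, g ≠ 0 ∧ ∀ x, x ≠ 0 → ∃ y : Y, F x f = ten y g)) := fun f hf =>
    types_row (fun x => F x f) (fun x x' hx hx' hc => hadj' x x' f hx hx' hf hc)
      (fun x c => hpar' x f c) hex
  -- a row and a column with common ranges
  have hA : ∀ x f, x ≠ 0 → f ≠ 0 →
      (∃ y : Y, y ≠ 0 ∧ ∀ f, f ≠ 0 → ∃ g : Y →L[ℂ] ℂ, F x f = ten y g) →
      (∃ y : Y, y ≠ 0 ∧ ∀ x, x ≠ 0 → ∃ g : Y →L[ℂ] ℂ, F x f = ten y g) → False := by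
    rintro x f hx hf ⟨y, hy, h1⟩ ⟨y', hy', h2⟩
    obtain ⟨x', hx', hxx'⟩ := hex x hx
    obtain ⟨f', hf', hff'⟩ := hex' f hf
    obtain ⟨g, hg⟩ := h1 f hf
    obtain ⟨g', hg'⟩ := h2 x hx
    obtain ⟨⟨c, hc0, hc⟩, -⟩ := types_two (hg.symm.trans hg') (by rw [← hg]; exact hne x f hx hf)
    obtain ⟨a, ha⟩ := h1 f' hf'
    obtain ⟨b, hb⟩ := h2 x' hx'
    refine hnadj x x' f f' hx hx' hf hf' hxx' hff' (Or.inl ⟨y, a, c • b, ha, ?_⟩)
    rw [hb, hc, ten_smul_left, ten_smul_right]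
  -- a row and a column with common kernels
  have hB : ∀ x f, x ≠ 0 → f ≠ 0 →
      (∃ g : Y →L[ℂ] ℂ, g ≠ 0 ∧ ∀ f, f ≠ 0 → ∃ y : Y, F x f = ten y g) →
      (∃ g : Y →L[ℂ] ℂ, g ≠ 0 ∧ ∀ x, x ≠ 0 → ∃ y : Y, F x f = ten y g) → False := by
    rintro x f hx hf ⟨g, hg, h1⟩ ⟨g', hg', h2⟩
    obtain ⟨x', hx', hxx'⟩ := hex x hx
    obtain ⟨f', hf', hff'⟩ := hex' f hf
    obtain ⟨y, hy⟩ := h1 f hf
    obtain ⟨y', hy'⟩ := h2 x hx
    obtain ⟨-, ⟨c, hc0, hc⟩⟩ := types_two (hy.symm.trans hy') (by rw [← hy]; exact hne x f hx hf)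
    obtain ⟨a, ha⟩ := h1 f' hf'
    obtain ⟨b, hb⟩ := h2 x' hx'
    refine hnadj x x' f f' hx hx' hf hf' hxx' hff' (Or.inr ⟨a, c • b, g, ha, ?_⟩)
    rw [hb, hc, ten_smul_left, ten_smul_right]
  by_cases hcase : ∃ x, x ≠ 0 ∧
      (∃ y : Y, y ≠ 0 ∧ ∀ f, f ≠ 0 → ∃ g : Y →L[ℂ] ℂ, F x f = ten y g)
  · left
    obtain ⟨x0, hx0, hR0⟩ := hcase
    have hK : ∀ f, f ≠ 0 → ∃ g : Y →L[ℂ] ℂ, g ≠ 0 ∧ ∀ x, x ≠ 0 → ∃ y : Y, F x f = ten y g := by
      intro f hf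
      rcases hcol f hf with h | h
      · exact (hA x0 f hx0 hf hR0 h).elim
      · exact h
    have hR : ∀ x, x ≠ 0 → ∃ y : Y, y ≠ 0 ∧ ∀ f, f ≠ 0 → ∃ g : Y →L[ℂ] ℂ, F x f = ten y g := by
      intro x hx
      by_cases hf : ∃ f : E', f ≠ 0
      · obtain ⟨f, hf⟩ := hf
        rcases hrow x hx with h | h
        · exact h
        · exact (hB x f hx hf h (hK f hf)).elim
      · obtain ⟨y, hy⟩ := exists_ne (0 : Y)
        exact ⟨y, hy, fun f hf' => (hf ⟨f, hf'⟩).elim⟩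
    choose! p hp using hR
    choose! q hq using hK
    refine ⟨p, q, fun x hx => (hp x hx).1, fun f hf => (hq f hf).1, fun x f hx hf => ?_⟩
    obtain ⟨g, hg⟩ := (hp x hx).2 f hf
    obtain ⟨y, hy⟩ := (hq f hf).2 x hx
    have h0 : ten y (q f) ≠ 0 := by rw [← hy]; exact hne x f hx hf
    obtain ⟨-, ⟨c, hc0, hc⟩⟩ := types_two (hy.symm.trans hg) h0
    refine ⟨c, hc0, ?_⟩
    rw [hg, hc, ten_smul_right]
  · right
    have hK : ∀ x, x ≠ 0 → ∃ g : Y →L[ℂ] ℂ, g ≠ 0 ∧ ∀ f, f ≠ 0 → ∃ y : Y, F x f = ten y g := by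
      intro x hx
      rcases hrow x hx with h | h
      · exact (hcase ⟨x, hx, h⟩).elim
      · exact h
    have hR : ∀ f, f ≠ 0 → ∃ y : Y, y ≠ 0 ∧ ∀ x, x ≠ 0 → ∃ g : Y →L[ℂ] ℂ, F x f = ten y g := by
      intro f hf
      by_cases hx : ∃ x : E, x ≠ 0
      · obtain ⟨x, hx⟩ := hx
        rcases hcol f hf with h | h
        · exact h
        · exact (hB x f hx hf (hK x hx) h).elim
      · obtain ⟨y, hy⟩ := exists_ne (0 : Y)
        exact ⟨y, hy, fun x hx' => (hx ⟨x, hx'⟩).elim⟩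
    choose! q hq using hK
    choose! p hp using hR
    refine ⟨p, q, fun f hf => (hp f hf).1, fun x hx => (hq x hx).1, fun x f hx hf => ?_⟩
    obtain ⟨g, hg⟩ := (hp f hf).2 x hx
    obtain ⟨y, hy⟩ := (hq x hx).2 f hf
    have h0 : ten y (q x) ≠ 0 := by rw [← hy]; exact hne x f hx hf
    obtain ⟨-, ⟨c, hc0, hc⟩⟩ := types_two (hy.symm.trans hg) h0
    refine ⟨c, hc0, ?_⟩
    rw [hg, hc, ten_smul_right]

/-- from two independent vectors: every vector has a non-proportional partner -/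
private theorem types_ex {E : Type*} [AddCommGroup E] [Module ℂ E] {v : Fin 2 → E}
    (hv : LinearIndependent ℂ v) (x : E) (_hx : x ≠ 0) : ∃ x', x' ≠ 0 ∧ ¬ ∃ c : ℂ, x' = c • x := by
  by_cases h0 : ∃ c : ℂ, v 0 = c • x
  · by_cases h1 : ∃ c : ℂ, v 1 = c • x
    · exfalso
      obtain ⟨a, ha⟩ := h0
      obtain ⟨b, hb⟩ := h1
      have hv0 : v 0 ≠ 0 := hv.ne_zero 0
      have ha0 : a ≠ 0 := by
        rintro rfl
        exact hv0 (by rw [ha, zero_smul])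
      have h2 := (LinearIndependent.pair_iff' (K := ℂ) (x := v 0) (y := v 1) hv0).mp (by
        have : ![v 0, v 1] = v := by
          ext i
          fin_cases i <;> rfl
        rw [this]
        exact hv) (b * a⁻¹)
      apply h2
      rw [ha, hb, smul_smul, mul_assoc, inv_mul_cancel₀ ha0, mul_one]
    · exact ⟨v 1, hv.ne_zero 1, h1⟩
  · exact ⟨v 0, hv.ne_zero 0, h0⟩

/-- the same for functionals -/
private theorem types_ex' {v : Fin 2 → X} (hv : LinearIndependent ℂ v) (f : X →L[ℂ] ℂ)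
    (hf : f ≠ 0) : ∃ f' : X →L[ℂ] ℂ, f' ≠ 0 ∧ ¬ ∃ c : ℂ, f' = c • f := by
  obtain ⟨g0, hg0⟩ := exists_dual hv ![1, 0]
  obtain ⟨g1, hg1⟩ := exists_dual hv ![0, 1]
  have hg : LinearIndependent ℂ ![g0, g1] := by
    have hne : g0 ≠ 0 := by
      rintro rfl
      have := hg0 0
      simp at this
    rw [LinearIndependent.pair_iff' hne]
    intro a ha
    have h1 : a • g0 (v 1) = g1 (v 1) := by rw [← ha]; rfl
    rw [hg0 1, hg1 1] at h1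
    simp at h1
  exact types_ex hg f hf

/-- two presentations, the other orientation -/
private theorem types_prop {x x' : X} {f f' : X →L[ℂ] ℂ} (hx : x ≠ 0) (hf : f ≠ 0)
    (h : ten x f = ten x' f') : (∃ c : ℂ, x = c • x') ∧ (∃ c : ℂ, f = c • f') := by
  have h0 : ten x f ≠ 0 := by
    intro h1
    rcases ten_eq_zero_iff.mp h1 with h2 | h2
    · exact hx h2
    · exact hf h2
  obtain ⟨⟨a, -, ha⟩, ⟨b, -, hb⟩⟩ := types_two h.symm (by rw [← h]; exact h0)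
  exact ⟨⟨a, ha⟩, ⟨b, hb⟩⟩

theorem types [CompleteSpace X] [CompleteSpace Y] {k : ℕ} (hX : Rich X k)
    (hY : Rich Y k) {φ : (X →L[ℂ] X) → (Y →L[ℂ] Y)} (h : Pres k φ)
    (h2 : ∃ v : Fin 2 → X, LinearIndependent ℂ v) :
    (∃ (p : X → Y) (q : (X →L[ℂ] ℂ) → (Y →L[ℂ] ℂ)), (∀ x, x ≠ 0 → p x ≠ 0) ∧
      (∀ f, f ≠ 0 → q f ≠ 0) ∧ ∀ x f, x ≠ 0 → f ≠ 0 →
        ∃ d : ℂ, d ≠ 0 ∧ φ (ten x f) = d • ten (p x) (q f)) ∨
    (∃ (p : (X →L[ℂ] ℂ) → Y) (q : X → (Y →L[ℂ] ℂ)), (∀ f, f ≠ 0 → p f ≠ 0) ∧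
      (∀ x, x ≠ 0 → q x ≠ 0) ∧ ∀ x f, x ≠ 0 → f ≠ 0 →
        ∃ d : ℂ, d ≠ 0 ∧ φ (ten x f) = d • ten (p f) (q x)) := by
  obtain ⟨v, hv⟩ := h2
  have hten : ∀ (x : X) (f : X →L[ℂ] ℂ), x ≠ 0 → f ≠ 0 → ten x f ≠ 0 := by
    intro x f hx hf h1
    rcases ten_eq_zero_iff.mp h1 with h2 | h2
    · exact hx h2
    · exact hf h2
  have hne : ∀ (x : X) (f : X →L[ℂ] ℂ), x ≠ 0 → f ≠ 0 → φ (ten x f) ≠ 0 := by
    intro x f hx hf h1
    exact hten x f hx hf ((Pres.zero_iff hX hY h (ten x f)).mp h1)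
  have hnt : Nontrivial Y := by
    by_contra hcon
    rw [not_nontrivial_iff_subsingleton] at hcon
    obtain ⟨g, hg⟩ := exists_dual hv ![1, 0]
    have hg0 : g ≠ 0 := by
      rintro rfl
      have := hg 0
      simp at this
    apply hne (v 0) g (hv.ne_zero 0) hg0
    ext w
    exact Subsingleton.elim _ _
  refine types_abs (fun x f => φ (ten x f)) hne ?_ ?_ ?_ ?_ ?_ (fun x hx => types_ex hv x hx)
    (fun f hf => types_ex' hv f hf)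
  · intro x f f' hx hf hf' hc
    refine (Pres.adj hX hY h (hten x f hx hf) (hten x f' hx hf') ?_).mpr
      (Or.inl ⟨x, f, f', rfl, rfl⟩)
    rintro ⟨c, h1⟩
    rw [← ten_smul_right] at h1
    obtain ⟨-, ⟨d, hd⟩⟩ := types_prop hx hf' h1
    exact hc ⟨d * c, by rw [hd, smul_smul]⟩
  · intro x x' f hx hx' hf hc
    refine (Pres.adj hX hY h (hten x f hx hf) (hten x' f hx' hf) ?_).mpr
      (Or.inr ⟨x, x', f, rfl, rfl⟩)
    rintro ⟨c, h1⟩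
    rw [← ten_smul_left] at h1
    obtain ⟨⟨d, hd⟩, -⟩ := types_prop hx' hf h1
    exact hc ⟨d * c, by rw [hd, smul_smul]⟩
  · intro x x' f f' hx hx' hf hf' hc hc'
    rw [Pres.adj hX hY h (hten x f' hx hf') (hten x' f hx' hf) (by
      rintro ⟨c, h1⟩
      rw [← ten_smul_left] at h1
      obtain ⟨⟨d, hd⟩, -⟩ := types_prop hx' hf h1
      exact hc ⟨d * c, by rw [hd, smul_smul]⟩)]
    rintro (⟨w, a, b, h1, h3⟩ | ⟨w, z, a, h1, h3⟩)
    · obtain ⟨⟨c, -, hw⟩, -⟩ := types_two h1 (hten x f' hx hf')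
      obtain ⟨⟨d, hd⟩, -⟩ := types_prop hx' hf h3
      exact hc ⟨d * c, by rw [hd, hw, smul_smul]⟩
    · obtain ⟨-, ⟨c, -, hw⟩⟩ := types_two h3 (hten x' f hx' hf)
      obtain ⟨-, ⟨d, hd⟩⟩ := types_prop hx hf' h1
      exact hc' ⟨d * c, by rw [hd, hw, smul_smul]⟩
  · intro x f c
    exact (Pres.par_iff hX hY h (ten x f) (ten x (c • f))).mpr ⟨c, ten_smul_right c x f⟩
  · intro x f c
    exact (Pres.par_iff hX hY h (ten x f) (ten (c • x) f)).mpr ⟨c, ten_smul_left c x f⟩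

end Pool.Agent.H.MP_bb4c62_an.QP
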